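import Pool.Agent.MP_86c931_ag.H56.Spec

/-! Sections of the structure sheaf of an integral scheme inside the function field. -/

namespace Pool.Agent.MP_86c931_ag.H56

open AlgebraicGeometry CategoryTheory TopologicalSpace Opposite

variable {Y : Scheme.{0}}

/-- restriction of functions -/
noncomputable def rs {U V : Y.Opens} (i : V ≤ U) : Γ(Y, U) →+* Γ(Y, V) :=
  (Y.presheaf.map (homOfLE i).op).hom

lemma resO_eq {U V : Y.Opens} (i : V ≤ U) (f : Γ(Y, U)) : resO i f = rs i f := rfl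

lemma rs_rs {U V W : Y.Opens} (i : V ≤ U) (j : W ≤ V) (s : Γ(Y, U)) :
    rs j (rs i s) = rs (j.trans i) s := by
  show (Y.presheaf.map (homOfLE j).op).hom ((Y.presheaf.map (homOfLE i).op).hom s) = _
  rw [← CommRingCat.comp_apply, ← Functor.map_comp]
  rfl

lemma rs_self {U : Y.Opens} (s : Γ(Y, U)) : rs le_rfl s = s := by
  show (Y.presheaf.map (homOfLE le_rfl).op).hom s = s
  have : (homOfLE (le_rfl : U ≤ U)).op = 𝟙 _ := rfl
  rw [this, CategoryTheory.Functor.map_id]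
  rfl

section
variable {R : Type} [CommRing R] (ρ : Y ⟶ Spec (CommRingCat.of R))

/-- pullback of ring elements as a ring homomorphism -/
noncomputable def fnHom (U : Y.Opens) : R →+* Γ(Y, U) :=
  (rs le_top).comp (ρ.appTop.hom.comp (Scheme.ΓSpecIso (CommRingCat.of R)).inv.hom)

lemma fn_eq (f : R) (U : Y.Opens) : fn ρ f U = fnHom ρ U f := rfl

lemma rs_fn {U V : Y.Opens} (i : V ≤ U) (f : R) : rs i (fn ρ f U) = fn ρ f V :=
  rs_rs le_top i _

end

variable [IsIntegral Y]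

variable (Y) in
/-- the generic point -/
noncomputable abbrev gp : Y := genericPoint Y

lemma gen_mem {U : Y.Opens} {y : Y} (h : y ∈ U) : gp Y ∈ U :=
  ((genericPoint_spec Y).mem_open_set_iff U.isOpen).mpr ⟨y, trivial, h⟩

/-- embedding in the function field -/
noncomputable def emb (U : Y.Opens) (h : gp Y ∈ U) : Γ(Y, U) →+* Y.functionField :=
  (Y.presheaf.germ U (gp Y) h).hom

lemma emb_inj (U : Y.Opens) (h : gp Y ∈ U) : Function.Injective (emb U h) :=
  germ_injective_of_isIntegral Y _ h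

lemma emb_rs {U V : Y.Opens} (i : V ≤ U) (h : gp Y ∈ V) (s : Γ(Y, U)) :
    emb V h (rs i s) = emb U (i h) s :=
  TopCat.Presheaf.germ_res_apply Y.presheaf (homOfLE i) _ h s

lemma ext_emb {U : Y.Opens} {s t : Γ(Y, U)} (H : ∀ h, emb U h s = emb U h t) : s = t := by
  by_cases h : gp Y ∈ U
  · exact emb_inj U h (H h)
  · have : U = ⊥ := by
      rw [eq_bot_iff]
      intro y hy
      exact (h (gen_mem hy)).elim
    subst this
    exact Subsingleton.elim _ _

/-- a rational function is regular on `U` -/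
def Reg (U : Y.Opens) (k : Y.functionField) : Prop := ∃ s : Γ(Y, U), ∀ h, emb U h s = k

lemma Reg.mono {U V : Y.Opens} (i : V ≤ U) {k : Y.functionField} (h : Reg U k) : Reg V k := by
  obtain ⟨s, hs⟩ := h
  exact ⟨rs i s, fun h => by rw [emb_rs, hs]⟩

lemma reg_emb (U : Y.Opens) (h : gp Y ∈ U) (s : Γ(Y, U)) : Reg U (emb U h s) :=
  ⟨s, fun _ => rfl⟩

lemma Reg.add {U : Y.Opens} {k l : Y.functionField} (hk : Reg U k) (hl : Reg U l) :
    Reg U (k + l) := by
  obtain ⟨s, hs⟩ := hk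
  obtain ⟨t, ht⟩ := hl
  exact ⟨s + t, fun h => by rw [map_add, hs, ht]⟩

lemma Reg.sub {U : Y.Opens} {k l : Y.functionField} (hk : Reg U k) (hl : Reg U l) :
    Reg U (k - l) := by
  obtain ⟨s, hs⟩ := hk
  obtain ⟨t, ht⟩ := hl
  exact ⟨s - t, fun h => by rw [map_sub, hs, ht]⟩

lemma Reg.mul {U : Y.Opens} {k l : Y.functionField} (hk : Reg U k) (hl : Reg U l) :
    Reg U (k * l) := by
  obtain ⟨s, hs⟩ := hk
  obtain ⟨t, ht⟩ := hl
  exact ⟨s * t, fun h => by rw [map_mul, hs, ht]⟩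

lemma reg_glue {U : Y.Opens} {k : Y.functionField}
    (H : ∀ y ∈ U, ∃ V : Y.Opens, V ≤ U ∧ y ∈ V ∧ Reg V k) : Reg U k := by
  choose V hVU hyV s hs using H
  obtain ⟨t, ht, -⟩ := Y.sheaf.existsUnique_gluing' (fun y : U => V y.1 y.2) U
    (fun y => homOfLE (hVU y.1 y.2))
    (fun y hy => Opens.mem_iSup.2 ⟨⟨y, hy⟩, hyV y hy⟩) (fun y => s y.1 y.2) (by
      intro y z
      refine ext_emb (U := V y.1 y.2 ⊓ V z.1 z.2) fun h => ?_
      exact (emb_rs inf_le_left h _).trans ((hs _ _ _).trans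
        ((emb_rs inf_le_right h _).trans (hs _ _ _)).symm))
  refine ⟨t, fun h => ?_⟩
  have := ht ⟨_, h⟩
  rw [← hs _ h (hyV _ h), ← this]
  exact (emb_rs (hVU _ h) (hyV _ h) t).symm

/-- functions on a basic open of an affine open -/
lemma reg_basicOpen_iff {U : Y.Opens} (hU : IsAffineOpen U) (s : Γ(Y, U))
    (h : gp Y ∈ Y.basicOpen s) (k : Y.functionField) :
    Reg (Y.basicOpen s) k ↔
      ∃ j : ℕ, Reg U (k * emb U (Y.basicOpen_le s h) s ^ j) := by
  have hloc := hU.isLocalization_basicOpen s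
  have halg : ∀ f : Γ(Y, U), algebraMap Γ(Y, U) Γ(Y, Y.basicOpen s) f =
      rs (Y.basicOpen_le s) f := fun f => rfl
  constructor
  · rintro ⟨t, ht⟩
    obtain ⟨⟨f, b⟩, hb⟩ := IsLocalization.surj (Submonoid.powers s) t
    obtain ⟨j, hj⟩ := b.2
    refine ⟨j, f, fun h' => ?_⟩
    have := congrArg (emb _ h) hb
    simp only at this hj
    rw [map_mul, ht, halg, halg, emb_rs, emb_rs, ← hj, map_pow] at this
    exact this.symm
  · rintro ⟨j, f, hf⟩
    have hu : IsUnit (algebraMap Γ(Y, U) Γ(Y, Y.basicOpen s) s) :=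
      IsLocalization.Away.algebraMap_isUnit s
    obtain ⟨u, hu⟩ := hu.exists_right_inv
    refine ⟨rs (Y.basicOpen_le s) f * u ^ j, fun h' => ?_⟩
    have h1 : emb U (Y.basicOpen_le s h) s * emb _ h' u = 1 := by
      rw [← emb_rs (Y.basicOpen_le s) h', ← halg, ← map_mul, hu, map_one]
    rw [map_mul, map_pow, emb_rs, hf, mul_assoc, ← mul_pow, h1, one_pow, mul_one]

lemma gp_mem_basicOpen {U : Y.Opens} (h : gp Y ∈ U) (s : Γ(Y, U)) (hs : emb U h s ≠ 0) :
    gp Y ∈ Y.basicOpen s := by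
  rw [Scheme.mem_basicOpen Y s (gp Y) h]
  exact (isUnit_iff_ne_zero (G₀ := Y.functionField)).2 hs

lemma emb_ne_zero_of_mem {U : Y.Opens} (s : Γ(Y, U)) (h : gp Y ∈ Y.basicOpen s) :
    emb U (Y.basicOpen_le s h) s ≠ 0 := by
  have := (Scheme.mem_basicOpen Y s (gp Y) (Y.basicOpen_le s h)).1 h
  exact (isUnit_iff_ne_zero (G₀ := Y.functionField)).1 this

end Pool.Agent.MP_86c931_ag.H56
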