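import Pool.Agent.MP_86c931_ag.H56.PQ
import Pool.Agent.MP_86c931_ag.H56.Fn

/-! Abstract building blocks, stated as propositions. -/

namespace Pool.Agent.MP_86c931_ag.H56

open AlgebraicGeometry CategoryTheory TopologicalSpace Opposite
open scoped PowerSeries

/-! ### Coordinates and Poincaré lemmas -/

/-- commuting derivations dual to a family of elements -/
structure Coord (O : Type) [CommRing O] [Algebra ℂ O] (σ : Type) [DecidableEq σ] where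
  /-- the derivations -/
  d : σ → Derivation ℂ O O
  /-- the coordinates -/
  z : σ → O
  comm : ∀ s t f, d s (d t f) = d t (d s f)
  dz : ∀ s t, d s (z t) = if s = t then 1 else 0

/-- Poincaré lemma in degree two, relative to constants `Z` -/
def RowP2 : Prop :=
  ∀ (O : Type) [CommRing O] [Algebra ℂ O] (σ : Type) [Fintype σ] [DecidableEq σ] (c : Coord O σ)
    (Z : Set O), (∀ s, ∀ h ∈ Z, c.d s h = 0) →
    ∀ g : σ → σ → O, (∀ s t, g s t ∈ Algebra.adjoin ℂ (Set.range c.z ∪ Z)) →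
      (∀ s t, g s t = -g t s) →
      (∀ s t u, c.d s (g t u) + c.d t (g u s) + c.d u (g s t) = 0) →
      ∃ b : σ → O, (∀ s, b s ∈ Algebra.adjoin ℂ (Set.range c.z ∪ Z)) ∧
        ∀ s t, c.d s (b t) - c.d t (b s) = g s t

/-- Poincaré lemma in degree one with one inverted coordinate -/
def RowP1 : Prop :=
  ∀ (O : Type) [CommRing O] [Algebra ℂ O] (σ : Type) [Fintype σ] [DecidableEq σ] (c : Coord O σ)
    (s0 : σ) (a' : O), c.z s0 * a' = 1 →
    ∀ α : σ → O, (∀ s, α s ∈ Algebra.adjoin ℂ (Set.range c.z ∪ {a'})) →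
      (∀ s t, c.d s (α t) = c.d t (α s)) →
      ∃ f ∈ Algebra.adjoin ℂ (Set.range c.z ∪ {a'}), ∃ r : ℂ,
        ∀ s, α s = c.d s f + if s = s0 then r • a' else 0

/-- logarithmic forms are not exact, and constants are scalars -/
def RowP0 : Prop :=
  ∀ (O : Type) [CommRing O] [Algebra ℂ O] (σ : Type) [Fintype σ] [DecidableEq σ] (c : Coord O σ)
    (I : Set O), (∀ w ∈ I, ∃ s, c.z s * w = 1) →
    ∀ F ∈ Algebra.adjoin ℂ (Set.range c.z ∪ I),
      (∀ (s : σ) (r : ℂ), c.z s * c.d s F = algebraMap ℂ O r → algebraMap ℂ O r = 0) ∧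
      ((∀ s, c.d s F = 0) → ∃ r : ℂ, F = algebraMap ℂ O r)

/-- elements with dual derivations are algebraically independent -/
def RowAlg : Prop :=
  ∀ (O : Type) [CommRing O] [Algebra ℂ O] [Nontrivial O] (σ : Type) [DecidableEq σ]
    (d : σ → Derivation ℂ O O) (z : σ → O), (∀ s t, d s (z t) = if s = t then 1 else 0) →
    AlgebraicIndependent ℂ z

/-- the four statements on coordinates -/
def RowPOIN : Prop := RowP2 ∧ RowP1 ∧ RowP0 ∧ RowAlg

/-! ### Canonical commutation relations -/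

/-- commutation relations modulo `h ^ n` -/
def CCR {C : Type} [Ring C] [Algebra ℂ⟦X⟧ C] {τ : Type} (J : τ → τ → ℂ) (w : τ → C) (n : ℕ) :
    Prop :=
  ∀ s t, Dv n (w s * w t - w t * w s - algebraMap ℂ⟦X⟧ C (hb * PowerSeries.C (J s t)))

/-- quantum Darboux lemma -/
def RowDARB : Prop :=
  ∀ (O C : Type) [CommRing O] [Algebra ℂ O] [Ring C] [Algebra ℂ⟦X⟧ C] (Q : PQ O C)
    (β : O → O → O), TF C → Q.Induces β → (∀ f g, β f g = -β g f) →
    ∀ (O' : Subalgebra ℂ O) (C' : Subalgebra ℂ⟦X⟧ C), Q.Sub O' C' →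
    ∀ (τ : Type) (z : τ → O) (J : τ → τ → ℂ), (∀ s t, β (z s) (z t) = algebraMap ℂ O (J s t)) →
    (∀ g : τ → τ → O, (∀ s t, g s t ∈ O') → (∀ s t, g s t = -g t s) →
      (∀ s t u, β (z s) (g t u) + β (z t) (g u s) + β (z u) (g s t) = 0) →
      ∃ b : τ → O, (∀ s, b s ∈ O') ∧ ∀ s t, β (z s) (b t) - β (z t) (b s) = g s t) →
    ∀ w : τ → C, (∀ s, w s ∈ C') → (∀ s, Q.π (w s) = z s) →
      CCR J w 2 ∧ ∀ m N : ℕ, 1 ≤ m → CCR J w (m + 1) →
        ∃ w' : τ → C, (∀ s, w' s ∈ C') ∧ (∀ s, Dv m (w' s - w s)) ∧ CCR J w' N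

/-- a truncated deformation of a polynomial subalgebra is generated by lifts of the variables -/
def RowGen : Prop :=
  ∀ (O C : Type) [CommRing O] [Algebra ℂ O] [Ring C] [Algebra ℂ⟦X⟧ C] (Q : PQ O C) (N : ℕ),
    Q.Trunc N → ∀ (τ : Type) (w : τ → C) (C' : Subalgebra ℂ⟦X⟧ C),
    Q.Sub (Algebra.adjoin ℂ (Set.range fun t => Q.π (w t))) C' → (∀ t, w t ∈ C') →
    C' ≤ Algebra.adjoin ℂ⟦X⟧ (Set.range w)

/-- clearing denominators -/
def RowPow : Prop :=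
  ∀ (O C : Type) [CommRing O] [Algebra ℂ O] [Ring C] [Algebra ℂ⟦X⟧ C] (Q : PQ O C) (N : ℕ),
    Q.Trunc N → ∀ (O1 O2 : Subalgebra ℂ O) (C1 C2 : Subalgebra ℂ⟦X⟧ C),
    Q.Sub O1 C1 → Q.Sub O2 C2 → C1 ≤ C2 → ∀ u ∈ C1, (∀ f ∈ O2, ∃ j : ℕ, Q.π u ^ j * f ∈ O1) →
    ∀ m ∈ C2, ∃ j : ℕ, u ^ j * m ∈ C1

/-- lifts of units are units -/
def RowUnit : Prop :=
  ∀ (O C : Type) [CommRing O] [Algebra ℂ O] [Ring C] [Algebra ℂ⟦X⟧ C] (Q : PQ O C) (N : ℕ),
    Q.Trunc N → ∀ (O' : Subalgebra ℂ O) (C' : Subalgebra ℂ⟦X⟧ C), Q.Sub O' C' →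
    ∀ b ∈ C', ∀ f ∈ O', Q.π b * f = 1 → ∃ b' ∈ C', b' * b = 1 ∧ b * b' = 1

/-- universal property of a truncated deformation of a localized polynomial algebra -/
def RowUniv : Prop :=
  ∀ (Ot O M B : Type) [CommRing Ot] [Algebra ℂ Ot] [CommRing O] [Algebra ℂ O]
    [Ring M] [Algebra ℂ⟦X⟧ M] [Ring B] [Algebra ℂ⟦X⟧ B] (Q1 : PQ Ot M) (Q2 : PQ O B) (N : ℕ),
    Q1.Trunc N → Q2.Trunc N → Function.Surjective Q1.π → Function.Surjective Q2.π →
    ∀ (q : Ot →ₐ[ℂ] O) (τ : Type) (z : τ → Ot), AlgebraicIndependent ℂ z →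
    ∀ M1 : Subalgebra ℂ⟦X⟧ M, Q1.Sub (Algebra.adjoin ℂ (Set.range z)) M1 →
    ∀ A ∈ Algebra.adjoin ℂ (Set.range z), IsUnit (q A) →
    (∀ f, ∃ j : ℕ, A ^ j * f ∈ Algebra.adjoin ℂ (Set.range z)) →
    ∀ (J : τ → τ → ℂ) (w : τ → M) (b : τ → B), (∀ t, w t ∈ M1) → (∀ t, Q1.π (w t) = z t) →
    CCR J w N → (∀ t, Q2.π (b t) = q (z t)) → CCR J b N →
    ∃ φ : M →ₐ[ℂ⟦X⟧] B, (∀ t, φ (w t) = b t) ∧ ∀ m, Q2.π (φ m) = q (Q1.π m)

/-- the four statements on truncated deformations -/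
def RowUL : Prop := RowGen ∧ RowPow ∧ RowUnit ∧ RowUniv

/-! ### The comparison theorem -/

/-- classical data: a one parameter family `Ot` of symplectic algebras with special fibre `O`,
with Darboux charts indexed by `κ` -/
structure CData (κ : Type) (σ : κ → Type) [∀ k, DecidableEq (σ k)]
    (Ot O : Type) [CommRing Ot] [Algebra ℂ Ot] [CommRing O] [Algebra ℂ O] where
  /-- bracket on the family -/
  βt : Ot → Ot → Ot
  /-- bracket on the fibre -/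
  β : O → O → O
  pt : IsPoisson βt
  p : IsPoisson β
  /-- specialization -/
  q : Ot →ₐ[ℂ] O
  q_surj : Function.Surjective q
  q_br : ∀ f g, q (βt f g) = β (q f) (q g)
  /-- the parameter -/
  H : Ot
  q_H : q H = 0
  H_br : ∀ f, βt H f = 0
  /-- Darboux coordinates -/
  z : ∀ k, σ k → Ot
  /-- dual index -/
  dual : ∀ k, σ k → σ k
  dual_dual : ∀ k s, dual k (dual k s) = s
  /-- signs -/
  sgn : ∀ k, σ k → ℂ
  sgn_sq : ∀ k s, sgn k s * sgn k s = 1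
  sgn_dual : ∀ k s, sgn k (dual k s) = -sgn k s
  ccr : ∀ k s t, βt (z k s) (z k t) = if t = dual k s then algebraMap ℂ Ot (sgn k s) else 0
  /-- transition functions -/
  a : κ → κ → Ot
  a_mul : ∀ k l m, a k l * a l m = a k m
  a_self : ∀ k, a k k = 1
  /-- the transition function is a coordinate -/
  pos : ∀ k l, k ≠ l → σ k
  a_eq : ∀ k l h, a k l = z k (pos k l h)
  pos_inj : ∀ k l m hl hm, pos k l hl = pos k m hm → l = m
  gen : ∀ k, Algebra.adjoin ℂ (Set.range (z k) ∪ {H} ∪ Set.range fun l => a l k) = ⊤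
  le_kl : ∀ k l, Algebra.adjoin ℂ (Set.range (z l) ∪ {H}) ≤
    Algebra.adjoin ℂ (Set.range (z k) ∪ {H} ∪ {a l k})
  /-- derivative in the parameter -/
  η : κ → Derivation ℂ Ot Ot
  η_z : ∀ k s, η k (z k s) = 0
  η_H : ∀ k, η k H = 1
  η_sub : ∀ k l f, q (η l f) - q (η k f) = β (q (a k l)) (q f) * q (a l k)
  nontriv : Nontrivial O
  three : ∀ k l : κ, ∃ m, m ≠ k ∧ m ≠ l
  cech : ∀ w : κ → O,
    (∀ k l, w k - w l ∈ (Algebra.adjoin ℂ (Set.range (z k) ∪ {H} ∪ {a l k})).map q) →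
    ∃ c, ∀ k, w k - c ∈ (Algebra.adjoin ℂ (Set.range (z k) ∪ {H})).map q

namespace CData

variable {κ : Type} {σ : κ → Type} [∀ k, DecidableEq (σ k)] {Ot O : Type} [CommRing Ot]
  [Algebra ℂ Ot] [CommRing O] [Algebra ℂ O] (D : CData κ σ Ot O)

/-- functions on a chart of the family -/
def Otk (k : κ) : Subalgebra ℂ Ot := Algebra.adjoin ℂ (Set.range (D.z k) ∪ {D.H})

/-- functions on an intersection of two charts of the family -/
def Otkl (k l : κ) : Subalgebra ℂ Ot := Algebra.adjoin ℂ (Set.range (D.z k) ∪ {D.H} ∪ {D.a l k})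

/-- functions on a chart -/
def Ok (k : κ) : Subalgebra ℂ O := (D.Otk k).map D.q

/-- functions on an intersection of two charts -/
def Okl (k l : κ) : Subalgebra ℂ O := (D.Otkl k l).map D.q

end CData

/-- comparison of a deformation of `O` with a deformation of the family, chart by chart -/
def RowCMP : Prop :=
  ∀ (κ : Type) [Fintype κ] [DecidableEq κ] (σ : κ → Type) [∀ k, Fintype (σ k)]
    [∀ k, DecidableEq (σ k)] (Ot O M B : Type) [CommRing Ot] [Algebra ℂ Ot] [CommRing O]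
    [Algebra ℂ O] [Ring M] [Algebra ℂ⟦X⟧ M] [Ring B] [Algebra ℂ⟦X⟧ B] (D : CData κ σ Ot O)
    (QM : PQ Ot M) (QB : PQ O B), TF M → TF B → QM.Induces D.βt → QB.Induces D.β →
    Function.Surjective QM.π → Function.Surjective QB.π →
    ∀ (Mk : κ → Subalgebra ℂ⟦X⟧ M) (Mkl : κ → κ → Subalgebra ℂ⟦X⟧ M)
      (Bk : κ → Subalgebra ℂ⟦X⟧ B) (Bkl : κ → κ → Subalgebra ℂ⟦X⟧ B),
    (∀ k, QM.Sub (D.Otk k) (Mk k)) → (∀ k l, QM.Sub (D.Otkl k l) (Mkl k l)) →
    (∀ k, QB.Sub (D.Ok k) (Bk k)) → (∀ k l, QB.Sub (D.Okl k l) (Bkl k l)) →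
    (∀ k l, Mk k ≤ Mkl k l ∧ Mk l ≤ Mkl k l) → (∀ k l, Bk k ≤ Bkl k l ∧ Bkl l k ≤ Bkl k l) →
    ∀ Hq : M, (∀ k, Hq ∈ Mk k) → QM.π Hq = D.H → (∀ m, Hq * m = m * Hq) →
    ∀ N : ℕ, ∃ φ : κ → (M →ₐ[ℂ⟦X⟧] Tr B (N + 2)),
      (∀ k, ∀ m ∈ Mk k, ∃ b ∈ Bk k, φ k m = trMk B (N + 2) b) ∧
      ∀ k l m, Dv (N + 1) (φ k m - φ l m)

/-! ### The Moyal product -/

/-- the bracket attached to a family of derivations with an involution and signs -/
noncomputable def brk {T : Type} [CommRing T] [Algebra ℂ T] {σ : Type} [Fintype σ]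
    (d : σ → Derivation ℂ T T) (dual : σ → σ) (ε : σ → ℂ) (f g : T) : T :=
  ∑ s, ε s • (d s f * d (dual s) g)

/-- an associative algebra structure on power series with the properties of the Moyal product -/
structure Moyal (T : Type) [CommRing T] [Algebra ℂ T] {σ : Type} [Fintype σ]
    (d : σ → Derivation ℂ T T) (dual : σ → σ) (ε : σ → ℂ) where
  /-- the algebra -/
  W : Type
  [ring : Ring W]
  [alg : Algebra ℂ⟦X⟧ W]
  /-- the underlying series -/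
  ser : W ≃ₗ[ℂ⟦X⟧] T⟦X⟧
  ser_one : ser 1 = 1
  coeff_zero_mul : ∀ F G, PowerSeries.coeff 0 (ser (F * G)) =
    PowerSeries.coeff 0 (ser F) * PowerSeries.coeff 0 (ser G)
  coeff_one_comm : ∀ F G, PowerSeries.coeff 1 (ser (F * G - G * F)) =
    brk d dual ε (PowerSeries.coeff 0 (ser F)) (PowerSeries.coeff 0 (ser G))
  mul_mem : ∀ T' : Subalgebra ℂ T, (∀ s, ∀ f ∈ T', d s f ∈ T') → ∀ F G,
    (∀ n, PowerSeries.coeff n (ser F) ∈ T') → (∀ n, PowerSeries.coeff n (ser G) ∈ T') →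
    ∀ n, PowerSeries.coeff n (ser (F * G)) ∈ T'
  quad : ∀ H : T, (∀ s t u, d s (d t (d u H)) = 0) → ∀ F n,
    PowerSeries.coeff (n + 1)
        (ser (F * ser.symm (PowerSeries.C H) - ser.symm (PowerSeries.C H) * F)) =
      brk d dual ε (PowerSeries.coeff n (ser F)) H

attribute [instance] Moyal.ring Moyal.alg

/-- existence of the Moyal product -/
def RowSTAR : Prop :=
  ∀ (T : Type) [CommRing T] [Algebra ℂ T] (σ : Type) [Fintype σ] (d : σ → Derivation ℂ T T)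
    (dual : σ → σ) (ε : σ → ℂ), (∀ s t f, d s (d t f) = d t (d s f)) →
    (∀ s, dual (dual s) = s) → (∀ s, ε (dual s) = -ε s) → Nonempty (Moyal T d dual ε)

/-! ### Hochschild homology in degree zero -/

/-- vanishing criterion -/
def RowHH : Prop :=
  ∀ (R A : Type) [CommRing R] [Algebra ℂ R] [Ring A] [Algebra ℂ⟦X⟧ A] (Q : PQ R A)
    (β : R → R → R), TF A → SeqComplete A → Function.Surjective Q.π → Q.Induces β →
    ∀ (ι : Type) [Fintype ι] (u : ι → R),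
    (∀ f, ∃ (c : ℂ) (g : ι → R), f = algebraMap ℂ R c + ∑ i, β (u i) (g i)) →
    (∃ (n : ℕ) (r : A), hb ^ n • (1 : A) - hb ^ (n + 1) • r ∈ comms (Set.univ : Set A)) →
    Subsingleton (HH0 A)

/-- the induced bracket is determined on a birational subalgebra -/
def RowEXT : Prop :=
  ∀ (R O C : Type) [CommRing O] [IsDomain O] [Algebra ℂ O] [Ring C] [Algebra ℂ⟦X⟧ C]
    (Q : PQ O C) (βR : R → R → R) (β : O → O → O) (ι : R → O), TF C →
    Function.Surjective Q.π → IsPoisson β → (∀ f g, ι (βR f g) = β (ι f) (ι g)) →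
    (∀ f : O, ∃ r r' : R, ι r' ≠ 0 ∧ f * ι r' = ι r) → Q.InducesVia ι βR → Q.Induces β

/-! ### Sheaves -/

/-- sections of a quantization -/
def RowSH : Prop :=
  ∀ (R : Type) [CommRing R] [Algebra ℂ R] (β : R → R → R) (Y : Scheme.{0}) [IsIntegral Y]
    (ρ : Y ⟶ Spec (CommRingCat.of R)) (B : TopCat.Presheaf (AlgCat.{0} ℂ⟦X⟧) Y)
    (π : ∀ U : Y.Opens, B.obj (op U) →+* Γ(Y, U)), IsQuantization ρ B π β →
    (∀ U : Y.Opens, TF (B.obj (op U))) ∧ (∀ U : Y.Opens, SeqComplete (B.obj (op U))) ∧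
    (∀ (U V : Y.Opens) (i : V ≤ U), gp Y ∈ V → ∀ (n : ℕ) (b : B.obj (op U)),
      Dv n (resB B i b) → Dv n b) ∧
    (∀ U : Y.Opens, IsAffineOpen U → Function.Surjective (π U)) ∧
    ∀ (κ : Type) (U : κ → Y.Opens), (∀ k, IsAffineOpen (U k)) → (∀ y, ∃ k, y ∈ U k) →
      (∀ w : κ → Y.functionField, (∀ k l, Reg (U k ⊓ U l) (w k - w l)) →
        ∃ c, ∀ k, Reg (U k) (w k - c)) →
      Function.Surjective (π ⊤) ∧
      ∀ (n : ℕ) (b : ∀ k, B.obj (op (U k))),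
        (∀ k l, Dv n (resB B (inf_le_left : U k ⊓ U l ≤ U k) (b k) -
          resB B (inf_le_right : U k ⊓ U l ≤ U l) (b l))) →
        ∃ a : B.obj (op ⊤), ∀ k, Dv n (resB B (le_top : U k ≤ ⊤) a - b k)

/-- the blow-up of an ideal, described inside a field -/
def RowGEO : Prop :=
  ∀ (K R : Type) [Field K] [Algebra ℂ K] [CommRing R] [Algebra ℂ R] (ι : R →ₐ[ℂ] K),
    Function.Injective ι → Algebra.FiniteType ℂ R →
    ∀ (Λ κ : Type) [Fintype Λ] [Fintype κ] [Nonempty κ] (r : Λ → R) (e : κ → Λ),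
    (∀ k, r (e k) ≠ 0) →
    (∀ i, ∃ w : κ → R, (∀ k, w k ∈ Ideal.span (Set.range r)) ∧ r i ^ 2 = ∑ k, r (e k) * w k) →
    ∃ (Y : Scheme.{0}) (_ : IsIntegral Y) (ρ : Y ⟶ Spec (CommRingCat.of R)) (U : κ → Y.Opens)
      (ε : Y.functionField →+* K) (hU : ∀ k, gp Y ∈ U k),
      IsProper ρ ∧
      (∃ V : (Spec (CommRingCat.of R)).Opens,
        Dense (V : Set (Spec (CommRingCat.of R))) ∧ IsIso (ρ ∣_ V)) ∧
      (∀ k, IsAffineOpen (U k)) ∧ (∀ y, ∃ k, y ∈ U k) ∧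
      (∀ (f : R) (V : Y.Opens) (h : gp Y ∈ V), ε (emb V h (fn ρ f V)) = ι f) ∧
      (∀ k (z : K), z ∈ Algebra.adjoin ℂ (Set.range ι ∪ Set.range fun i => ι (r i) / ι (r (e k))) ↔
        ∃ s, ε (emb (U k) (hU k) s) = z) ∧
      ∀ k l, ∃ s : Γ(Y, U k), ε (emb (U k) (hU k) s) = ι (r (e l)) / ι (r (e k)) ∧
        Y.basicOpen s = U k ⊓ U l

/-- localizations of a chart inside a field -/
def Good {K : Type} [Field K] [Algebra ℂ K] {κ : Type} (O : κ → Subalgebra ℂ K)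
    (S : Subalgebra ℂ K) : Prop :=
  ∃ k, O k ≤ S ∧ ∀ z ∈ S, ∃ g ∈ O k, g ≠ 0 ∧ g⁻¹ ∈ S ∧ z * g ∈ O k

/-- a sheaf of deformations from a family of subalgebras of a deformation of the function
field -/
def RowEXS : Prop :=
  ∀ (R K M : Type) [CommRing R] [Algebra ℂ R] [Field K] [Algebra ℂ K] [Ring M] [Algebra ℂ⟦X⟧ M]
    (β : R → R → R) (ι : R →ₐ[ℂ] K) (Y : Scheme.{0}) [IsIntegral Y]
    (ρ : Y ⟶ Spec (CommRingCat.of R)) (ε : Y.functionField →+* K),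
    (∀ (f : R) (V : Y.Opens) (h : gp Y ∈ V), ε (emb V h (fn ρ f V)) = ι f) →
    ∀ (κ : Type) (U : κ → Y.Opens) (hU : ∀ k, gp Y ∈ U k) (O : κ → Subalgebra ℂ K),
    (∀ k, IsAffineOpen (U k)) → (∀ y, ∃ k, y ∈ U k) →
    (∀ k (z : K), z ∈ O k ↔ ∃ s, ε (emb (U k) (hU k) s) = z) →
    ∀ (Q : PQ K M) (Sb : Subalgebra ℂ K → Subalgebra ℂ⟦X⟧ M),
    TF M → SeqComplete M → Q.InducesVia ι β → Monotone Sb →
    (∀ S, Good O S → Q.Sub S (Sb S) ∧ SeqClosed (Sb S)) →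
    ∃ B π, IsQuantization ρ B π β

/-! ### The trace identity -/

/-- six indices -/
abbrev K6 : Type := Fin 3 × Bool

/-- dual index -/
def K6.dual (k : K6) : K6 := (k.1, !k.2)

/-- sign of an index -/
def K6.sgn (k : K6) : ℂ := if k.2 then 1 else -1

/-- `h ^ 3` is a combination of commutators of invariants of the Weyl algebra of `ℂ^6 ⊗ ℂ^3` -/
def RowTR : Prop :=
  ∀ (C : Type) [Ring C] [Algebra ℂ⟦X⟧ C] (z : Fin 3 → K6 → C) (e h : C),
    (∀ α β k l, z α k * z β l - z β l * z α k =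
      if β = α.rev ∧ l = k.dual then algebraMap ℂ⟦X⟧ C (hb * PowerSeries.C k.sgn) else 0) →
    (∀ k, z 0 k * e - e * z 0 k = 0) → (∀ k, z 1 k * e - e * z 1 k = hb • z 0 k) →
    (∀ k, z 2 k * e - e * z 2 k = -(hb • z 1 k)) →
    (∀ k, z 0 k * h - h * z 0 k = hb • z 0 k) → (∀ k, z 1 k * h - h * z 1 k = 0) →
    (∀ k, z 2 k * h - h * z 2 k = -(hb • z 2 k)) →
    hb ^ 3 • (1 : C) ∈ comms {w : C | w * e = e * w ∧ w * h = h * w}

end Pool.Agent.MP_86c931_ag.H56
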