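import Pool.Agent.MP_86c931_ag.H56.RowsC

/-! Darboux coordinates on the six charts. -/

namespace Pool.Agent.MP_86c931_ag.H56

/-- the slice coordinate -/
noncomputable def sl (k : K6) : F := zF 1 k / zF 0 k

/-- invariant components of a vector on the chart `k` -/
noncomputable def inv3 (k : K6) (v : Fin 3 → F) : Fin 3 → F :=
  ![v 0 / zF 0 k, v 1 - sl k * v 0, zF 0 k * (v 2 + sl k * v 1 - sl k ^ 2 / 2 * v 0)]

lemma inv3_0 (k : K6) (v : Fin 3 → F) : inv3 k v 0 = v 0 / zF 0 k := rfl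
lemma inv3_1 (k : K6) (v : Fin 3 → F) : inv3 k v 1 = v 1 - sl k * v 0 := rfl
lemma inv3_2 (k : K6) (v : Fin 3 → F) :
    inv3 k v 2 = zF 0 k * (v 2 + sl k * v 1 - sl k ^ 2 / 2 * v 0) := rfl

/-- a triple transforming like the variables -/
def IsVec (v : Fin 3 → F) : Prop :=
  De (v 0) = 0 ∧ De (v 1) = v 0 ∧ De (v 2) = -v 1 ∧ Dh (v 0) = v 0 ∧ Dh (v 1) = 0 ∧ Dh (v 2) = -v 2

lemma isVec_z (l : K6) : IsVec fun α => zF α l :=
  ⟨De_z0 l, De_z1 l, De_z2 l, Dh_z0 l, Dh_z1 l, Dh_z2 l⟩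

lemma two_ne_zero_F : (2 : F) ≠ 0 := by
  rw [← map_ofNat (algebraMap ℂ F) 2]
  exact (map_ne_zero _).2 two_ne_zero

lemma der_two (D : Derivation ℂ F F) : D 2 = 0 := by
  rw [← map_ofNat (algebraMap ℂ F) 2, D.map_algebraMap]

lemma De_sl (k : K6) : De (sl k) = 1 := by
  have := zF_ne_zero 0 k
  rw [sl, Derivation.leibniz_div, De_z0, De_z1]
  simp only [smul_eq_mul]
  field_simp
  ring

lemma Dh_sl (k : K6) : Dh (sl k) = -sl k := by
  have := zF_ne_zero 0 k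
  rw [sl, Derivation.leibniz_div, Dh_z0, Dh_z1]
  simp only [smul_eq_mul]
  field_simp
  ring

lemma sl_mem {I : Finset K6} {k : K6} (hk : k ∈ I) : sl k ∈ PI I := by
  rw [sl, div_eq_mul_inv]
  exact (PI I).mul_mem (zF_mem_PI _ _ _) (inv_mem_PI hk)

lemma half_mem (A : Subalgebra ℂ F) {p : F} (hp : p ∈ A) : p / 2 ∈ A := by
  have : p / 2 = (2 : ℂ)⁻¹ • p := by
    rw [Algebra.smul_def, map_inv₀, map_ofNat, div_eq_inv_mul]
  rw [this]
  exact A.smul_mem hp _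

lemma IsVec.inv3_mem_Inv {v : Fin 3 → F} (h : IsVec v) (k : K6) (α : Fin 3) : inv3 k v α ∈ Inv := by
  obtain ⟨h1, h2, h3, h4, h5, h6⟩ := h
  have hx := zF_ne_zero 0 k
  have h2' := two_ne_zero_F
  fin_cases α
  · change inv3 k v 0 ∈ Inv
    rw [inv3_0, mem_Inv, Derivation.leibniz_div, Derivation.leibniz_div, De_z0, Dh_z0, h1, h4]
    simp [mul_comm]
  · change inv3 k v 1 ∈ Inv
    rw [inv3_1, mem_Inv]
    simp only [map_sub, Derivation.leibniz, De_sl, Dh_sl, h1, h2, h4, h5, smul_eq_mul]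
    constructor <;> ring
  · change inv3 k v 2 ∈ Inv
    rw [inv3_2, mem_Inv]
    simp only [map_sub, map_add, Derivation.leibniz, Derivation.leibniz_div, der_two,
      Derivation.leibniz_pow, De_sl, Dh_sl, De_z0, Dh_z0, h1, h2, h3, h4, h5, h6, smul_eq_mul,
      nsmul_eq_mul]
    constructor
    · field_simp; push_cast; ring
    · field_simp; push_cast; ring

lemma inv3_mem_PI {I : Finset K6} {k : K6} (hk : k ∈ I) {v : Fin 3 → F} (hv : ∀ α, v α ∈ PI I)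
    (α : Fin 3) : inv3 k v α ∈ PI I := by
  have hs := sl_mem hk
  fin_cases α
  · change inv3 k v 0 ∈ _
    rw [inv3_0, div_eq_mul_inv]
    exact (PI I).mul_mem (hv 0) (inv_mem_PI hk)
  · exact (PI I).sub_mem (hv 1) ((PI I).mul_mem hs (hv 0))
  · exact (PI I).mul_mem (zF_mem_PI _ _ _) ((PI I).sub_mem ((PI I).add_mem (hv 2)
      ((PI I).mul_mem hs (hv 1))) ((PI I).mul_mem (half_mem _ ((PI I).pow_mem hs 2)) (hv 0)))

/-- a vector is recovered from its invariant components -/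
lemma mem_of_inv3 (k : K6) (v : Fin 3 → F) (A : Subalgebra ℂ F) (hx : zF 0 k ∈ A)
    (hx' : (zF 0 k)⁻¹ ∈ A) (hs : sl k ∈ A) (h : ∀ α, inv3 k v α ∈ A) (α : Fin 3) : v α ∈ A := by
  have hx0 := zF_ne_zero 0 k
  have h0 : v 0 ∈ A := by
    have : v 0 = zF 0 k * inv3 k v 0 := by rw [inv3_0]; field_simp
    rw [this]; exact A.mul_mem hx (h 0)
  have h1 : v 1 ∈ A := by
    have : v 1 = inv3 k v 1 + sl k * v 0 := by rw [inv3_1]; ring
    rw [this]; exact A.add_mem (h 1) (A.mul_mem hs h0)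
  have h2 : v 2 ∈ A := by
    have : v 2 = (zF 0 k)⁻¹ * inv3 k v 2 - sl k * v 1 + sl k ^ 2 / 2 * v 0 := by
      rw [inv3_2, ← mul_assoc, inv_mul_cancel₀ hx0]; ring
    rw [this]
    exact A.add_mem (A.sub_mem (A.mul_mem hx' (h 2)) (A.mul_mem hs h1))
      (A.mul_mem (half_mem _ (A.pow_mem hs 2)) h0)
  fin_cases α
  exacts [h0, h1, h2]

lemma dot_inv3 (k : K6) (v w : Fin 3 → F) : dot (inv3 k v) (inv3 k w) = dot v w := by
  have hx0 := zF_ne_zero 0 k
  have h2' := two_ne_zero_F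
  simp only [dot, inv3_0, inv3_1, inv3_2]
  field_simp
  ring

/-- invariant components of the variables -/
noncomputable def zt (k : K6) (s : S18) : F := inv3 k (fun α => zF α s.2) s.1

lemma zt_0 (k l : K6) : zt k (0, l) = zF 0 l / zF 0 k := rfl
lemma zt_1 (k l : K6) : zt k (1, l) = zF 1 l - sl k * zF 0 l := rfl
lemma zt_2 (k l : K6) :
    zt k (2, l) = zF 0 k * (zF 2 l + sl k * zF 1 l - sl k ^ 2 / 2 * zF 0 l) := rfl

lemma zt_mem {I : Finset K6} {k : K6} (hk : k ∈ I) (s : S18) : zt k s ∈ PIb I :=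
  ⟨inv3_mem_PI hk (fun α => zF_mem_PI I α s.2) s.1, (isVec_z s.2).inv3_mem_Inv k s.1⟩

lemma zt_0_self (k : K6) : zt k (0, k) = 1 := div_self (zF_ne_zero 0 k)

lemma zt_1_self (k : K6) : zt k (1, k) = 0 := by
  rw [zt_1, sl, div_mul_cancel₀ _ (zF_ne_zero 0 k), sub_self]

/-- the invariant version of the raising Hamiltonian -/
noncomputable def Ek (k : K6) : F := He / zF 0 k

/-- the invariant version of the weight Hamiltonian -/
noncomputable def Hk (k : K6) : F := Hh + sl k * He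

/-- the moment map as a vector -/
noncomputable def Hv : Fin 3 → F := ![He, -Hh, Hf]

lemma isVec_Hv : IsVec Hv := by
  refine ⟨De_He, ?_, ?_, Dh_He, ?_, Dh_Hf⟩
  · change De (-Hh) = He
    rw [map_neg, De_Hh, neg_neg]
  · change De Hf = - -Hh
    rw [De_Hf, neg_neg]
  · change Dh (-Hh) = 0
    rw [map_neg, Dh_Hh, neg_zero]

lemma Hv_mem (I : Finset K6) (α : Fin 3) : Hv α ∈ PI I := by
  fin_cases α
  · exact iF_mem_PI I HeP
  · exact (PI I).neg_mem (iF_mem_PI I HhP)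
  · exact iF_mem_PI I HfP

lemma Ek_mem {I : Finset K6} {k : K6} (hk : k ∈ I) : Ek k ∈ PIb I :=
  ⟨inv3_mem_PI hk (Hv_mem I) 0, isVec_Hv.inv3_mem_Inv k 0⟩

lemma Hk_mem {I : Finset K6} {k : K6} (hk : k ∈ I) : Hk k ∈ PIb I := by
  have h : inv3 k Hv 1 ∈ PIb I := ⟨inv3_mem_PI hk (Hv_mem I) 1, isVec_Hv.inv3_mem_Inv k 1⟩
  have e : Hk k = -inv3 k Hv 1 := by
    change Hh + sl k * He = -(-Hh - sl k * He)
    ring
  rw [e]
  exact (PIb I).neg_mem h

lemma Ek_mem_JeF (k : K6) : Ek k ∈ JeF :=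
  ⟨(zF 0 k)⁻¹, inv_mem_PI (Finset.mem_univ k), by rw [Ek, div_eq_inv_mul]⟩

lemma Hk_sub_mem_JeF (k : K6) : Hk k - Hh ∈ JeF :=
  ⟨sl k, sl_mem (Finset.mem_univ k), by rw [Hk]; ring⟩

lemma Hk_mem_JF (k : K6) : Hk k ∈ JF := by
  have := JF.add_mem (JeF_le (Hk_sub_mem_JeF k)) Hh_mem_JF
  rwa [sub_add_cancel] at this

lemma om_ab (k : K6) : om (fun l => zt k (0, l)) (fun l => zt k (1, l)) = Ek k := by
  have e1 : (fun l => zt k (0, l)) = fun l => (zF 0 k)⁻¹ * zF 0 l :=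
    funext fun l => by rw [zt_0, div_eq_inv_mul]
  have e2 : (fun l => zt k (1, l)) = fun l => zF 1 l + (-sl k) * zF 0 l :=
    funext fun l => by rw [zt_1]; ring
  rw [e1, e2, om_mul_left, om_add_right, om_mul_right, om_self, ← He_eq, Ek, div_eq_inv_mul]
  ring

lemma om_ac (k : K6) : om (fun l => zt k (0, l)) (fun l => zt k (2, l)) = Hk k := by
  have e1 : (fun l => zt k (0, l)) = fun l => (zF 0 k)⁻¹ * zF 0 l :=
    funext fun l => by rw [zt_0, div_eq_inv_mul]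
  have e2 : (fun l => zt k (2, l)) =
      fun l => zF 0 k * (zF 2 l + (sl k * zF 1 l + (-(sl k ^ 2 / 2)) * zF 0 l)) :=
    funext fun l => by rw [zt_2]; ring
  rw [e1, e2, om_mul_left, om_mul_right, om_add_right, om_add_right, om_mul_right, om_mul_right,
    om_self, ← He_eq, ← Hh_eq, Hk, ← mul_assoc, inv_mul_cancel₀ (zF_ne_zero 0 k)]
  ring

/-- the indices of the Darboux coordinates of the chart `k` -/
def Sk (k : K6) : Type :=
  {s : S18 // s ≠ (0, k) ∧ s ≠ (1, k) ∧ s ≠ (1, k.dual) ∧ s ≠ (2, k.dual)}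

instance (k : K6) : DecidableEq (Sk k) := inferInstanceAs (DecidableEq (Subtype _))

instance (k : K6) : Fintype (Sk k) := inferInstanceAs (Fintype (Subtype _))

lemma card_Sk (k : K6) : Fintype.card (Sk k) = 2 * 7 := by
  revert k
  decide

/-- dual index -/
def Sk.dual {k : K6} (s : Sk k) : Sk k :=
  ⟨s.1.dual, by
    obtain ⟨⟨α, l⟩, h1, h2, h3, h4⟩ := s
    revert k α l
    decide⟩

/-- an element determined by a pairing with the first row -/
lemma mem_of_om (k : K6) (v : K6 → F) (A : Subalgebra ℂ F)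
    (ha : ∀ l, zt k (0, l) ∈ A) (hv : ∀ l, l ≠ k.dual → v l ∈ A)
    (h : om (fun l => zt k (0, l)) v ∈ A) : v k.dual ∈ A := by
  rw [om, ← Finset.add_sum_erase _ _ (Finset.mem_univ k), zt_0_self, one_mul] at h
  have h2 : ∑ l ∈ Finset.univ.erase k, l.sgn • (zt k (0, l) * v l.dual) ∈ A :=
    A.sum_mem fun l hl => A.smul_mem (A.mul_mem (ha l)
      (hv _ fun e => (Finset.mem_erase.1 hl).1 (K6.dual_inj.1 e))) _
  have h3 := A.smul_mem (A.sub_mem h h2) k.sgn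
  rwa [add_sub_cancel_right, smul_smul, K6.sgn_sq, one_smul] at h3

lemma zt_mem_of (k : K6) (A : Subalgebra ℂ F) (h1 : ∀ s : Sk k, zt k s.1 ∈ A) (h2 : Hk k ∈ A)
    (h3 : Ek k ∈ A) (s : S18) : zt k s ∈ A := by
  have ha : ∀ l, zt k (0, l) ∈ A := fun l => by
    by_cases hl : l = k
    · rw [hl, zt_0_self]; exact A.one_mem
    · exact h1 ⟨(0, l), by simp [hl]⟩
  have hb' : ∀ l, l ≠ k.dual → zt k (1, l) ∈ A := fun l hl' => by
    by_cases hl : l = k
    · rw [hl, zt_1_self]; exact A.zero_mem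
    · exact h1 ⟨(1, l), by simp [hl, hl']⟩
  have hc : ∀ l, l ≠ k.dual → zt k (2, l) ∈ A := fun l hl' => h1 ⟨(2, l), by simp [hl']⟩
  obtain ⟨α, l⟩ := s
  fin_cases α
  · exact ha l
  · by_cases hl : l = k.dual
    · rw [hl]; exact mem_of_om k (fun l => zt k (1, l)) A ha hb' (by rw [om_ab]; exact h3)
    · exact hb' l hl
  · by_cases hl : l = k.dual
    · rw [hl]; exact mem_of_om k (fun l => zt k (2, l)) A ha hc (by rw [om_ac]; exact h2)
    · exact hc l hl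

/-- generators of the invariants on an intersection of charts -/
def gens (k : K6) (I : Finset K6) : Set F :=
  Set.range (fun s : Sk k => zt k s.1) ∪ {Hk k} ∪ {Ek k} ∪ (fun l => zt l (0, k)) '' I

lemma adjoin_gens_le {k : K6} {I : Finset K6} (hk : k ∈ I) :
    Algebra.adjoin ℂ (gens k I) ≤ PIb I := by
  refine Algebra.adjoin_le ?_
  rintro _ (((⟨s, rfl⟩ | rfl) | rfl) | ⟨l, hl, rfl⟩)
  exacts [zt_mem hk _, Hk_mem hk, Ek_mem hk, zt_mem hl _]

lemma PI_le_gens {k : K6} (I : Finset K6) :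
    PI I ≤ Algebra.adjoin ℂ ((Algebra.adjoin ℂ (gens k I) : Set F) ∪
      {zF 0 k, (zF 0 k)⁻¹} ∪ {sl k}) := by
  set A := Algebra.adjoin ℂ ((Algebra.adjoin ℂ (gens k I) : Set F) ∪
      {zF 0 k, (zF 0 k)⁻¹} ∪ {sl k}) with hA
  have hg : ∀ p ∈ gens k I, p ∈ A := fun p hp =>
    Algebra.subset_adjoin (Or.inl (Or.inl (Algebra.subset_adjoin hp)))
  have hx : zF 0 k ∈ A := Algebra.subset_adjoin (Or.inl (Or.inr (Or.inl rfl)))
  have hx' : (zF 0 k)⁻¹ ∈ A := Algebra.subset_adjoin (Or.inl (Or.inr (Or.inr rfl)))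
  have hs : sl k ∈ A := Algebra.subset_adjoin (Or.inr rfl)
  have hz := zt_mem_of k A (fun s => hg _ (Or.inl (Or.inl (Or.inl ⟨s, rfl⟩))))
    (hg _ (Or.inl (Or.inl (Or.inr rfl)))) (hg _ (Or.inl (Or.inr rfl)))
  refine PI_le_adjoin I A (fun α l => mem_of_inv3 k (fun α => zF α l) A hx hx' hs
    (fun α => hz (α, l)) α) fun l hl => ?_
  have : (zF 0 l)⁻¹ = zt l (0, k) * (zF 0 k)⁻¹ := by
    have := zF_ne_zero 0 k
    rw [zt_0]; field_simp
  rw [this]
  exact A.mul_mem (hg _ (Or.inr ⟨l, hl, rfl⟩)) hx'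

lemma exists_gens {k : K6} {I : Finset K6} (hk : k ∈ I) (J : Submodule ℂ F)
    (hJD : ∀ j ∈ J, De j ∈ J) (hJE : ∀ j ∈ J, Dh j ∈ J) (hJs : ∀ j ∈ J, sl k * j ∈ J)
    {p : F} (hp : p ∈ PI I) (hD : De p ∈ J) (hE : Dh p ∈ J) :
    ∃ z ∈ Algebra.adjoin ℂ (gens k I), p - z ∈ J :=
  slice_lemma De Dh (zF 0 k) (zF 0 k)⁻¹ (sl k) (mul_inv_cancel₀ (zF_ne_zero 0 k)) (De_z0 k)
    (Dh_z0 k) (De_sl k) _ (fun _ hz => (adjoin_gens_le hk hz).2) J hJD hJE hJs p
    (PI_le_gens I hp) hD hE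

lemma PIb_eq {k : K6} {I : Finset K6} (hk : k ∈ I) : PIb I = Algebra.adjoin ℂ (gens k I) := by
  refine le_antisymm (fun p hp => ?_) (adjoin_gens_le hk)
  obtain ⟨z, hz, h⟩ := exists_gens hk ⊥ (by simp) (by simp) (by simp) hp.1
    (by rw [hp.2.1]; rfl) (by rw [hp.2.2]; rfl)
  rw [Submodule.mem_bot, sub_eq_zero] at h
  exact h ▸ hz

theorem rowLIFT : RowLIFT := fun k p hp hD hE => by
  obtain ⟨z, hz, h⟩ := exists_gens (Finset.mem_singleton_self k) JF (fun _ => De_mem_JF)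
    (fun _ => Dh_mem_JF) (fun _ => JF_mul (sl_mem (Finset.mem_univ k))) hp hD hE
  exact ⟨z, adjoin_gens_le (Finset.mem_singleton_self k) hz, h⟩

/-! ### Commutation relations -/

lemma wF_of_ne {k l : K6} (h : l ≠ k.dual) : wF k l = 0 := if_neg h

lemma wF_of_ne' {k l : K6} (h : l ≠ k.dual) : wF l k = 0 := by
  rw [wF_anti, wF_of_ne h, neg_zero]

lemma wF_self (k : K6) : wF k k = 0 := wF_of_ne k.dual_ne.symm

lemma der_zt0 (D : Derivation ℂ F F) (k l : K6) :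
    D (zt k (0, l)) = (zF 0 k)⁻¹ * (D (zF 0 l) - zt k (0, l) * D (zF 0 k)) := by
  have := zF_ne_zero 0 k
  rw [zt_0, Derivation.leibniz_div]
  simp only [smul_eq_mul]
  field_simp

lemma der_sl (D : Derivation ℂ F F) (k : K6) :
    D (sl k) = (zF 0 k)⁻¹ * (D (zF 1 k) - sl k * D (zF 0 k)) := by
  have := zF_ne_zero 0 k
  rw [sl, Derivation.leibniz_div]
  simp only [smul_eq_mul]
  field_simp

lemma der_zt1 (D : Derivation ℂ F F) (k l : K6) :
    D (zt k (1, l)) = D (zF 1 l) - sl k * D (zF 0 l) - zF 0 l * D (sl k) := by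
  rw [zt_1, map_sub, Derivation.leibniz]
  simp only [smul_eq_mul]
  ring

lemma der_zt2 (D : Derivation ℂ F F) (k l : K6) :
    D (zt k (2, l)) = D (zF 0 k) * (zF 2 l + sl k * zF 1 l - sl k ^ 2 / 2 * zF 0 l) +
      zF 0 k * (D (zF 2 l) + sl k * D (zF 1 l) + zF 1 l * D (sl k) -
        sl k * zF 0 l * D (sl k) - sl k ^ 2 / 2 * D (zF 0 l)) := by
  have h2' := two_ne_zero_F
  rw [zt_2]
  simp only [map_sub, map_add, Derivation.leibniz, Derivation.leibniz_div, der_two,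
    Derivation.leibniz_pow, smul_eq_mul, nsmul_eq_mul]
  field_simp
  push_cast
  ring

lemma ad00 (k l : K6) : adF (zF 0 k) (zF 0 l) = 0 := by rw [adF_z]; rfl
lemma ad01 (k l : K6) : adF (zF 0 k) (zF 1 l) = 0 := by rw [adF_z]; rfl
lemma ad02 (k l : K6) : adF (zF 0 k) (zF 2 l) = wF k l := by rw [adF_z]; rfl
lemma ad10 (k l : K6) : adF (zF 1 k) (zF 0 l) = 0 := by rw [adF_z]; rfl
lemma ad11 (k l : K6) : adF (zF 1 k) (zF 1 l) = wF k l := by rw [adF_z]; rfl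
lemma ad12 (k l : K6) : adF (zF 1 k) (zF 2 l) = 0 := by rw [adF_z]; rfl
lemma ad20 (k l : K6) : adF (zF 2 k) (zF 0 l) = wF k l := by rw [adF_z]; rfl
lemma ad21 (k l : K6) : adF (zF 2 k) (zF 1 l) = 0 := by rw [adF_z]; rfl
lemma ad22 (k l : K6) : adF (zF 2 k) (zF 2 l) = 0 := by rw [adF_z]; rfl

lemma adF_zt_z (k : K6) (s : S18) (α : Fin 3) (m : K6) :
    adF (zt k s) (zF α m) = -adF (zF α m) (zt k s) := adF_anti _ _

lemma adF_zt (k : K6) (s t : Sk k) :
    adF (zt k s.1) (zt k t.1) = if t.1.1 = s.1.1.rev then wF s.1.2 t.1.2 else 0 := by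
  obtain ⟨⟨α, l⟩, hs⟩ := s
  obtain ⟨⟨β, m⟩, ht⟩ := t
  have hx := zF_ne_zero 0 k
  have h2' := two_ne_zero_F
  have hkk := wF_self k
  have hlm := wF_anti m l
  have hl : α ≠ 0 → wF k l = 0 ∧ wF l k = 0 := fun h => by
    have : l ≠ k.dual := by
      rintro rfl
      fin_cases α <;> simp_all
    exact ⟨wF_of_ne this, wF_of_ne' this⟩
  have hm : β ≠ 0 → wF k m = 0 ∧ wF m k = 0 := fun h => by
    have : m ≠ k.dual := by
      rintro rfl
      fin_cases β <;> simp_all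
    exact ⟨wF_of_ne this, wF_of_ne' this⟩
  change adF (zt k (α, l)) (zt k (β, m)) = if β = α.rev then wF l m else 0
  clear hs ht
  have e : ∀ α : Fin 3, α = 0 ∨ α = 1 ∨ α = 2 := by decide
  rcases e α with rfl | rfl | rfl <;> rcases e β with rfl | rfl | rfl
  all_goals
    simp only [der_zt0, der_zt1, der_zt2, der_sl, adF_zt_z, ad00, ad01, ad02, ad10, ad11, ad12,
      ad20, ad21, ad22, hkk, hlm]
    try simp only [(hl (by decide)).1, (hl (by decide)).2]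
    try simp only [(hm (by decide)).1, (hm (by decide)).2]
    first
      | (rw [if_pos (by decide)]; field_simp; ring)
      | (rw [if_neg (by decide)]; field_simp; ring)
      | (rw [if_pos (by decide)]; field_simp)
      | (rw [if_neg (by decide)]; simp)

lemma adF_x_zt (k : K6) (s : Sk k) : adF (zF 0 k) (zt k s.1) = 0 := by
  obtain ⟨⟨α, l⟩, hs⟩ := s
  have e : ∀ α : Fin 3, α = 0 ∨ α = 1 ∨ α = 2 := by decide
  rcases e α with rfl | rfl | rfl
  · simp [der_zt0, ad00]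
  · simp [der_zt1, der_sl, ad00, ad01]
  · have : l ≠ k.dual := by rintro rfl; simp at hs
    simp [der_zt2, der_sl, ad00, ad01, ad02, wF_of_ne this]

end Pool.Agent.MP_86c931_ag.H56
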