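import Pool.Agent.MP_86c931_ag.H56.RowsA

/-! The polynomial ring of `ℂ^6 ⊗ ℂ^3` and the statements about it. -/

namespace Pool.Agent.MP_86c931_ag.H56

open MvPolynomial

/-- eighteen variables -/
abbrev S18 : Type := Fin 3 × K6

/-- dual variable -/
def S18.dual (s : S18) : S18 := (s.1.rev, s.2.dual)

/-- sign of a variable -/
def S18.sgn (s : S18) : ℂ := s.2.sgn

/-- the polynomial ring -/
abbrev P : Type := MvPolynomial S18 ℂ

section vec

variable {T : Type} [CommRing T] [Algebra ℂ T]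

/-- the symplectic pairing of two vectors of `T^6` -/
noncomputable def om (u v : K6 → T) : T := ∑ k, k.sgn • (u k * v k.dual)

/-- the symmetric pairing of two vectors of `T^3` -/
def dot (v w : Fin 3 → T) : T := v 0 * w 2 + v 1 * w 1 + v 2 * w 0

/-- the cross product of two vectors of `T^3` -/
def cross (v w : Fin 3 → T) : Fin 3 → T :=
  ![v 0 * w 1 - v 1 * w 0, v 2 * w 0 - v 0 * w 2, v 1 * w 2 - v 2 * w 1]

/-- common kernel of two derivations -/
def ker2 (D E : Derivation ℂ T T) : Subalgebra ℂ T where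
  carrier := {p | D p = 0 ∧ E p = 0}
  mul_mem' := by
    rintro a b ⟨h1, h2⟩ ⟨h3, h4⟩
    constructor <;> simp [Derivation.leibniz, *]
  add_mem' := by
    rintro a b ⟨h1, h2⟩ ⟨h3, h4⟩
    constructor <;> simp [*]
  algebraMap_mem' c := ⟨Derivation.map_algebraMap D c, Derivation.map_algebraMap E c⟩

lemma mem_ker2 {D E : Derivation ℂ T T} {p : T} : p ∈ ker2 D E ↔ D p = 0 ∧ E p = 0 := Iff.rfl

end vec

/-- the variables of weight `1 - α` -/
noncomputable def zP (α : Fin 3) (k : K6) : P := X (α, k)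

/-- raising Hamiltonian -/
noncomputable def HeP : P := om (zP 0) (zP 1)

/-- weight Hamiltonian -/
noncomputable def HhP : P := om (zP 0) (zP 2)

/-- lowering Hamiltonian -/
noncomputable def HfP : P := om (zP 1) (zP 2)

/-- raising operator -/
noncomputable def DeP : Derivation ℂ P P :=
  mkDerivation ℂ fun s : S18 => (![0, X (0, s.2), -X (1, s.2)] : Fin 3 → P) s.1

/-- weight operator -/
noncomputable def DhP : Derivation ℂ P P :=
  mkDerivation ℂ fun s : S18 => (![X (0, s.2), 0, -X (2, s.2)] : Fin 3 → P) s.1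

/-- the Poisson bracket of polynomials -/
noncomputable def brP (f g : P) : P := brk (fun s => pderiv s) S18.dual S18.sgn f g

/-- the quadratic invariants -/
noncomputable def AP (k l : K6) : P := dot (fun α => zP α k) (fun α => zP α l)

/-- the ideal of the two moment map equations -/
noncomputable def JP : Ideal P := Ideal.span {HeP, HhP}

/-- invariant polynomials -/
noncomputable def Pb : Subalgebra ℂ P := ker2 DeP DhP

/-- regular sequences and Koszul cohomology -/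
def RowREG : Prop :=
  (∀ (k : K6) (p : P), HeP ∣ zP 0 k * p → HeP ∣ p) ∧
  (∀ (k : K6) (p : P), zP 0 k * p ∈ JP → p ∈ JP) ∧
  (∀ a b : P, a * HeP + b * HhP = 0 → ∃ g, a = g * HhP ∧ b = -(g * HeP)) ∧
  (∀ (m : ℕ) (n : K6 → P), (∀ k l, zP 0 l ^ m * n k - zP 0 k ^ m * n l ∈ JP) →
    ∃ p, ∀ k, n k - zP 0 k ^ m * p ∈ JP) ∧
  (∀ (m : ℕ) (n : K6 → K6 → P),
    (∀ k l j, zP 0 j ^ m * n k l - zP 0 l ^ m * n k j + zP 0 k ^ m * n l j ∈ JP) →
    ∃ g : K6 → P, ∀ k l, n k l - (zP 0 l ^ m * g k - zP 0 k ^ m * g l) ∈ JP)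

/-- representation theory of the two commuting Lie algebras on polynomials -/
def RowFIS : Prop :=
  (∀ p : P, DhP p = p → ∃ g, DhP g = 0 ∧ DeP g = p) ∧
  (∀ p : P, DhP p = 0 → ∃ i u, i ∈ Pb ∧ DhP u = -u ∧ p = i + DeP u) ∧
  (∀ u : P, DhP u = -u → DeP (DeP u) = 0 → DeP u = 0) ∧
  (∀ K : Submodule ℂ P,
    (∀ v ∈ Pb, (∀ k l, brP (AP k l) v = 0) → v - C (constantCoeff v) ∈ K) →
    ∀ p ∈ Pb, ∃ g : K6 → K6 → P, (∀ k l, g k l ∈ Pb) ∧
      p - C (constantCoeff p) - ∑ k, ∑ l, brP (AP k l) (g k l) ∈ K)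

/-- weight components, and finite generation of the invariants -/
def RowINV : Prop :=
  (∃ pr : ℤ → P →ₗ[ℂ] P, (∀ w p, DhP (pr w p) = (w : ℂ) • pr w p) ∧
    (∀ (w : ℤ) (p : P), DhP p = (w : ℂ) • p → pr w p = p) ∧
    (∀ (w w' : ℤ) (u p : P), DhP u = (w' : ℂ) • u → pr (w + w') (u * p) = u * pr w p)) ∧
  ((∀ p : P, DhP p = 0 → ∃ i u, i ∈ Pb ∧ DhP u = -u ∧ p = i + DeP u) →
    (∀ u : P, DhP u = -u → DeP (DeP u) = 0 → DeP u = 0) → Pb.FG) ∧
  (∀ p ∈ Pb, ∀ s, constantCoeff (pderiv s p) = 0)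

end Pool.Agent.MP_86c931_ag.H56
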