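import Pool.Agent.MP_86c931_ag.H56.Pois
import Pool.Agent.MP_86c931_ag.H56.RowsB

/-! The classical reduction, inside the field of rational functions. -/

namespace Pool.Agent.MP_86c931_ag.H56

open MvPolynomial

lemma K6.dual_dual (k : K6) : k.dual.dual = k := by simp [K6.dual]

lemma K6.sgn_dual (k : K6) : k.dual.sgn = -k.sgn := by
  obtain ⟨i, b⟩ := k
  cases b <;> simp [K6.dual, K6.sgn]

lemma K6.sgn_sq (k : K6) : k.sgn * k.sgn = 1 := by
  obtain ⟨i, b⟩ := k
  cases b <;> simp [K6.sgn]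

lemma K6.dual_ne (k : K6) : k.dual ≠ k := by
  obtain ⟨i, b⟩ := k
  cases b <;> simp [K6.dual]

lemma K6.dual_inj {k l : K6} : k.dual = l.dual ↔ k = l :=
  ⟨fun h => by rw [← k.dual_dual, h, l.dual_dual], fun h => by rw [h]⟩

lemma K6.eq_dual_comm {k l : K6} : k = l.dual ↔ l = k.dual :=
  ⟨fun h => by rw [h, l.dual_dual], fun h => by rw [h, k.dual_dual]⟩

lemma S18.dual_dual (s : S18) : s.dual.dual = s := by simp [S18.dual, K6.dual_dual]

lemma S18.sgn_dual (s : S18) : s.dual.sgn = -s.sgn := K6.sgn_dual _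

/-- rational functions -/
abbrev F : Type := FractionRing P

/-- polynomials as rational functions -/
noncomputable def iF : P →ₐ[ℂ] F := IsScalarTower.toAlgHom ℂ P F

lemma iF_eq (p : P) : iF p = algebraMap P F p := rfl

lemma iF_inj : Function.Injective iF := IsFractionRing.injective P F

/-- extension of a derivation -/
noncomputable def extF (d : Derivation ℂ P P) : Derivation ℂ F F :=
  (exists_der_frac (L := F) d).choose

lemma extF_iF (d : Derivation ℂ P P) (p : P) : extF d (iF p) = iF (d p) :=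
  (exists_der_frac (L := F) d).choose_spec p

lemma derF_ext {D E : Derivation ℂ F F} (h : ∀ s, D (iF (X s)) = E (iF (X s))) : D = E := by
  refine der_frac_ext (A := P) fun p => ?_
  induction p using MvPolynomial.induction_on with
  | C c =>
    have : algebraMap P F (C c) = algebraMap ℂ F c := (IsScalarTower.algebraMap_apply ℂ P F c).symm
    rw [this, D.map_algebraMap, E.map_algebraMap]
  | add p q hp hq => simp only [map_add, hp, hq]
  | mul_X p s hp =>
    rw [map_mul, D.leibniz, E.leibniz, hp]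
    exact congrArg (fun u => algebraMap P F p • u + _) (h s)

/-- partial derivatives -/
noncomputable def dF (s : S18) : Derivation ℂ F F := extF (pderiv s)

lemma dF_iF (s : S18) (p : P) : dF s (iF p) = iF (pderiv s p) := extF_iF _ _

lemma dF_X (s t : S18) : dF s (iF (X t)) = if s = t then 1 else 0 := by
  rw [dF_iF, pderiv_X, Pi.single_apply]
  by_cases h : s = t
  · simp [h]
  · simp [h, Ne.symm h]

lemma dF_comm (s t : S18) (f : F) : dF s (dF t f) = dF t (dF s f) := by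
  have : ⁅dF s, dF t⁆ = 0 := derF_ext fun u => by
    rw [Derivation.commutator_apply, dF_X, dF_X]
    split_ifs <;> simp
  have := DFunLike.congr_fun this f
  rwa [Derivation.commutator_apply, Derivation.zero_apply, sub_eq_zero] at this

/-- the Poisson bracket of rational functions -/
noncomputable def brF (f g : F) : F := brk dF S18.dual S18.sgn f g

lemma brF_poisson : IsPoisson brF := brk_isPoisson dF dF_comm S18.dual_dual S18.sgn_dual

lemma brF_iF (f g : P) : brF (iF f) (iF g) = iF (brP f g) := by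
  simp only [brF, brP, brk, dF_iF, map_sum, map_smul, map_mul]

/-- Hamiltonian derivations -/
noncomputable def adF (f : F) : Derivation ℂ F F := brF_poisson.ad f

lemma adF_apply (f g : F) : adF f g = brF f g := brF_poisson.ad_apply f g

lemma adF_anti (f g : F) : adF f g = -adF g f := by
  rw [adF_apply, adF_apply, brF_poisson.anti]

/-- the variables -/
noncomputable def zF (α : Fin 3) (k : K6) : F := iF (zP α k)

/-- the symplectic form on indices -/
noncomputable def wF (k l : K6) : F := if l = k.dual then algebraMap ℂ F k.sgn else 0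

lemma wF_anti (k l : K6) : wF k l = -wF l k := by
  unfold wF
  by_cases h : l = k.dual
  · rw [if_pos h, if_pos (K6.eq_dual_comm.1 h), h, K6.sgn_dual, map_neg, neg_neg]
  · rw [if_neg h, if_neg (fun h' => h (K6.eq_dual_comm.1 h')), neg_zero]

lemma adF_X (s : S18) (g : F) : adF (iF (X s)) g = s.sgn • dF s.dual g := by
  rw [adF_apply, brF, brk, Finset.sum_eq_single s]
  · rw [dF_X, if_pos rfl, one_mul]
  · intro t _ ht
    rw [dF_X, if_neg ht, zero_mul, smul_zero]
  · simp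

lemma adF_z (α β : Fin 3) (k l : K6) :
    adF (zF α k) (zF β l) = if β = α.rev then wF k l else 0 := by
  rw [zF, zF, zP, zP, adF_X, dF_X, wF]
  simp only [S18.dual, S18.sgn, Prod.mk.injEq]
  by_cases h1 : β = α.rev <;> by_cases h2 : l = k.dual <;>
    simp [h1, h2, Algebra.algebraMap_eq_smul_one, Ne.symm]

lemma zF_ne_zero (α : Fin 3) (k : K6) : zF α k ≠ 0 := fun h =>
  X_ne_zero (R := ℂ) (α, k) (iF_inj (h.trans (map_zero _).symm))

section om

variable {T : Type} [CommRing T] [Algebra ℂ T]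

lemma om_anti (u v : K6 → T) : om u v = -om v u := by
  rw [om, om, sum_dual (dual := K6.dual) K6.dual_dual, ← Finset.sum_neg_distrib]
  refine Finset.sum_congr rfl fun k _ => ?_
  rw [K6.dual_dual, K6.sgn_dual, neg_smul, mul_comm]

lemma om_self (u : K6 → T) : om u u = 0 := by
  have h := om_anti u u
  have h2 : (2 : ℂ) • om u u = 0 := by rw [two_smul]; linear_combination h
  have := congrArg (fun z => (2 : ℂ)⁻¹ • z) h2
  simpa [smul_smul] using this

lemma map_om {T' : Type} [CommRing T'] [Algebra ℂ T'] (φ : T →ₐ[ℂ] T') (u v : K6 → T) :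
    φ (om u v) = om (fun k => φ (u k)) (fun k => φ (v k)) := by
  simp only [om, map_sum, map_smul, map_mul]

lemma der_om (D : Derivation ℂ T T) (u v : K6 → T) :
    D (om u v) = om (fun k => D (u k)) v + om u (fun k => D (v k)) := by
  simp only [om, map_sum, Derivation.map_smul, Derivation.leibniz, smul_eq_mul,
    ← Finset.sum_add_distrib, ← smul_add]
  exact Finset.sum_congr rfl fun k _ => by congr 1; ring

lemma om_add_right (u v w : K6 → T) : om u (fun k => v k + w k) = om u v + om u w := by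
  simp only [om, mul_add, smul_add, Finset.sum_add_distrib]

lemma om_add_left (u v w : K6 → T) : om (fun k => u k + v k) w = om u w + om v w := by
  simp only [om, add_mul, smul_add, Finset.sum_add_distrib]

lemma om_mul_right (c : T) (u v : K6 → T) : om u (fun k => c * v k) = c * om u v := by
  simp only [om, Finset.mul_sum, mul_smul_comm, mul_left_comm]

lemma om_mul_left (c : T) (u v : K6 → T) : om (fun k => c * u k) v = c * om u v := by
  simp only [om, Finset.mul_sum, mul_smul_comm, mul_assoc]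

lemma om_zero_left (v : K6 → T) : om (fun _ => 0) v = 0 := by simp [om]

lemma om_zero_right (u : K6 → T) : om u (fun _ => 0) = 0 := by simp [om]

lemma om_neg_left (u v : K6 → T) : om (fun k => -u k) v = -om u v := by simp [om]

lemma om_neg_right (u v : K6 → T) : om u (fun k => -v k) = -om u v := by simp [om]

end om

lemma om_wF_left (l : K6) (v : K6 → F) : om (fun k => wF l k) v = -v l := by
  rw [om, Finset.sum_eq_single l.dual]
  · rw [wF, if_pos rfl, K6.dual_dual, K6.sgn_dual, Algebra.smul_def, ← mul_assoc, ← map_mul,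
      neg_mul, K6.sgn_sq]
    simp
  · intro k _ hk
    rw [wF, if_neg hk, zero_mul, smul_zero]
  · simp

lemma om_wF_right (l : K6) (u : K6 → F) : om u (fun k => wF l k) = u l := by
  rw [om_anti, om_wF_left, neg_neg]

/-- raising Hamiltonian -/
noncomputable def He : F := iF HeP

/-- weight Hamiltonian -/
noncomputable def Hh : F := iF HhP

/-- lowering Hamiltonian -/
noncomputable def Hf : F := iF HfP

lemma He_eq : He = om (zF 0) (zF 1) := map_om iF _ _
lemma Hh_eq : Hh = om (zF 0) (zF 2) := map_om iF _ _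
lemma Hf_eq : Hf = om (zF 1) (zF 2) := map_om iF _ _

/-- raising operator -/
noncomputable def De : Derivation ℂ F F := extF DeP

/-- weight operator -/
noncomputable def Dh : Derivation ℂ F F := extF DhP

lemma De_iF (p : P) : De (iF p) = iF (DeP p) := extF_iF _ _
lemma Dh_iF (p : P) : Dh (iF p) = iF (DhP p) := extF_iF _ _

lemma De_z0 (k : K6) : De (zF 0 k) = 0 := by
  rw [zF, De_iF, zP, DeP, mkDerivation_X]; simp
lemma De_z1 (k : K6) : De (zF 1 k) = zF 0 k := by
  rw [zF, De_iF, zP, DeP, mkDerivation_X]; simp [zF, zP]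
lemma De_z2 (k : K6) : De (zF 2 k) = -zF 1 k := by
  rw [zF, De_iF, zP, DeP, mkDerivation_X]; simp [zF, zP]
lemma Dh_z0 (k : K6) : Dh (zF 0 k) = zF 0 k := by
  rw [zF, Dh_iF, zP, DhP, mkDerivation_X]; simp
lemma Dh_z1 (k : K6) : Dh (zF 1 k) = 0 := by
  rw [zF, Dh_iF, zP, DhP, mkDerivation_X]; simp
lemma Dh_z2 (k : K6) : Dh (zF 2 k) = -zF 2 k := by
  rw [zF, Dh_iF, zP, DhP, mkDerivation_X]; simp

lemma adF_He_eq : -adF He = De := derF_ext fun ⟨α, k⟩ => by
  change -adF He (zF α k) = De (zF α k)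
  rw [← adF_anti, He_eq, der_om]
  fin_cases α
  · simp [adF_z, om_zero_left, om_zero_right, De_z0]
  · simp [adF_z, om_zero_left, om_wF_right, De_z1]
  · simp [adF_z, om_zero_right, om_wF_left, De_z2]

lemma adF_Hh_eq : -adF Hh = Dh := derF_ext fun ⟨α, k⟩ => by
  change -adF Hh (zF α k) = Dh (zF α k)
  rw [← adF_anti, Hh_eq, der_om]
  fin_cases α
  · simp [adF_z, om_zero_left, om_wF_right, Dh_z0]
  · simp [adF_z, om_zero_left, om_zero_right, Dh_z1]
  · simp [adF_z, om_zero_right, om_wF_left, Dh_z2]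

lemma adF_He (f : F) : adF f He = De f := by rw [adF_anti, ← adF_He_eq]; rfl

lemma adF_Hh (f : F) : adF f Hh = Dh f := by rw [adF_anti, ← adF_Hh_eq]; rfl

lemma De_brF (f g : F) : De (brF f g) = brF (De f) g + brF f (De g) := by
  have h := brF_poisson.leib He f g
  simp only [← adF_He_eq, Derivation.neg_apply, adF_apply]
  rw [h, brF_poisson.anti (-brF He f) g, ← adF_apply g, ← adF_apply f (-_), map_neg, map_neg,
    adF_apply, adF_apply, brF_poisson.anti g]
  ring

lemma Dh_brF (f g : F) : Dh (brF f g) = brF (Dh f) g + brF f (Dh g) := by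
  have h := brF_poisson.leib Hh f g
  simp only [← adF_Hh_eq, Derivation.neg_apply, adF_apply]
  rw [h, brF_poisson.anti (-brF Hh f) g, ← adF_apply g, ← adF_apply f (-_), map_neg, map_neg,
    adF_apply, adF_apply, brF_poisson.anti g]
  ring

lemma brF_zero_left (g : F) : brF 0 g = 0 := by
  rw [brF_poisson.anti, ← adF_apply, map_zero, neg_zero]

lemma brF_zero_right (g : F) : brF g 0 = 0 := by rw [← adF_apply, map_zero]

lemma De_He : De He = 0 := by
  rw [He_eq, der_om]; simp [De_z0, De_z1, om_zero_left, om_self]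
lemma De_Hh : De Hh = -He := by
  rw [Hh_eq, der_om, He_eq]; simp [De_z0, De_z2, om_zero_left, om_neg_right]
lemma De_Hf : De Hf = Hh := by
  rw [Hf_eq, der_om, Hh_eq]; simp [De_z1, De_z2, om_neg_right, om_self]
lemma Dh_He : Dh He = He := by
  conv_lhs => rw [He_eq, der_om]
  simp [Dh_z0, Dh_z1, om_zero_right, He_eq]
lemma Dh_Hh : Dh Hh = 0 := by
  rw [Hh_eq, der_om]; simp [Dh_z0, Dh_z2, om_neg_right]
lemma Dh_Hf : Dh Hf = -Hf := by
  conv_lhs => rw [Hf_eq, der_om]
  simp [Dh_z1, Dh_z2, om_zero_left, om_neg_right, Hf_eq]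

/-- the product of the inverted variables -/
noncomputable def xI (I : Finset K6) : F := ∏ k ∈ I, zF 0 k

lemma xI_ne_zero (I : Finset K6) : xI I ≠ 0 := Finset.prod_ne_zero_iff.2 fun k _ => zF_ne_zero 0 k

lemma xI_eq (I : Finset K6) : xI I = iF (∏ k ∈ I, zP 0 k) := by rw [map_prod]; rfl

/-- polynomials with some of the weight one variables inverted -/
noncomputable def PI (I : Finset K6) : Subalgebra ℂ F where
  carrier := {p | ∃ (m : ℕ) (n : P), p * xI I ^ m = iF n}
  mul_mem' := by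
    rintro a b ⟨m, n, h⟩ ⟨m', n', h'⟩
    exact ⟨m + m', n * n', by rw [map_mul, ← h, ← h']; ring⟩
  add_mem' := by
    rintro a b ⟨m, n, h⟩ ⟨m', n', h'⟩
    refine ⟨m + m', n * (∏ k ∈ I, zP 0 k) ^ m' + n' * (∏ k ∈ I, zP 0 k) ^ m, ?_⟩
    rw [map_add, map_mul, map_mul, map_pow, map_pow, ← xI_eq, ← h, ← h']
    ring
  algebraMap_mem' c := ⟨0, C c, by rw [pow_zero, mul_one]; exact (iF.commutes c).symm⟩

lemma mem_PI {I : Finset K6} {p : F} : p ∈ PI I ↔ ∃ (m : ℕ) (n : P), p * xI I ^ m = iF n :=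
  Iff.rfl

lemma iF_mem_PI (I : Finset K6) (p : P) : iF p ∈ PI I := ⟨0, p, by simp⟩

lemma zF_mem_PI (I : Finset K6) (α : Fin 3) (k : K6) : zF α k ∈ PI I := iF_mem_PI _ _

lemma inv_mem_PI {I : Finset K6} {k : K6} (hk : k ∈ I) : (zF 0 k)⁻¹ ∈ PI I := by
  refine ⟨1, ∏ l ∈ I.erase k, zP 0 l, ?_⟩
  rw [pow_one, xI, ← Finset.mul_prod_erase I _ hk, ← mul_assoc,
    inv_mul_cancel₀ (zF_ne_zero 0 k), one_mul, map_prod]
  rfl

lemma PI_le_adjoin (I : Finset K6) (A : Subalgebra ℂ F) (h1 : ∀ α k, zF α k ∈ A)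
    (h2 : ∀ k ∈ I, (zF 0 k)⁻¹ ∈ A) : PI I ≤ A := by
  rintro p ⟨m, n, h⟩
  have hn : ∀ n : P, iF n ∈ A := fun n => by
    induction n using MvPolynomial.induction_on with
    | C c => exact iF.commutes c ▸ A.algebraMap_mem c
    | add p q hp hq => rw [map_add]; exact A.add_mem hp hq
    | mul_X p s hp => rw [map_mul]; exact A.mul_mem hp (h1 s.1 s.2)
  have : p = iF n * (∏ k ∈ I, (zF 0 k)⁻¹) ^ m := by
    rw [Finset.prod_inv_distrib, ← h, mul_assoc, ← mul_pow, ← xI, mul_inv_cancel₀ (xI_ne_zero I),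
      one_pow, mul_one]
  rw [this]
  exact A.mul_mem (hn n) (A.pow_mem (A.prod_mem h2) m)

lemma PI_mono {I I' : Finset K6} (h : I ⊆ I') : PI I ≤ PI I' :=
  PI_le_adjoin I _ (zF_mem_PI I') fun _ hk => inv_mem_PI (h hk)

lemma mem_PI_empty {p : F} : p ∈ PI ∅ ↔ ∃ n, iF n = p :=
  ⟨fun ⟨_, n, h⟩ => ⟨n, by simpa [xI] using h.symm⟩, fun ⟨n, h⟩ => h ▸ iF_mem_PI _ n⟩

/-- a derivation preserving polynomials preserves the localizations -/
lemma der_mem_PI (D : Derivation ℂ F F) (I : Finset K6) (hD : ∀ α k, D (zF α k) ∈ PI I)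
    {p : F} (hp : p ∈ PI I) : D p ∈ PI I := by
  let A : Subalgebra ℂ F :=
    { carrier := {p | p ∈ PI I ∧ D p ∈ PI I}
      mul_mem' := fun {a b} ha hb => ⟨(PI I).mul_mem ha.1 hb.1, by
        rw [D.leibniz]
        exact (PI I).add_mem ((PI I).mul_mem ha.1 hb.2) ((PI I).mul_mem hb.1 ha.2)⟩
      add_mem' := fun {a b} ha hb => ⟨(PI I).add_mem ha.1 hb.1, by
        rw [map_add]; exact (PI I).add_mem ha.2 hb.2⟩
      algebraMap_mem' := fun c => ⟨(PI I).algebraMap_mem c, by
        rw [D.map_algebraMap]; exact (PI I).zero_mem⟩ }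
  refine (PI_le_adjoin I A (fun α k => ⟨zF_mem_PI I α k, hD α k⟩) (fun k hk =>
    ⟨inv_mem_PI hk, ?_⟩) hp).2
  rw [D.leibniz_inv]
  exact (PI I).mul_mem ((PI I).neg_mem ((PI I).pow_mem (inv_mem_PI hk) 2)) (hD 0 k)

lemma extF_mem_PI (d : Derivation ℂ P P) {I : Finset K6} {p : F} (hp : p ∈ PI I) :
    extF d p ∈ PI I :=
  der_mem_PI _ I (fun α k => by rw [zF, extF_iF]; exact iF_mem_PI _ _) hp

lemma dF_mem_PI (s : S18) {I : Finset K6} {p : F} (hp : p ∈ PI I) : dF s p ∈ PI I :=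
  extF_mem_PI _ hp

lemma De_mem_PI {I : Finset K6} {p : F} (hp : p ∈ PI I) : De p ∈ PI I := extF_mem_PI _ hp

lemma Dh_mem_PI {I : Finset K6} {p : F} (hp : p ∈ PI I) : Dh p ∈ PI I := extF_mem_PI _ hp

lemma brF_mem (A : Subalgebra ℂ F) (hA : ∀ s, ∀ p ∈ A, dF s p ∈ A) {f g : F} (hf : f ∈ A)
    (hg : g ∈ A) : brF f g ∈ A := by
  rw [brF, brk]
  exact A.sum_mem fun s _ => A.smul_mem (A.mul_mem (hA s f hf) (hA _ g hg)) _

lemma brF_mem_PI {I : Finset K6} {f g : F} (hf : f ∈ PI I) (hg : g ∈ PI I) : brF f g ∈ PI I :=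
  brF_mem _ (fun s _ hp => dF_mem_PI s hp) hf hg

/-- invariant rational functions -/
noncomputable def Inv : Subalgebra ℂ F := ker2 De Dh

lemma mem_Inv {p : F} : p ∈ Inv ↔ De p = 0 ∧ Dh p = 0 := Iff.rfl

lemma brF_mem_Inv {f g : F} (hf : f ∈ Inv) (hg : g ∈ Inv) : brF f g ∈ Inv :=
  ⟨by rw [De_brF, hf.1, hg.1, brF_zero_left, brF_zero_right, add_zero],
    by rw [Dh_brF, hf.2, hg.2, brF_zero_left, brF_zero_right, add_zero]⟩

lemma iF_mem_Inv {p : P} : iF p ∈ Inv ↔ p ∈ Pb := by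
  rw [mem_Inv, De_iF, Dh_iF, map_eq_zero_iff _ iF_inj, map_eq_zero_iff _ iF_inj]
  rfl

/-- invariants in a localization -/
noncomputable def PIb (I : Finset K6) : Subalgebra ℂ F := PI I ⊓ Inv

/-- the largest localization -/
noncomputable abbrev Pa : Subalgebra ℂ F := PI Finset.univ

/-- invariants in the largest localization -/
noncomputable abbrev Pab : Subalgebra ℂ F := PIb Finset.univ

lemma PIb_le (I : Finset K6) : PIb I ≤ Pab :=
  inf_le_inf_right _ (PI_mono (Finset.subset_univ I))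

lemma brF_mem_PIb {I : Finset K6} {f g : F} (hf : f ∈ PIb I) (hg : g ∈ PIb I) :
    brF f g ∈ PIb I := ⟨brF_mem_PI hf.1 hg.1, brF_mem_Inv hf.2 hg.2⟩

/-- multiples of the raising Hamiltonian -/
noncomputable def JeF : Submodule ℂ F where
  carrier := {p | ∃ a ∈ Pa, p = a * He}
  add_mem' := by
    rintro _ _ ⟨a, ha, rfl⟩ ⟨b, hb, rfl⟩
    exact ⟨a + b, Pa.add_mem ha hb, by ring⟩
  zero_mem' := ⟨0, Pa.zero_mem, by simp⟩
  smul_mem' := by
    rintro c _ ⟨a, ha, rfl⟩
    exact ⟨c • a, Pa.smul_mem ha c, by rw [smul_mul_assoc]⟩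

/-- combinations of the two Hamiltonians -/
noncomputable def JF : Submodule ℂ F where
  carrier := {p | ∃ a ∈ Pa, ∃ b ∈ Pa, p = a * He + b * Hh}
  add_mem' := by
    rintro _ _ ⟨a, ha, a', ha', rfl⟩ ⟨b, hb, b', hb', rfl⟩
    exact ⟨a + b, Pa.add_mem ha hb, a' + b', Pa.add_mem ha' hb', by ring⟩
  zero_mem' := ⟨0, Pa.zero_mem, 0, Pa.zero_mem, by simp⟩
  smul_mem' := by
    rintro c _ ⟨a, ha, b, hb, rfl⟩
    exact ⟨c • a, Pa.smul_mem ha c, c • b, Pa.smul_mem hb c, by
      rw [smul_mul_assoc, smul_mul_assoc, smul_add]⟩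

lemma JeF_mul {c p : F} (hc : c ∈ Pa) (hp : p ∈ JeF) : c * p ∈ JeF := by
  obtain ⟨a, ha, rfl⟩ := hp
  exact ⟨c * a, Pa.mul_mem hc ha, by ring⟩

lemma JF_mul {c p : F} (hc : c ∈ Pa) (hp : p ∈ JF) : c * p ∈ JF := by
  obtain ⟨a, ha, b, hb, rfl⟩ := hp
  exact ⟨c * a, Pa.mul_mem hc ha, c * b, Pa.mul_mem hc hb, by ring⟩

lemma JeF_le : JeF ≤ JF := by
  rintro _ ⟨a, ha, rfl⟩
  exact ⟨a, ha, 0, Pa.zero_mem, by simp⟩

lemma He_mem_JeF : He ∈ JeF := ⟨1, Pa.one_mem, by simp⟩

lemma He_mem_JF : He ∈ JF := JeF_le He_mem_JeF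

lemma Hh_mem_JF : Hh ∈ JF := ⟨0, Pa.zero_mem, 1, Pa.one_mem, by simp⟩

lemma iF_mem_JF {p : P} (hp : p ∈ JP) : iF p ∈ JF := by
  obtain ⟨a, b, rfl⟩ := Ideal.mem_span_pair.1 hp
  exact ⟨iF a, iF_mem_PI _ a, iF b, iF_mem_PI _ b, by rw [map_add, map_mul, map_mul]; rfl⟩

/-- a derivation preserving the localization and the Hamiltonians preserves the ideal -/
lemma der_mem_JF (D : Derivation ℂ F F) (hD : ∀ p ∈ Pa, D p ∈ Pa) (h1 : D He ∈ JF)
    (h2 : D Hh ∈ JF) {p : F} (hp : p ∈ JF) : D p ∈ JF := by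
  obtain ⟨a, ha, b, hb, rfl⟩ := hp
  rw [map_add, D.leibniz, D.leibniz, smul_eq_mul, smul_eq_mul, smul_eq_mul, smul_eq_mul,
    mul_comm He, mul_comm Hh]
  exact JF.add_mem (JF.add_mem (JF_mul ha h1) (JF_mul (hD a ha) He_mem_JF))
    (JF.add_mem (JF_mul hb h2) (JF_mul (hD b hb) Hh_mem_JF))

lemma der_mem_JeF (D : Derivation ℂ F F) (hD : ∀ p ∈ Pa, D p ∈ Pa) (h1 : D He ∈ JeF)
    {p : F} (hp : p ∈ JeF) : D p ∈ JeF := by
  obtain ⟨a, ha, rfl⟩ := hp
  rw [D.leibniz, smul_eq_mul, smul_eq_mul, mul_comm He]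
  exact JeF.add_mem (JeF_mul ha h1) (JeF_mul (hD a ha) He_mem_JeF)

lemma De_mem_JF {p : F} (hp : p ∈ JF) : De p ∈ JF :=
  der_mem_JF De (fun _ => De_mem_PI) (by rw [De_He]; exact JF.zero_mem)
    (by rw [De_Hh]; exact JF.neg_mem He_mem_JF) hp

lemma Dh_mem_JF {p : F} (hp : p ∈ JF) : Dh p ∈ JF :=
  der_mem_JF Dh (fun _ => Dh_mem_PI) (by rw [Dh_He]; exact He_mem_JF)
    (by rw [Dh_Hh]; exact JF.zero_mem) hp

/-- the ideal of the raising Hamiltonian in the invariants -/
noncomputable def Je : Ideal Pab where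
  carrier := {p | (p : F) ∈ JeF}
  add_mem' := fun ha hb => JeF.add_mem ha hb
  zero_mem' := JeF.zero_mem
  smul_mem' := fun c _ hp => JeF_mul c.2.1 hp

/-- the ideal of both Hamiltonians in the invariants -/
noncomputable def J2 : Ideal Pab where
  carrier := {p | (p : F) ∈ JF}
  add_mem' := fun ha hb => JF.add_mem ha hb
  zero_mem' := JF.zero_mem
  smul_mem' := fun c _ hp => JF_mul c.2.1 hp

lemma mem_Je {p : Pab} : p ∈ Je ↔ (p : F) ∈ JeF := Iff.rfl

lemma mem_J2 {p : Pab} : p ∈ J2 ↔ (p : F) ∈ JF := Iff.rfl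

lemma Je_le : Je ≤ J2 := fun _ h => JeF_le h

/-- functions on the family -/
abbrev Ot : Type := Pab ⧸ Je

/-- functions on the intersection of all charts -/
abbrev O : Type := Pab ⧸ J2

/-- class in the family -/
noncomputable def mkt : Pab →ₐ[ℂ] Ot := Ideal.Quotient.mkₐ ℂ Je

/-- class in the fibre -/
noncomputable def mkO : Pab →ₐ[ℂ] O := Ideal.Quotient.mkₐ ℂ J2

lemma mkt_surj : Function.Surjective mkt := Ideal.Quotient.mkₐ_surjective _ _

lemma mkO_surj : Function.Surjective mkO := Ideal.Quotient.mkₐ_surjective _ _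

lemma mkt_eq {p p' : Pab} : mkt p = mkt p' ↔ (p : F) - p' ∈ JeF := Ideal.Quotient.eq

lemma mkO_eq {p p' : Pab} : mkO p = mkO p' ↔ (p : F) - p' ∈ JF := Ideal.Quotient.eq

lemma mkt_eq_zero {p : Pab} : mkt p = 0 ↔ (p : F) ∈ JeF := Ideal.Quotient.eq_zero_iff_mem

lemma mkO_eq_zero {p : Pab} : mkO p = 0 ↔ (p : F) ∈ JF := Ideal.Quotient.eq_zero_iff_mem

/-- specialization -/
noncomputable def qO : Ot →ₐ[ℂ] O := Ideal.Quotient.factorₐ ℂ Je_le

lemma qO_mkt (p : Pab) : qO (mkt p) = mkO p := rfl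

/-- the bracket of invariants -/
noncomputable def brb : Pab → Pab → Pab := brRes brF Pab fun _ hf _ hg => brF_mem_PIb hf hg

lemma brb_coe (f g : Pab) : (brb f g : F) = brF f g := rfl

lemma brb_poisson : IsPoisson brb := brF_poisson.res _ _

lemma brb_mem_Je (f : Pab) : ∀ g ∈ Je, brb f g ∈ Je := fun g hg => by
  rw [mem_Je, brb_coe, ← adF_apply]
  exact der_mem_JeF _ (fun p hp => by rw [adF_apply]; exact brF_mem_PI f.2.1 hp)
    (by rw [adF_He, f.2.2.1]; exact JeF.zero_mem) hg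

lemma brb_mem_J2 (f : Pab) : ∀ g ∈ J2, brb f g ∈ J2 := fun g hg => by
  rw [mem_J2, brb_coe, ← adF_apply]
  exact der_mem_JF _ (fun p hp => by rw [adF_apply]; exact brF_mem_PI f.2.1 hp)
    (by rw [adF_He, f.2.2.1]; exact JF.zero_mem) (by rw [adF_Hh, f.2.2.2]; exact JF.zero_mem) hg

/-- the bracket on the family -/
noncomputable def brt : Ot → Ot → Ot := (brb_poisson.exists_quot Je brb_mem_Je).choose

/-- the bracket on the fibre -/
noncomputable def brO : O → O → O := (brb_poisson.exists_quot J2 brb_mem_J2).choose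

lemma brt_poisson : IsPoisson brt := (brb_poisson.exists_quot Je brb_mem_Je).choose_spec.1

lemma brO_poisson : IsPoisson brO := (brb_poisson.exists_quot J2 brb_mem_J2).choose_spec.1

lemma brt_mkt (f g : Pab) : brt (mkt f) (mkt g) = mkt (brb f g) :=
  (brb_poisson.exists_quot Je brb_mem_Je).choose_spec.2 f g

lemma brO_mkO (f g : Pab) : brO (mkO f) (mkO g) = mkO (brb f g) :=
  (brb_poisson.exists_quot J2 brb_mem_J2).choose_spec.2 f g

/-- functions on an intersection of charts of the family -/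
noncomputable def OtI (I : Finset K6) : Subalgebra ℂ Ot := ((PIb I).comap Pab.val).map mkt

/-- functions on an intersection of charts -/
noncomputable def OI (I : Finset K6) : Subalgebra ℂ O := ((PIb I).comap Pab.val).map mkO

lemma mem_OtI {I : Finset K6} {f : Ot} : f ∈ OtI I ↔ ∃ p : Pab, (p : F) ∈ PIb I ∧ mkt p = f :=
  Iff.rfl

lemma mem_OI {I : Finset K6} {f : O} : f ∈ OI I ↔ ∃ p : Pab, (p : F) ∈ PIb I ∧ mkO p = f :=
  Iff.rfl

end Pool.Agent.MP_86c931_ag.H56
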