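import Pool.Agent.MP_86c931_ag.H56.RowsD

/-! The classical data of the reduction. -/

namespace Pool.Agent.MP_86c931_ag.H56

open MvPolynomial

/-- a base index -/
def k0 : K6 := (0, true)

/-- the invariant weight Hamiltonian -/
noncomputable def Hkb (k : K6) : Pab := ⟨Hk k, Hk_mem (Finset.mem_univ k)⟩

/-- the invariant raising Hamiltonian -/
noncomputable def Ekb (k : K6) : Pab := ⟨Ek k, Ek_mem (Finset.mem_univ k)⟩

/-- the parameter of the family -/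
noncomputable def Ht : Ot := mkt (Hkb k0)

lemma mkt_eq_Ht {p : Pab} (hp : (p : F) - Hh ∈ JeF) : mkt p = Ht := by
  rw [Ht, mkt_eq]
  have := JeF.sub_mem hp (Hk_sub_mem_JeF k0)
  rwa [sub_sub_sub_cancel_right] at this

lemma mkt_Hkb (k : K6) : mkt (Hkb k) = Ht := mkt_eq_Ht (Hk_sub_mem_JeF k)

lemma mkt_Ekb (k : K6) : mkt (Ekb k) = 0 := mkt_eq_zero.2 (Ek_mem_JeF k)

lemma qO_Ht : qO Ht = 0 := mkO_eq_zero.2 (Hk_mem_JF k0)

lemma map_mem_of_gens {T : Type} [CommRing T] [Algebra ℂ T] (φ : Pab →ₐ[ℂ] T) (B : Subalgebra ℂ T)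
    {k : K6} {I : Finset K6} (hk : k ∈ I) (h1 : ∀ s : Sk k, φ (ztb k s.1) ∈ B)
    (h2 : φ (Hkb k) ∈ B) (h3 : φ (Ekb k) ∈ B) (h4 : ∀ l ∈ I, φ (ztb l (0, k)) ∈ B)
    (p : Pab) (hp : (p : F) ∈ PIb I) : φ p ∈ B := by
  rw [PIb_eq hk] at hp
  have key : ∀ x ∈ Algebra.adjoin ℂ (gens k I), ∃ h : x ∈ Pab, φ ⟨x, h⟩ ∈ B := fun x hx => by
    induction hx using Algebra.adjoin_induction with
    | mem x hx =>
      rcases hx with ((⟨s, rfl⟩ | rfl) | rfl) | ⟨l, hl, rfl⟩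
      exacts [⟨_, h1 s⟩, ⟨_, h2⟩, ⟨_, h3⟩, ⟨_, h4 l hl⟩]
    | algebraMap c => exact ⟨Pab.algebraMap_mem c, by
        have : (⟨_, Pab.algebraMap_mem c⟩ : Pab) = algebraMap ℂ Pab c := rfl
        rw [this, φ.commutes]; exact B.algebraMap_mem c⟩
    | add x y _ _ hx hy =>
      obtain ⟨hx, hx'⟩ := hx
      obtain ⟨hy, hy'⟩ := hy
      refine ⟨Pab.add_mem hx hy, ?_⟩
      have : (⟨_, Pab.add_mem hx hy⟩ : Pab) = ⟨x, hx⟩ + ⟨y, hy⟩ := rfl
      rw [this, map_add]; exact B.add_mem hx' hy'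
    | mul x y _ _ hx hy =>
      obtain ⟨hx, hx'⟩ := hx
      obtain ⟨hy, hy'⟩ := hy
      refine ⟨Pab.mul_mem hx hy, ?_⟩
      have : (⟨_, Pab.mul_mem hx hy⟩ : Pab) = ⟨x, hx⟩ * ⟨y, hy⟩ := rfl
      rw [this, map_mul]; exact B.mul_mem hx' hy'
  exact (key p hp).2

lemma ztb_mul (k l m : K6) : ztb k (0, l) * ztb l (0, m) = ztb k (0, m) := Subtype.ext (by
  have := zF_ne_zero 0 k
  have := zF_ne_zero 0 l
  change zt k (0, l) * zt l (0, m) = zt k (0, m)
  rw [zt_0, zt_0, zt_0]; field_simp)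

lemma ztb_self (k : K6) : ztb k (0, k) = 1 := Subtype.ext (zt_0_self k)

lemma OtI_eq {k : K6} {I : Finset K6} (hk : k ∈ I) (S : Set Ot)
    (h1 : ∀ l ∈ I, l = k ∨ mkt (ztb l (0, k)) ∈ S) (h2 : ∀ u ∈ S, ∃ l ∈ I, u = mkt (ztb l (0, k))) :
    Algebra.adjoin ℂ (Set.range (fun s : Sk k => mkt (ztb k s.1)) ∪ {Ht} ∪ S) = OtI I := by
  refine le_antisymm (Algebra.adjoin_le ?_) ?_
  · rintro u ((⟨s, rfl⟩ | rfl) | hu)
    · exact ⟨ztb k s.1, zt_mem hk _, rfl⟩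
    · exact ⟨Hkb k, Hk_mem hk, mkt_Hkb k⟩
    · obtain ⟨l, hl, rfl⟩ := h2 u hu
      exact ⟨ztb l (0, k), zt_mem hl _, rfl⟩
  · rintro _ ⟨p, hp, rfl⟩
    refine map_mem_of_gens mkt
      (Algebra.adjoin ℂ (Set.range (fun s : Sk k => mkt (ztb k s.1)) ∪ {Ht} ∪ S)) hk
      (fun s => ?_) ?_ ?_ (fun l hl => ?_) p hp
    · exact Algebra.subset_adjoin (Or.inl (Or.inl ⟨s, rfl⟩))
    · exact Algebra.subset_adjoin (Or.inl (Or.inr (mkt_Hkb k)))
    · rw [mkt_Ekb]; exact zero_mem _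
    · rcases h1 l hl with rfl | h
      · rw [ztb_self, map_one]; exact one_mem _
      · exact Algebra.subset_adjoin (Or.inr h)

lemma OtI_single (k : K6) :
    Algebra.adjoin ℂ (Set.range (fun s : Sk k => mkt (ztb k s.1)) ∪ {Ht}) = OtI {k} := by
  have := OtI_eq (Finset.mem_singleton_self k) ∅ (fun l hl => Or.inl (Finset.mem_singleton.1 hl))
    (fun u hu => hu.elim)
  rwa [Set.union_empty] at this

lemma OtI_pair (k l : K6) :
    Algebra.adjoin ℂ (Set.range (fun s : Sk k => mkt (ztb k s.1)) ∪ {Ht} ∪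
      {mkt (ztb l (0, k))}) = OtI {k, l} :=
  OtI_eq (Finset.mem_insert_self k {l}) _ (fun m hm => by
    rcases Finset.mem_insert.1 hm with h | h
    · exact Or.inl h
    · rw [Finset.mem_singleton.1 h]; exact Or.inr rfl)
    (fun u hu => ⟨l, by simp, hu⟩)

lemma OtI_univ : OtI Finset.univ = ⊤ := by
  rw [eq_top_iff]
  intro f _
  obtain ⟨p, rfl⟩ := mkt_surj f
  exact ⟨p, p.2, rfl⟩

lemma OtI_mono {I I' : Finset K6} (h : I ⊆ I') : OtI I ≤ OtI I' := by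
  rintro _ ⟨p, hp, rfl⟩
  exact ⟨p, ⟨PI_mono h hp.1, hp.2⟩, rfl⟩

lemma OI_mono {I I' : Finset K6} (h : I ⊆ I') : OI I ≤ OI I' := by
  rintro _ ⟨p, hp, rfl⟩
  exact ⟨p, ⟨PI_mono h hp.1, hp.2⟩, rfl⟩

lemma OtI_map (I : Finset K6) : (OtI I).map qO = OI I := by
  rw [OtI, Subalgebra.map_map]
  rfl

/-- derivative in the parameter, on rational functions -/
noncomputable def etaF (k : K6) : Derivation ℂ F F := (zF 0 k)⁻¹ • adF (zF 0 k)

lemma etaF_apply (k : K6) (p : F) : etaF k p = (zF 0 k)⁻¹ * brF (zF 0 k) p := by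
  rw [etaF, Derivation.smul_apply, adF_apply, smul_eq_mul]

lemma etaF_mem_Pa (k : K6) : ∀ p ∈ Pa, etaF k p ∈ Pa := fun p hp => by
  rw [etaF_apply]
  exact Pa.mul_mem (inv_mem_PI (Finset.mem_univ k)) (brF_mem_PI (zF_mem_PI _ _ _) hp)

lemma etaF_mem (k : K6) : ∀ p ∈ Pab, etaF k p ∈ Pab := fun p hp => by
  refine ⟨etaF_mem_Pa k p hp.1, ?_⟩
  have hx := zF_ne_zero 0 k
  have h1 : De p = 0 := hp.2.1
  have h2 : Dh p = 0 := hp.2.2
  change De _ = 0 ∧ Dh _ = 0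
  rw [etaF_apply, Derivation.leibniz, Derivation.leibniz, Derivation.leibniz_inv,
    Derivation.leibniz_inv, De_brF, Dh_brF, De_z0, Dh_z0, h1, h2, brF_zero_left, brF_zero_right]
  simp only [smul_eq_mul]
  constructor
  · ring
  · field_simp; ring

lemma exists_eta (k : K6) : ∃ D : Derivation ℂ Ot Ot,
    ∀ p, D (mkt p) = mkt (derRes (etaF k) Pab (etaF_mem k) p) :=
  exists_der_quot _ Je fun p hp => der_mem_JeF (etaF k) (etaF_mem_Pa k)
    (by rw [etaF_apply, ← adF_apply, adF_He, De_z0, mul_zero]; exact JeF.zero_mem) hp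

/-- derivative in the parameter -/
noncomputable def eta (k : K6) : Derivation ℂ Ot Ot := (exists_eta k).choose

lemma eta_mkt (k : K6) (p : Pab) : eta k (mkt p) = mkt (derRes (etaF k) Pab (etaF_mem k) p) :=
  (exists_eta k).choose_spec p

lemma one_not_mem_JP : (1 : P) ∉ JP := fun h => by
  obtain ⟨a, b, hab⟩ := Ideal.mem_span_pair.1 h
  have := congrArg (aeval (fun _ => (0 : ℂ)) : P →ₐ[ℂ] ℂ) hab
  rw [map_add, map_mul, map_mul, HeP, HhP, map_om, map_om] at this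
  simp [zP, om] at this

/-- the classical data -/
noncomputable def cdata (hC : RowCECH) : CData K6 Sk Ot O where
  βt := brt
  β := brO
  pt := brt_poisson
  p := brO_poisson
  q := qO
  q_surj f := by
    obtain ⟨p, rfl⟩ := mkO_surj f
    exact ⟨mkt p, rfl⟩
  q_br f g := by
    obtain ⟨f, rfl⟩ := mkt_surj f
    obtain ⟨g, rfl⟩ := mkt_surj g
    rw [brt_mkt, qO_mkt, qO_mkt, qO_mkt, brO_mkO]
  H := Ht
  q_H := qO_Ht
  H_br f := by
    obtain ⟨f, rfl⟩ := mkt_surj f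
    rw [Ht, brt_mkt, mkt_eq_zero, brb_coe, brF_poisson.anti, ← adF_apply]
    refine JeF.neg_mem ?_
    change adF f (Hh + sl k0 * He) ∈ JeF
    rw [map_add, Derivation.leibniz, adF_Hh, adF_He, f.2.2.1, f.2.2.2, smul_zero, zero_add,
      zero_add, smul_eq_mul, mul_comm, adF_apply]
    exact JeF_mul (brF_mem_PI f.2.1 (sl_mem (Finset.mem_univ _))) He_mem_JeF
  z k s := mkt (ztb k s.1)
  dual _ s := s.dual
  dual_dual _ s := Subtype.ext (S18.dual_dual s.1)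
  sgn _ s := s.1.sgn
  sgn_sq _ s := K6.sgn_sq _
  sgn_dual _ s := S18.sgn_dual _
  ccr k s t := by
    rw [brt_mkt]
    have h := adF_zt k s t
    rw [adF_apply] at h
    have e : t = s.dual ↔ t.1.1 = s.1.1.rev ∧ t.1.2 = s.1.2.dual :=
      ⟨fun h => by rw [h]; exact ⟨rfl, rfl⟩, fun h => Subtype.ext (Prod.ext h.1 h.2)⟩
    by_cases ht : t = s.dual
    · rw [if_pos ht, ← mkt.commutes]
      congr 1
      refine Subtype.ext ?_
      rw [brb_coe, ztb_coe, ztb_coe, h, if_pos (e.1 ht).1, wF, if_pos (e.1 ht).2]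
      rfl
    · rw [if_neg ht, ← map_zero mkt]
      congr 1
      refine Subtype.ext ?_
      rw [brb_coe, ztb_coe, ztb_coe, h]
      by_cases h1 : t.1.1 = s.1.1.rev
      · rw [if_pos h1, wF, if_neg fun h2 => ht (e.2 ⟨h1, h2⟩)]; rfl
      · rw [if_neg h1]; rfl
  a k l := mkt (ztb k (0, l))
  a_mul k l m := by rw [← map_mul, ztb_mul]
  a_self k := by rw [ztb_self, map_one]
  pos k l h := ⟨(0, l), by simp [Ne.symm h]⟩
  a_eq _ _ _ := rfl
  pos_inj k l m _ _ h := congrArg (fun s : Sk k => s.1.2) h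
  gen k := by
    rw [OtI_eq (Finset.mem_univ k) (Set.range fun l => mkt (ztb l (0, k)))
      (fun l _ => Or.inr ⟨l, rfl⟩)
      (by rintro _ ⟨l, rfl⟩; exact ⟨l, Finset.mem_univ l, rfl⟩), OtI_univ]
  le_kl k l := by
    rw [OtI_single, OtI_pair]
    exact OtI_mono (by simp)
  η := eta
  η_z k s := by
    rw [eta_mkt, ← map_zero mkt]
    congr 1
    refine Subtype.ext ?_
    rw [derRes_coe, etaF_apply, ← adF_apply, ztb_coe, adF_x_zt, mul_zero]
    rfl
  η_H k := by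
    rw [← mkt_Hkb k, eta_mkt, ← map_one mkt]
    congr 1
    refine Subtype.ext ?_
    rw [derRes_coe, etaF_apply, ← adF_apply]
    change _ * adF (zF 0 k) (Hh + sl k * He) = 1
    rw [map_add, Derivation.leibniz, adF_Hh, adF_He, De_z0, Dh_z0, der_sl, ad00, ad01]
    simp [zF_ne_zero]
  η_sub k l f := by
    obtain ⟨f, rfl⟩ := mkt_surj f
    rw [eta_mkt, eta_mkt, qO_mkt, qO_mkt, qO_mkt, qO_mkt, qO_mkt, brO_mkO, ← map_mul, ← map_sub]
    congr 1
    refine Subtype.ext ?_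
    change etaF l f - etaF k f = brF (zt k (0, l)) f * zt l (0, k)
    have hk := zF_ne_zero 0 k
    have hl := zF_ne_zero 0 l
    rw [etaF_apply, etaF_apply, brF_poisson.anti (zt k (0, l)), brF_poisson.anti (zF 0 l),
      brF_poisson.anti (zF 0 k), ← adF_apply, ← adF_apply, ← adF_apply, der_zt0, zt_0, zt_0]
    field_simp
    ring
  nontriv := ⟨1, 0, fun h => one_not_mem_JP (hC.2.2 1 (by
    rw [← map_one mkO, mkO_eq_zero] at h
    rw [map_one]; exact h))⟩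
  three := by decide
  cech w hw := by
    simp only [OtI_pair, OtI_single, OtI_map] at hw ⊢
    exact hC.1 w hw

variable (hC : RowCECH)

lemma cdata_Otk (k : K6) : (cdata hC).Otk k = OtI {k} := OtI_single k

lemma cdata_Otkl (k l : K6) : (cdata hC).Otkl k l = OtI {k, l} := OtI_pair k l

lemma cdata_Ok (k : K6) : (cdata hC).Ok k = OI {k} := by
  rw [CData.Ok, cdata_Otk]; exact OtI_map _

lemma cdata_Okl (k l : K6) : (cdata hC).Okl k l = OI {k, l} := by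
  rw [CData.Okl, cdata_Otkl]; exact OtI_map _

lemma iInf_OI : (⨅ k, (cdata hC).Ok k : Subalgebra ℂ O) = OI ∅ := by
  refine le_antisymm (fun f hf => hC.2.1 f fun k => ?_) (le_iInf fun k => ?_)
  · rw [← cdata_Ok hC]; exact (iInf_le (fun k => (cdata hC).Ok k) k) hf
  · rw [cdata_Ok]; exact OI_mono (Finset.empty_subset _)

end Pool.Agent.MP_86c931_ag.H56
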