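import Pool.Agent.MP_86c931_ag.H56.RowsA

/-! From the charts to the vanishing of Hochschild homology. -/

namespace Pool.Agent.MP_86c931_ag.H56

open AlgebraicGeometry CategoryTheory TopologicalSpace Opposite
open scoped PowerSeries

section cdata

variable {κ : Type} {σ : κ → Type} [∀ k, DecidableEq (σ k)] {Ot O : Type} [CommRing Ot]
  [Algebra ℂ Ot] [CommRing O] [Algebra ℂ O] (D : CData κ σ Ot O)

lemma clear_adjoin {T : Type} [CommRing T] [Algebra ℂ T] (A : Subalgebra ℂ T) (u : T) (hu : u ∈ A)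
    (S : Set T) (hS : ∀ s ∈ S, ∃ j : ℕ, s * u ^ j ∈ A) {f : T} (hf : f ∈ Algebra.adjoin ℂ S) :
    ∃ j : ℕ, f * u ^ j ∈ A := by
  induction hf using Algebra.adjoin_induction with
  | mem x hx => exact hS x hx
  | algebraMap c => exact ⟨0, by simp⟩
  | add x y _ _ hx hy =>
    obtain ⟨i, hi⟩ := hx
    obtain ⟨j, hj⟩ := hy
    refine ⟨i + j, ?_⟩
    have : (x + y) * u ^ (i + j) = x * u ^ i * u ^ j + y * u ^ j * u ^ i := by ring
    rw [this]
    exact add_mem (mul_mem hi (pow_mem hu j)) (mul_mem hj (pow_mem hu i))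
  | mul x y _ _ hx hy =>
    obtain ⟨i, hi⟩ := hx
    obtain ⟨j, hj⟩ := hy
    refine ⟨i + j, ?_⟩
    have : x * y * u ^ (i + j) = x * u ^ i * (y * u ^ j) := by ring
    rw [this]
    exact mul_mem hi hj

lemma CData.a_mem (k l : κ) : D.a k l ∈ D.Otk k := by
  by_cases h : k = l
  · rw [← h, D.a_self]; exact one_mem _
  · rw [D.a_eq k l h]; exact Algebra.subset_adjoin (Or.inl ⟨_, rfl⟩)

lemma CData.a_inv (k l : κ) : D.a k l * D.a l k = 1 := by rw [D.a_mul, D.a_self]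

lemma CData.Otk_le (k l : κ) : D.Otk k ≤ D.Otkl k l := Algebra.adjoin_mono Set.subset_union_left

lemma CData.mem_Okl (k l : κ) (g : O) :
    g ∈ D.Okl k l ↔ ∃ j : ℕ, g * D.q (D.a k l) ^ j ∈ D.Ok k := by
  constructor
  · rintro ⟨f, hf, rfl⟩
    obtain ⟨j, hj⟩ := clear_adjoin (D.Otk k) _ (D.a_mem k l) _ (by
      rintro s (hs | rfl)
      · exact ⟨0, by rw [pow_zero, mul_one]; exact Algebra.subset_adjoin hs⟩
      · exact ⟨1, by rw [pow_one, D.a_inv]; exact one_mem _⟩) hf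
    exact ⟨j, _, hj, by simp⟩
  · rintro ⟨j, f, hf, hj⟩
    have hm : D.a l k ∈ D.Otkl k l := Algebra.subset_adjoin (Or.inr rfl)
    refine ⟨f * D.a l k ^ j, mul_mem (D.Otk_le k l hf) (pow_mem hm j), ?_⟩
    have hj' : D.q f = g * D.q (D.a k l) ^ j := hj
    change D.q _ = g
    rw [map_mul, map_pow, hj', mul_assoc, ← mul_pow, ← map_mul, D.a_inv, map_one, one_pow, mul_one]

lemma CData.clear_top [Fintype κ] [DecidableEq κ] (k : κ) (g : O) :
    ∃ j : ℕ, g * (∏ l, D.q (D.a k l)) ^ j ∈ D.Ok k := by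
  obtain ⟨f, rfl⟩ := D.q_surj g
  obtain ⟨j, hj⟩ := clear_adjoin (D.Otk k) (∏ l, D.a k l) (prod_mem fun l _ => D.a_mem k l)
    (Set.range (D.z k) ∪ {D.H} ∪ Set.range fun l => D.a l k) (by
      rintro s (hs | ⟨l, rfl⟩)
      · exact ⟨0, by rw [pow_zero, mul_one]; exact Algebra.subset_adjoin hs⟩
      · refine ⟨1, ?_⟩
        rw [pow_one, ← Finset.mul_prod_erase _ _ (Finset.mem_univ l), ← mul_assoc, D.a_inv, one_mul]
        exact prod_mem fun l _ => D.a_mem k l) (f := f) (by rw [D.gen k]; trivial)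
  exact ⟨j, _, hj, by simp⟩

end cdata

section geo

variable {O K : Type} [CommRing O] [Algebra ℂ O] [Field K] [Algebra ℂ K] (ι : O →ₐ[ℂ] K)
  {Y : Scheme.{0}} [IsIntegral Y] (ε : Y.functionField →+* K)

/-- the functions on `U` are the elements of `O'` -/
def Im (U : Y.Opens) (h : gp Y ∈ U) (O' : Subalgebra ℂ O) : Prop :=
  ∀ z : K, z ∈ O'.map ι ↔ ∃ s, ε (emb U h s) = z

variable {ι ε}

lemma Im.reg {U : Y.Opens} {h : gp Y ∈ U} {O' : Subalgebra ℂ O} (H : Im ι ε U h O')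
    (w : Y.functionField) : Reg U w ↔ ε w ∈ O'.map ι := by
  rw [H]
  constructor
  · rintro ⟨s, hs⟩
    exact ⟨s, by rw [hs]⟩
  · rintro ⟨s, hs⟩
    exact ⟨s, fun _ => ε.injective hs⟩

lemma Im.basicOpen (hι : Function.Injective ι) {U : Y.Opens} (hU : IsAffineOpen U)
    {h : gp Y ∈ U} {O' : Subalgebra ℂ O} (H : Im ι ε U h O') (t : Γ(Y, U)) (f : O) (hf : f ≠ 0)
    (ht : ε (emb U h t) = ι f) (O'' : Subalgebra ℂ O)
    (h'' : ∀ g, g ∈ O'' ↔ ∃ j : ℕ, g * f ^ j ∈ O') (hu : IsUnit f) :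
    ∃ h' : gp Y ∈ Y.basicOpen t, Im ι ε (Y.basicOpen t) h' O'' := by
  have h0 : emb U h t ≠ 0 := fun e => hf (hι (by rw [← ht, e, map_zero, map_zero]))
  have h' := gp_mem_basicOpen h t h0
  refine ⟨h', fun z => ⟨?_, ?_⟩⟩
  · rintro ⟨g, hg, rfl⟩
    obtain ⟨j, hj⟩ := (h'' g).1 hg
    obtain ⟨s, hs⟩ := (H _).1 ⟨_, hj, rfl⟩
    obtain ⟨s', hs'⟩ := (reg_basicOpen_iff hU t h' (emb U h s / emb U h t ^ j)).2
      ⟨j, by rw [div_mul_cancel₀ _ (pow_ne_zero j h0)]; exact reg_emb _ _ _⟩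
    refine ⟨s', ?_⟩
    have hιf : ι f ≠ 0 := fun e => hf (hι (by rw [e, map_zero]))
    rw [hs', map_div₀, map_pow, hs, ht]
    change ι (g * f ^ j) / ι f ^ j = ι g
    rw [map_mul, map_pow, mul_div_cancel_right₀ _ (pow_ne_zero j hιf)]
  · rintro ⟨s, rfl⟩
    obtain ⟨j, hj⟩ := (reg_basicOpen_iff hU t h' _).1 (reg_emb _ h' s)
    obtain ⟨g, hg, hg'⟩ := (H.reg _).1 hj
    obtain ⟨u, hu⟩ := hu.exists_right_inv
    have e : g * u ^ j * f ^ j = g := by rw [mul_assoc, ← mul_pow, mul_comm u, hu, one_pow, mul_one]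
    refine ⟨g * u ^ j, (h'' _).2 ⟨j, by rw [e]; exact hg⟩, ?_⟩
    have hg'' : ι g = ε (emb _ h' s) * ι f ^ j := by
      rw [← ht, ← map_pow, ← map_mul]; exact hg'
    change ι (g * u ^ j) = _
    rw [map_mul, hg'', map_pow, mul_assoc, ← mul_pow, ← map_mul, hu, map_one, one_pow, mul_one]

lemma exists_lift {C : Type} [Ring C] (hι : Function.Injective ι) (p : C →+* K)
    (hp : ∀ c, ∃ f, ι f = p c) : ∃ p' : C →+* O, ∀ c, ι (p' c) = p c := by
  choose g hg using hp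
  exact ⟨{ toFun := g
           map_one' := hι (by rw [hg, map_one, map_one])
           map_mul' := fun a b => hι (by rw [hg, map_mul, map_mul, hg, hg])
           map_zero' := hι (by rw [hg, map_zero, map_zero])
           map_add' := fun a b => hι (by rw [hg, map_add, map_add, hg, hg]) }, hg⟩

end geo

section quant

variable {R : Type} [CommRing R] [Algebra ℂ R] {Y : Scheme.{0}}
  (B : TopCat.Presheaf (AlgCat.{0} ℂ⟦X⟧) Y)

/-- restriction as an algebra homomorphism -/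
noncomputable def rb {U V : Y.Opens} (i : V ≤ U) : B.obj (op U) →ₐ[ℂ⟦X⟧] B.obj (op V) :=
  (B.map (homOfLE i).op).hom

lemma resB_eq {U V : Y.Opens} (i : V ≤ U) (b : B.obj (op U)) : resB B i b = rb B i b := rfl

lemma rb_rb {U V W : Y.Opens} (i : V ≤ U) (j : W ≤ V) (s : B.obj (op U)) :
    rb B j (rb B i s) = rb B (j.trans i) s := by
  show (B.map (homOfLE j).op).hom ((B.map (homOfLE i).op).hom s) = _
  rw [← AlgCat.comp_apply, ← Functor.map_comp]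
  rfl

lemma range_rb_le {U V W : Y.Opens} (i : V ≤ U) (j : W ≤ V) :
    (rb B (j.trans i)).range ≤ (rb B j).range := by
  rintro _ ⟨b, rfl⟩
  exact ⟨rb B i b, rb_rb B i j b⟩

variable [IsIntegral Y] {β : R → R → R} {ρ : Y ⟶ Spec (CommRingCat.of R)} {B}
  {π : ∀ U : Y.Opens, B.obj (op U) →+* Γ(Y, U)} (hQ : IsQuantization ρ B π β)
  {O K : Type} [CommRing O] [Algebra ℂ O] [Field K] [Algebra ℂ K] {ι : O →ₐ[ℂ] K}
  (hι : Function.Injective ι) {ε : Y.functionField →+* K} (v : R →ₐ[ℂ] O)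
  (hε : ∀ (f : R) (V : Y.Opens) (h : gp Y ∈ V), ε (emb V h (fn ρ f V)) = ι (v f))

include hQ hι hε in
lemma exists_PQ (W : Y.Opens) (hW : gp Y ∈ W) (H : ∀ s, ∃ f, ι f = ε (emb W hW s)) :
    ∃ Q : PQ O (B.obj (op W)), (∀ b, ι (Q.π b) = ε (emb W hW (π W b))) ∧ Q.InducesVia v β := by
  obtain ⟨p, hp⟩ := exists_lift hι (ε.comp ((emb W hW).comp (π W))) fun c => H _
  have hp' : ∀ b, ι (p b) = ε (emb W hW (π W b)) := hp
  have hinj : ∀ s t, ε (emb W hW s) = ε (emb W hW t) → s = t := fun s t h =>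
    emb_inj W hW (ε.injective h)
  refine ⟨⟨p, fun c => hι ?_, fun c hc => ?_⟩, hp', fun a b c f g ha hb' hc => hι ?_⟩
  · rw [hp', hQ.2.2.2.1.2.1, hε, v.commutes]
  · obtain ⟨d, hd⟩ := (hQ.2.2.2.1.2.2.1 W c).1 (hinj _ _ (by rw [← hp', hc, map_zero, map_zero,
      map_zero]))
    exact ⟨d, by rw [hd, pow_one]⟩
  · have ha' : π W a = fn ρ f W := hinj _ _ (by rw [← hp', hε]; exact congrArg ι ha)
    have hb'' : π W b = fn ρ g W := hinj _ _ (by rw [← hp', hε]; exact congrArg ι hb')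
    change ι (p c) = _
    rw [hp', hQ.2.2.2.2 W a b c f g ha' hb'' hc, hε]

include hQ hι in
lemma sub_range {W : Y.Opens} {hW : gp Y ∈ W} (Q : PQ O (B.obj (op W)))
    (hp : ∀ b, ι (Q.π b) = ε (emb W hW (π W b))) {V : Y.Opens} (i : W ≤ V) {O' : Subalgebra ℂ O}
    (H : Im ι ε V (i hW) O') (hs : Function.Surjective (π V)) : Q.Sub O' (rb B i).range := by
  have key : ∀ b, ι (Q.π (rb B i b)) = ε (emb V (i hW) (π V b)) := fun b => by
    rw [hp, ← resB_eq, hQ.2.2.2.1.1, resO_eq, emb_rs]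
  refine ⟨?_, fun f hf => ?_, ?_⟩
  · rintro _ ⟨b, rfl⟩
    obtain ⟨g, hg, hg'⟩ := (H _).2 ⟨π V b, rfl⟩
    have : g = Q.π (rb B i b) := hι (by rw [key]; exact hg')
    exact this ▸ hg
  · obtain ⟨s, hs'⟩ := (H _).1 ⟨f, hf, rfl⟩
    obtain ⟨b, rfl⟩ := hs s
    exact ⟨_, ⟨b, rfl⟩, hι (by rw [← show ε _ = ι f from hs']; exact key b)⟩
  · rintro _ ⟨b, rfl⟩ h0
    have h1 : π V b = 0 := emb_inj V (i hW) (ε.injective (by
      rw [← key, map_zero, map_zero]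
      rw [show Q.π (rb B i b) = 0 from h0, map_zero]))
    obtain ⟨d, hd⟩ := (hQ.2.2.2.1.2.2.1 V b).1 h1
    exact ⟨_, ⟨d, rfl⟩, by
      change rb B i b = hb • rb B i d
      rw [hd, pow_one, map_smul]⟩

end quant

lemma comms_transfer {M A T : Type} [Ring M] [Algebra ℂ⟦X⟧ M] [Ring A] [Algebra ℂ⟦X⟧ A]
    [Ring T] [Algebra ℂ⟦X⟧ T] (φ : M →ₐ[ℂ⟦X⟧] T) (ψ : A →ₐ[ℂ⟦X⟧] T) (n : ℕ) (S : Set M)
    (hS : ∀ m ∈ S, ∃ a, Dv n (ψ a - φ m)) {m : M} (hm : m ∈ comms S) :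
    ∃ a ∈ comms (Set.univ : Set A), Dv n (ψ a - φ m) := by
  induction hm using Submodule.span_induction with
  | mem x hx =>
    obtain ⟨m, hm, m', hm', rfl⟩ := hx
    obtain ⟨a, ha⟩ := hS m hm
    obtain ⟨a', ha'⟩ := hS m' hm'
    refine ⟨a * a' - a' * a, Submodule.subset_span ⟨a, trivial, a', trivial, rfl⟩, ?_⟩
    have := ((ha.mul_right (ψ a')).add (ha'.mul_left (φ m))).sub
      ((ha'.mul_right (ψ a)).add (ha.mul_left (φ m')))
    convert this using 1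
    simp only [map_sub, map_mul]
    noncomm_ring
  | zero => exact ⟨0, zero_mem _, by simpa using Dv.zero n⟩
  | add x y _ _ hx hy =>
    obtain ⟨a, ha, ha'⟩ := hx
    obtain ⟨b, hb', hb''⟩ := hy
    refine ⟨a + b, add_mem ha hb', ?_⟩
    convert ha'.add hb'' using 1
    simp only [map_add]
    abel
  | smul c x _ hx =>
    obtain ⟨a, ha, ha'⟩ := hx
    refine ⟨c • a, Submodule.smul_mem _ c ha, ?_⟩
    convert ha'.smul c using 1
    simp only [map_smul, smul_sub]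

theorem vanish_abs (hSH : RowSH) (hCMP : RowCMP) (hEXT : RowEXT) (hHH : RowHH)
    {κ : Type} [Fintype κ] [DecidableEq κ] (k0 : κ) {σ : κ → Type} [∀ k, Fintype (σ k)]
    [∀ k, DecidableEq (σ k)] {Ot O M K R : Type} [CommRing Ot] [Algebra ℂ Ot] [CommRing O]
    [IsDomain O] [Algebra ℂ O] [Ring M] [Algebra ℂ⟦X⟧ M] [Field K] [Algebra ℂ K] [CommRing R]
    [Algebra ℂ R] (D : CData κ σ Ot O) (ι : O →ₐ[ℂ] K) (hι : Function.Injective ι)
    (v : R →ₐ[ℂ] O) (hv : Function.Injective v) (hv' : ∀ f, (∀ k, f ∈ D.Ok k) → ∃ r, v r = f)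
    (β : R → R → R) (hβ : ∀ f g, v (β f g) = D.β (v f) (v g))
    (hfrac : ∀ f : O, ∃ r r' : R, v r' ≠ 0 ∧ f * v r' = v r)
    {ιu : Type} [Fintype ιu] (u : ιu → R)
    (hu : ∀ f, ∃ (c : ℂ) (g : ιu → R), f = algebraMap ℂ R c + ∑ i, β (u i) (g i))
    (QM : PQ Ot M) (tfM : TF M) (iM : QM.Induces D.βt) (sM : Function.Surjective QM.π)
    (Mk : κ → Subalgebra ℂ⟦X⟧ M) (Mkl : κ → κ → Subalgebra ℂ⟦X⟧ M)
    (hMk : ∀ k, QM.Sub (D.Otk k) (Mk k)) (hMkl : ∀ k l, QM.Sub (D.Otkl k l) (Mkl k l))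
    (hMle : ∀ k l, Mk k ≤ Mkl k l ∧ Mk l ≤ Mkl k l) (Hq : M) (hH1 : ∀ k, Hq ∈ Mk k)
    (hH2 : QM.π Hq = D.H) (hH3 : ∀ m, Hq * m = m * Hq) (S : Set M) (hS : ∀ m ∈ S, ∀ k, m ∈ Mk k)
    (hS3 : hb ^ 3 • (1 : M) ∈ comms S)
    {Y : Scheme.{0}} [IsIntegral Y] (ρ : Y ⟶ Spec (CommRingCat.of R)) (U : κ → Y.Opens)
    (ε : Y.functionField →+* K) (hU : ∀ k, gp Y ∈ U k) (haff : ∀ k, IsAffineOpen (U k))
    (hcov : ∀ y, ∃ k, y ∈ U k)
    (hε : ∀ (f : R) (V : Y.Opens) (h : gp Y ∈ V), ε (emb V h (fn ρ f V)) = ι (v f))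
    (hIm : ∀ k, Im ι ε (U k) (hU k) (D.Ok k))
    (hs : ∀ k l, ∃ s : Γ(Y, U k), ε (emb (U k) (hU k) s) = ι (D.q (D.a k l)) ∧
      Y.basicOpen s = U k ⊓ U l)
    (B : TopCat.Presheaf (AlgCat.{0} ℂ⟦X⟧) Y) (π : ∀ U : Y.Opens, B.obj (op U) →+* Γ(Y, U))
    (hQ : IsQuantization ρ B π β) : Subsingleton (HH0 (B.obj (op ⊤))) := by
  obtain ⟨tf, cpl, dvres, surjA, hglob⟩ := hSH R β Y ρ B π hQ
  choose s hs1 hs2 using hs
  have hunit : ∀ k l, IsUnit (D.q (D.a k l)) := fun k l =>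
    IsUnit.of_mul_eq_one (D.q (D.a l k)) (by rw [← map_mul, D.a_inv, map_one])
  have hkl : ∀ k l, gp Y ∈ U k ⊓ U l := fun k l => ⟨hU k, hU l⟩
  have hIm2 : ∀ k l, Im ι ε (U k ⊓ U l) (hkl k l) (D.Okl k l) := fun k l => by
    obtain ⟨h', H⟩ := (hIm k).basicOpen hι (haff k) (s k l) _ (hunit k l).ne_zero (hs1 k l) _
      (D.mem_Okl k l) (hunit k l)
    revert h'
    rw [hs2 k l]
    exact fun _ H => H
  have haff2 : ∀ k l, IsAffineOpen (U k ⊓ U l) := fun k l => hs2 k l ▸ (haff k).basicOpen (s k l)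
  have hunitA : IsUnit (∏ l, D.q (D.a k0 l)) := IsUnit.prod_univ_iff.2 fun l => hunit k0 l
  obtain ⟨hW, hImW⟩ := (hIm k0).basicOpen hι (haff k0) (∏ l, s k0 l) _ hunitA.ne_zero
    (by rw [map_prod, map_prod, map_prod]; exact Finset.prod_congr rfl fun l _ => hs1 k0 l) ⊤
    (fun g => ⟨fun _ => D.clear_top k0 g, fun _ => trivial⟩) hunitA
  set W := Y.basicOpen (∏ l, s k0 l) with hWdef
  have hWle : ∀ l, W ≤ U l := fun l => by
    have : W ≤ Y.basicOpen (s k0 l) := by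
      rw [hWdef, ← Finset.mul_prod_erase _ _ (Finset.mem_univ l), Scheme.basicOpen_mul]
      exact inf_le_left
    rw [hs2] at this
    exact this.trans inf_le_right
  have hWle2 : ∀ k l, W ≤ U k ⊓ U l := fun k l => le_inf (hWle k) (hWle l)
  have hWaff : IsAffineOpen W := (haff k0).basicOpen _
  obtain ⟨QB, hQB, iB⟩ := exists_PQ hQ hι v hε W hW fun t => by
    obtain ⟨g, -, hg⟩ := (hImW _).2 ⟨t, rfl⟩
    exact ⟨g, hg⟩
  have sB : Function.Surjective QB.π := fun f => by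
    obtain ⟨c, -, hc⟩ := (sub_range hQ hι QB hQB le_rfl hImW (surjA W hWaff)).surj f trivial
    exact ⟨c, hc⟩
  have iB' : QB.Induces D.β := hEXT R O _ QB β D.β v (tf W) sB D.p hβ hfrac iB
  obtain ⟨φ, hφ1, hφ2⟩ := hCMP κ σ Ot O M _ D QM QB tfM (tf W) iM iB' sM sB Mk Mkl
    (fun k => (rb B (hWle k)).range) (fun k l => (rb B (hWle2 k l)).range) hMk hMkl
    (fun k => sub_range hQ hι QB hQB (hWle k) (hIm k) (surjA _ (haff k)))
    (fun k l => sub_range hQ hι QB hQB (hWle2 k l) (hIm2 k l) (surjA _ (haff2 k l))) hMle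
    (fun k l => ⟨range_rb_le B inf_le_left (hWle2 k l),
      range_rb_le B (le_inf inf_le_right inf_le_left) (hWle2 k l)⟩) Hq hH1 hH2 hH3 3
  obtain ⟨surjT, glue⟩ := hglob κ U haff hcov fun w hw => by
    have h1 : ∀ k l, ∃ g ∈ D.Okl k l, ι g = ε (w k - w l) := fun k l =>
      ((hIm2 k l).reg _).1 (hw k l)
    choose g hg hg' using h1
    obtain ⟨c, hc⟩ := D.cech (fun k => g k k0) fun k l => by
      have : g k k0 - g l k0 = g k l := hι (by
        rw [map_sub, hg', hg', hg', ← map_sub, sub_sub_sub_cancel_right])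
      rw [this]
      exact hg k l
    obtain ⟨t, ht⟩ := (hImW (ι c)).1 ⟨c, trivial, rfl⟩
    refine ⟨w k0 + emb W hW t, fun k => ((hIm k).reg _).2 ⟨_, hc k, ?_⟩⟩
    change ι (g k k0 - c) = _
    rw [map_sub, hg', ← ht, ← map_sub, sub_sub]
  have hT : gp Y ∈ (⊤ : Y.Opens) := trivial
  obtain ⟨QA, hQA, iA⟩ := exists_PQ (O := R) (ι := ι.comp v) hQ (hι.comp hv) (AlgHom.id ℂ R) hε ⊤
    hT fun t => by
      obtain ⟨g, -, hg⟩ := (hImW _).2 ⟨rs le_top t, rfl⟩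
      rw [emb_rs] at hg
      obtain ⟨r, hr⟩ := hv' g fun k => by
        obtain ⟨g', hg', e⟩ := (hIm k _).2 ⟨rs le_top t, rfl⟩
        rw [emb_rs] at e
        have : g' = g := hι (e.trans hg.symm)
        exact this ▸ hg'
      exact ⟨r, by rw [AlgHom.comp_apply, hr]; exact hg⟩
  have sA : Function.Surjective QA.π := fun f => by
    obtain ⟨a, ha⟩ := surjT (fn ρ f ⊤)
    exact ⟨a, (hι.comp hv) (by
      change (ι.comp v) (QA.π a) = ι (v f)
      rw [hQA, ha, hε])⟩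
  refine hHH R _ QA β (tf ⊤) (cpl ⊤) sA (fun a b c hc => iA a b c _ _ rfl rfl hc) ιu u hu ?_
  obtain ⟨a, ha, ha'⟩ := comms_transfer (φ k0) ((trMk _ 5).comp (rb B (le_top : W ≤ ⊤))) 4 S
    (fun m hm => by
      choose b hb1 hb2 using fun k => hφ1 k m (hS m hm k)
      choose b' hb' using hb1
      have hb'' : ∀ k, rb B (hWle k) (b' k) = b k := hb'
      obtain ⟨a, ha⟩ := glue 4 b' fun k l => by
        refine dvres _ W (hWle2 k l) hW 4 _ ?_
        rw [resB_eq, resB_eq, resB_eq, map_sub, rb_rb, rb_rb, hb'', hb'',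
          ← dv_trMk (N := 5) (by norm_num), map_sub, ← hb2, ← hb2]
        exact hφ2 k l m
      refine ⟨a, ?_⟩
      have := ((ha k0).map (rb B (hWle k0))).map (trMk _ 5)
      rw [resB_eq, map_sub, rb_rb, hb'', map_sub, ← hb2] at this
      exact this) hS3
  have h4 : Dv 4 (a - hb ^ 3 • (1 : B.obj (op ⊤))) := by
    refine dvres ⊤ W le_top hW 4 _ ?_
    rw [resB_eq, ← dv_trMk (N := 5) (by norm_num)]
    simpa only [map_sub, map_smul, map_one, AlgHom.comp_apply] using ha'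
  obtain ⟨r, hr⟩ := h4
  refine ⟨3, -r, ?_⟩
  have : hb ^ 3 • (1 : B.obj (op ⊤)) - hb ^ (3 + 1) • -r = a := by
    rw [smul_neg, sub_neg_eq_add, ← hr, add_sub_cancel]
  rw [this]
  exact ha

end Pool.Agent.MP_86c931_ag.H56
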