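import Pool.Agent.MP_86c931_ag.H56.RowsD

namespace Pool.Agent.MP_86c931_ag.H56

open MvPolynomial

/-! ### Structure of the invariants -/

/-- evaluation of polynomials -/
noncomputable def aev {τ A : Type} [CommRing A] [Algebra ℂ A] (f : τ → A) :
    MvPolynomial τ ℂ →ₐ[ℂ] A := aeval f

lemma aev_X {τ A : Type} [CommRing A] [Algebra ℂ A] (f : τ → A) (s : τ) : aev f (X s) = f s :=
  aeval_X _ _

lemma aev_C {τ A : Type} [CommRing A] [Algebra ℂ A] (f : τ → A) (c : ℂ) :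
    aev f (C c) = algebraMap ℂ A c := aeval_C _ _

lemma clear_PIb {I : Finset K6} {k : K6} (hk : k ∈ I) {p : F} (hp : p ∈ PIb I) :
    ∃ j : ℕ, p * (∏ l ∈ I, zF 0 l / zF 0 k) ^ j ∈ PIb {k} := by
  have hk' := Finset.mem_singleton_self k
  set A := ∏ l ∈ I, zF 0 l / zF 0 k with hA
  have hAm : A ∈ PIb {k} := Subalgebra.prod_mem _ fun l _ => zt_mem hk' (0, l)
  rw [PIb_eq hk] at hp
  induction hp using Algebra.adjoin_induction with
  | mem x hx =>
    rcases hx with ((⟨s, rfl⟩ | rfl) | rfl) | ⟨l, hl, rfl⟩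
    · exact ⟨0, by simpa using zt_mem hk' s.1⟩
    · exact ⟨0, by simpa using Hk_mem hk'⟩
    · exact ⟨0, by simpa using Ek_mem hk'⟩
    · refine ⟨1, ?_⟩
      have h1 := zF_ne_zero 0 k
      have h2 := zF_ne_zero 0 l
      have : zt l (0, k) * (zF 0 l / zF 0 k) = 1 := by rw [zt_0]; field_simp
      rw [pow_one, hA, ← Finset.mul_prod_erase I _ hl, ← mul_assoc, this, one_mul]
      exact Subalgebra.prod_mem _ fun l _ => zt_mem hk' (0, l)
  | algebraMap c => exact ⟨0, by simp⟩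
  | add x y _ _ hx hy =>
    obtain ⟨i, hi⟩ := hx
    obtain ⟨j, hj⟩ := hy
    refine ⟨i + j, ?_⟩
    have : (x + y) * A ^ (i + j) = x * A ^ i * A ^ j + y * A ^ j * A ^ i := by ring
    rw [this]
    exact add_mem (mul_mem hi (pow_mem hAm j)) (mul_mem hj (pow_mem hAm i))
  | mul x y _ _ hx hy =>
    obtain ⟨i, hi⟩ := hx
    obtain ⟨j, hj⟩ := hy
    refine ⟨i + j, ?_⟩
    have : x * y * A ^ (i + j) = x * A ^ i * (y * A ^ j) := by ring
    rw [this]
    exact mul_mem hi hj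

lemma aev_mem (k : K6) (q : MvPolynomial (Sk k) ℂ) :
    aev (fun s : Sk k => zt k s.1) q ∈ PIb {k} := by
  induction q using MvPolynomial.induction_on with
  | C c => rw [aev_C]; exact (PIb {k}).algebraMap_mem c
  | add p q hp hq => rw [map_add]; exact add_mem hp hq
  | mul_X p s hp => rw [map_mul, aev_X]; exact mul_mem hp (zt_mem (Finset.mem_singleton_self k) _)

lemma exists_aev (k : K6) (q : MvPolynomial (Sk k) ℂ) : ∃ pb : Pab,
    (pb : F) = aev (fun s : Sk k => zt k s.1) q ∧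
      mkO pb = aev (fun s : Sk k => mkO (ztb k s.1)) q := by
  induction q using MvPolynomial.induction_on with
  | C c => exact ⟨algebraMap ℂ Pab c, by rw [aev_C]; rfl, by rw [aev_C, mkO.commutes]⟩
  | add p q hp hq =>
    obtain ⟨a, ha, ha'⟩ := hp
    obtain ⟨b, hb', hb''⟩ := hq
    exact ⟨a + b, by rw [map_add, ← ha, ← hb']; rfl, by rw [map_add, map_add, ha', hb'']⟩
  | mul_X p s hp =>
    obtain ⟨a, ha, ha'⟩ := hp
    exact ⟨a * ztb k s.1, by rw [map_mul, ← ha, aev_X]; rfl,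
      by rw [map_mul, map_mul, ha', aev_X]⟩

lemma decomp_PIb (k : K6) {p : F} (hp : p ∈ PIb {k}) :
    ∃ (q : MvPolynomial (Sk k) ℂ), ∃ a ∈ PIb {k}, ∃ b ∈ PIb {k},
      p = aev (fun s : Sk k => zt k s.1) q + a * Ek k + b * Hk k := by
  have hk' := Finset.mem_singleton_self k
  have hq := aev_mem k
  rw [PIb_eq hk'] at hp
  induction hp using Algebra.adjoin_induction with
  | mem x hx =>
    rcases hx with ((⟨s, rfl⟩ | rfl) | rfl) | ⟨l, hl, rfl⟩
    · exact ⟨X s, 0, zero_mem _, 0, zero_mem _, by simp [aev_X]⟩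
    · exact ⟨0, 0, zero_mem _, 1, one_mem _, by simp⟩
    · exact ⟨0, 1, one_mem _, 0, zero_mem _, by simp⟩
    · obtain rfl : l = k := by simpa using hl
      exact ⟨1, 0, zero_mem _, 0, zero_mem _, by simp [zt_0_self]⟩
  | algebraMap c => exact ⟨C c, 0, zero_mem _, 0, zero_mem _, by simp⟩
  | add x y _ _ hx hy =>
    obtain ⟨q, a, ha, b, hb', rfl⟩ := hx
    obtain ⟨q', a', ha', b', hb'', rfl⟩ := hy
    exact ⟨q + q', a + a', add_mem ha ha', b + b', add_mem hb' hb'', by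
      rw [map_add]; ring⟩
  | mul x y hx' hy' hx hy =>
    obtain ⟨q, a, ha, b, hb', rfl⟩ := hx
    obtain ⟨q', a', ha', b', hb'', hy⟩ := hy
    have hy'' : y ∈ PIb {k} := adjoin_gens_le hk' hy'
    refine ⟨q * q', a * y + _ * a', add_mem (mul_mem ha hy'') (mul_mem (hq q) ha'),
      b * y + _ * b', add_mem (mul_mem hb' hy'') (mul_mem (hq q) hb''), ?_⟩
    rw [map_mul]
    linear_combination (aev (fun s : Sk k => zt k s.1) q) * hy

theorem rowSTR (hind : ∀ (k : K6) (q : MvPolynomial (Sk k) ℂ),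
    aev (fun s : Sk k => mkO (ztb k s.1)) q = 0 → q = 0) : RowSTR := by
  intro I k hk p hp
  obtain ⟨j, hj⟩ := clear_PIb hk hp
  refine ⟨⟨j, hj⟩, fun hJ => ?_⟩
  have hk' := Finset.mem_singleton_self k
  have hle : PIb {k} ≤ PIb I := inf_le_inf_right _ (PI_mono (by simpa using hk))
  obtain ⟨q, a, ha, b, hb', h⟩ := decomp_PIb k hj
  have hAm : (∏ l ∈ I, zF 0 l / zF 0 k) ∈ PIb {k} :=
    Subalgebra.prod_mem _ fun l _ => zt_mem hk' (0, l)
  have hq : q = 0 := by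
    refine hind k q ?_
    obtain ⟨pb, hpb, hpb'⟩ := exists_aev k q
    rw [← hpb', mkO_eq_zero, hpb]
    have h1 : p * (∏ l ∈ I, zF 0 l / zF 0 k) ^ j ∈ JF := by
      rw [mul_comm]; exact JF_mul (PIb_le _ (pow_mem hAm j)).1 hJ
    have h2 := JF.sub_mem (JF.sub_mem h1 (JF_mul (PIb_le _ hb').1 (Hk_mem_JF k)))
      (JF_mul (PIb_le _ ha).1 (JeF_le (Ek_mem_JeF k)))
    rwa [h, add_sub_cancel_right, add_sub_cancel_right] at h2
  rw [hq, map_zero, zero_add] at h
  have hinv : (∏ l ∈ I, zt l (0, k)) ∈ PIb I := Subalgebra.prod_mem _ fun l hl => zt_mem hl _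
  have hone : (∏ l ∈ I, zF 0 l / zF 0 k) * ∏ l ∈ I, zt l (0, k) = 1 := by
    rw [← Finset.prod_mul_distrib]
    refine Finset.prod_eq_one fun l _ => ?_
    have h1 := zF_ne_zero 0 k
    have h2 := zF_ne_zero 0 l
    rw [zt_0]; field_simp
  refine ⟨a * (∏ l ∈ I, zt l (0, k)) ^ j, mul_mem (hle ha) (pow_mem hinv j),
    b * (∏ l ∈ I, zt l (0, k)) ^ j, mul_mem (hle hb') (pow_mem hinv j), ?_⟩
  change p = _ * Ek k + _ * Hk k
  have : p = p * (∏ l ∈ I, zF 0 l / zF 0 k) ^ j * (∏ l ∈ I, zt l (0, k)) ^ j := by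
    rw [mul_assoc, ← mul_pow, hone, one_pow, mul_one]
  rw [this, h]
  ring

end Pool.Agent.MP_86c931_ag.H56
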