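import Pool.Agent.MP_86c931_ag.H56.FinA
import Pool.Agent.MP_86c931_ag.H56.Data
import Pool.Agent.MP_86c931_ag.H56.Str
import Pool.Agent.MP_86c931_ag.H37.CMP
import Pool.Agent.MP_86c931_ag.H19.GEO
import Pool.Agent.MP_86c931_ag.H50.HP
import Pool.Agent.MP_86c931_ag.H72.BL
import Pool.Agent.MP_86c931_ag.H57.ISO
import Pool.Agent.MP_86c931_ag.H98.EXM
import Pool.Agent.MP_86c931_ag.H98.UL
import Pool.Agent.MP_86c931_ag.H98.REG
import Pool.Agent.MP_86c931_ag.H88.MOD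
import Pool.Agent.MP_86c931_ag.H69.CECH
import Pool.Agent.MP_86c931_ag.H85.INV
import Pool.Agent.MP_86c931_ag.H82.FIS
import Pool.Agent.MP_86c931_ag.H78.POIN
import Pool.Agent.MP_86c931_ag.H78.TR
import Pool.Agent.MP_86c931_ag.H41.EXS
import Pool.Agent.MP_86c931_ag.H39.DARB
import Pool.Agent.MP_86c931_ag.H39.HH
import Pool.Agent.MP_86c931_ag.H31.STAR
import Pool.Agent.MP_86c931_ag.H30.SH

/-! Assembly. -/

namespace Pool.Agent.MP_86c931_ag.H56

open AlgebraicGeometry CategoryTheory TopologicalSpace Opposite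
open scoped PowerSeries

lemma darboux_abs {O K R : Type} [CommRing O] [Algebra ℂ O] [Field K] [Algebra ℂ K] [CommRing R]
    [Algebra ℂ R] {ι : O →ₐ[ℂ] K} (hι : Function.Injective ι) (v : R →ₐ[ℂ] O)
    (β : R → R → R) (βO : O → O → O) (hβ : ∀ f g, v (β f g) = βO (v f) (v g))
    {Y : Scheme.{0}} [IsIntegral Y] (ρ : Y ⟶ Spec (CommRingCat.of R))
    {ε : Y.functionField →+* K}
    (hε : ∀ (f : R) (V : Y.Opens) (h : gp Y ∈ V), ε (emb V h (fn ρ f V)) = ι (v f))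
    {U : Y.Opens} {hU : gp Y ∈ U} {O' : Subalgebra ℂ O} (H : Im ι ε U hU O') {n : ℕ}
    (e : O' ≃ₐ[ℂ] MvPolynomial (Fin n ⊕ Fin n) ℂ)
    (he : ∀ f g h : O', (h : O) = βO f g → e h = stdBr (e f) (e g)) :
    ∃ e' : Γ(Y, U) ≃+* MvPolynomial (Fin n ⊕ Fin n) ℂ,
      (∀ c : ℂ, e' (fn ρ (algebraMap ℂ R c) U) = MvPolynomial.C c) ∧
      ∀ f g : R, e' (fn ρ (β f g) U) = stdBr (e' (fn ρ f U)) (e' (fn ρ g U)) := by
  have hι' : Function.Injective (ι.comp O'.val) := hι.comp Subtype.val_injective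
  obtain ⟨p, hp⟩ := exists_lift (ι := ι.comp O'.val) hι' (ε.comp (emb U hU)) fun s => by
    obtain ⟨g, hg, hg'⟩ := (H _).2 ⟨s, rfl⟩
    exact ⟨⟨g, hg⟩, hg'⟩
  have hp' : ∀ s, ι (p s) = ε (emb U hU s) := hp
  have hbij : Function.Bijective p := by
    refine ⟨fun s t h => emb_inj U hU (ε.injective (by rw [← hp', ← hp', h])), fun g => ?_⟩
    obtain ⟨s, hs⟩ := (H _).1 ⟨g.1, g.2, rfl⟩
    exact ⟨s, Subtype.ext (hι ((hp' s).trans hs))⟩
  have hfn : ∀ f : R, (p (fn ρ f U) : O) = v f := fun f => hι (by rw [hp', hε])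
  refine ⟨(RingEquiv.ofBijective p hbij).trans e.toRingEquiv, fun c => ?_, fun f g => ?_⟩
  · change e (p _) = _
    have : p (fn ρ (algebraMap ℂ R c) U) = algebraMap ℂ O' c :=
      Subtype.ext (by rw [hfn, v.commutes]; rfl)
    rw [this, e.commutes]
    rfl
  · exact he _ _ _ (by
      change (p _ : O) = βO (p _) (p _)
      rw [hfn, hfn, hfn, hβ])

lemma exists_field (A : Type) [CommRing A] [IsDomain A] [Algebra ℂ A] :
    ∃ (K : Type) (_ : Field K) (_ : Algebra ℂ K) (ι : A →ₐ[ℂ] K), Function.Injective ι :=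
  ⟨FractionRing A, inferInstance, inferInstance, IsScalarTower.toAlgHom ℂ A (FractionRing A),
    IsFractionRing.injective A (FractionRing A)⟩

theorem goal : Goal := by
  have hC : RowCECH := H69.rowCECH H98.rowREG H82.rowFIS H85.rowINV rowLIFT
  obtain ⟨hdom, hnorm, hchart, hconst, hind⟩ :=
    H57.rowISO H78.rowPOIN K6 Sk Ot O (cdata hC) 7 card_Sk
  have hSTR : RowSTR := rowSTR hind
  obtain ⟨hHP, ⟨u, hu⟩, hFT⟩ := H50.rowHP H82.rowFIS H85.rowINV hC.2.2 hdom hconst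
  obtain ⟨K, _, _, ι, hι⟩ := exists_field O
  obtain ⟨r, hr0, hr2, hrO, hra, hfrac⟩ := H72.rowBL K ι hι
  have hv : Function.Injective (OI ∅).val := Subtype.val_injective
  let ιR : R0 →ₐ[ℂ] K := ι.comp (OI ∅).val
  have hιR : Function.Injective ιR := fun a b h => hv (hι h)
  obtain ⟨Y, _, ρ, U, ε, hU, hprop, hbir, haff, hcov, hε, hIm, hs⟩ :=
    H19.rowGEO K R0 ιR hιR hFT (K6 ⊕ K6 × K6) K6 r Sum.inl hr0 hr2
  have hIm0 : ∀ k (z : K), z ∈ (OI {k}).map ι ↔ ∃ s, ε (emb (U k) (hU k) s) = z := fun k z => by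
    rw [hrO k]; exact hIm k z
  have hIm' : ∀ k, Im ι ε (U k) (hU k) ((cdata hC).Ok k) := fun k => by
    rw [cdata_Ok]; exact hIm0 k
  rw [iInf_OI] at hnorm
  refine ⟨R0, inferInstance, inferInstance, brR, Y, ρ, inferInstance, hnorm, hFT, brR_poisson,
    inferInstance, fun y => ?_, hprop, hbir, hHP, ?_, fun B π hQ => ?_⟩
  · obtain ⟨k, hk⟩ := hcov y
    obtain ⟨e, he⟩ := hchart k
    exact ⟨U k, hk, haff k, darboux_abs hι (OI ∅).val brR brO brR_coe ρ hε (hIm' k) e he⟩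
  · obtain ⟨M, _, _, Q, Sb, tf, cpl, ind, mono, hSb⟩ :=
      H98.rowEXM H31.rowSTAR H98.rowREG hSTR K ι hι
    exact H41.rowEXS R0 K M brR ιR Y ρ ε hε K6 U hU (fun k => (OI {k}).map ι)
      haff hcov hIm0 Q Sb tf cpl (fun a b c f g ha hb' hc => ind a b c f g ha hb' hc) mono hSb
  · obtain ⟨M, _, _, QM, MI, Hq, tf, ind, sM, mono, hMI, hH1, ⟨p, hp, hH2⟩, hH3, h3⟩ :=
      H88.rowMOD H31.rowSTAR H78.rowTR H98.rowREG
    exact vanish_abs H30.rowSH (H37.rowCMP H78.rowPOIN H39.rowDARB H98.rowUL) H39.rowEXT H39.rowHH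
      k0 (cdata hC) ι hι (OI ∅).val hv
      (fun f hf => ⟨⟨f, hC.2.1 f fun k => cdata_Ok hC k ▸ hf k⟩, rfl⟩) brR brR_coe
      (fun f => by
        obtain ⟨a, b, hb', hab⟩ := hfrac f
        exact ⟨a, b, hb', hab⟩) u hu QM tf ind sM (fun k => MI {k}) (fun k l => MI {k, l})
      (fun k => by rw [cdata_Otk]; exact hMI _) (fun k l => by rw [cdata_Otkl]; exact hMI _)
      (fun k l => ⟨mono (by simp), mono (by simp)⟩) Hq hH1 (hH2.trans (mkt_eq_Ht hp)) hH3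
      (MI ∅) (fun m hm k => mono (Finset.empty_subset _) hm) h3 ρ U ε hU haff hcov hε hIm'
      (fun k l => by
        obtain ⟨s, h1, h2⟩ := hs k l
        exact ⟨s, h1.trans (hra k l), h2⟩) B π hQ

end Pool.Agent.MP_86c931_ag.H56
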