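import Pool.Agent.MP_86c931_ag.H56.Spec

/-! Deformations of commutative algebras: basic notions and truncation. -/

namespace Pool.Agent.MP_86c931_ag.H56

open scoped PowerSeries

/-- the deformation parameter -/
noncomputable abbrev hb : ℂ⟦X⟧ := PowerSeries.X

section basic

variable {C : Type} [Ring C] [Algebra ℂ⟦X⟧ C]

/-- divisibility by a power of the parameter -/
def Dv (n : ℕ) (c : C) : Prop := ∃ d : C, c = hb ^ n • d

variable (C) in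
/-- no torsion -/
def TF : Prop := ∀ c : C, hb • c = 0 → c = 0

variable (C) in
/-- complete and separated -/
def SeqComplete : Prop :=
  ∀ u : ℕ → C, (∀ n, Dv n (u n - u (n + 1))) → ∃! t, ∀ n, Dv n (t - u n)

/-- a subalgebra closed under limits -/
def SeqClosed (C' : Subalgebra ℂ⟦X⟧ C) : Prop :=
  ∀ (t : C) (u : ℕ → C), (∀ n, u n ∈ C') → (∀ n, Dv n (t - u n)) → t ∈ C'

/-- the span of the commutators of elements of a set -/
noncomputable def comms (S : Set C) : Submodule ℂ⟦X⟧ C :=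
  Submodule.span ℂ⟦X⟧ {w | ∃ a ∈ S, ∃ b ∈ S, w = a * b - b * a}

lemma Dv.zero (n : ℕ) : Dv n (0 : C) := ⟨0, by simp⟩

lemma Dv.triv (c : C) : Dv 0 c := ⟨c, by simp⟩

lemma Dv.add {n : ℕ} {a b : C} (ha : Dv n a) (hb' : Dv n b) : Dv n (a + b) := by
  obtain ⟨a, rfl⟩ := ha
  obtain ⟨b, rfl⟩ := hb'
  exact ⟨a + b, (smul_add _ _ _).symm⟩

lemma Dv.neg {n : ℕ} {a : C} (ha : Dv n a) : Dv n (-a) := by
  obtain ⟨a, rfl⟩ := ha
  exact ⟨-a, (smul_neg _ _).symm⟩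

lemma Dv.sub {n : ℕ} {a b : C} (ha : Dv n a) (hb' : Dv n b) : Dv n (a - b) := by
  rw [sub_eq_add_neg]; exact ha.add hb'.neg

lemma Dv.mul_left {n : ℕ} {a : C} (ha : Dv n a) (c : C) : Dv n (c * a) := by
  obtain ⟨a, rfl⟩ := ha
  exact ⟨c * a, mul_smul_comm _ _ _⟩

lemma Dv.mul_right {n : ℕ} {a : C} (ha : Dv n a) (c : C) : Dv n (a * c) := by
  obtain ⟨a, rfl⟩ := ha
  exact ⟨a * c, smul_mul_assoc _ _ _⟩

lemma Dv.smul {n : ℕ} {a : C} (ha : Dv n a) (c : ℂ⟦X⟧) : Dv n (c • a) := by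
  obtain ⟨a, rfl⟩ := ha
  exact ⟨c • a, smul_comm _ _ _⟩

lemma Dv.mono {n m : ℕ} {a : C} (ha : Dv n a) (h : m ≤ n) : Dv m a := by
  obtain ⟨a, rfl⟩ := ha
  obtain ⟨k, rfl⟩ := Nat.exists_eq_add_of_le h
  exact ⟨hb ^ k • a, by rw [pow_add, mul_smul]⟩

lemma Dv.pow_smul (n : ℕ) (a : C) : Dv n (hb ^ n • a) := ⟨a, rfl⟩

lemma Dv.hb_smul {n : ℕ} {a : C} (ha : Dv n a) : Dv (n + 1) (hb • a) := by
  obtain ⟨a, rfl⟩ := ha
  exact ⟨a, by rw [pow_succ', mul_smul]⟩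

lemma Dv.sum {ι : Type*} {n : ℕ} (s : Finset ι) (f : ι → C) (h : ∀ i ∈ s, Dv n (f i)) :
    Dv n (∑ i ∈ s, f i) :=
  Finset.sum_induction f (Dv n) (fun _ _ => Dv.add) (Dv.zero n) h

lemma Dv.map {C' : Type} [Ring C'] [Algebra ℂ⟦X⟧ C'] (φ : C →ₐ[ℂ⟦X⟧] C') {n : ℕ} {a : C}
    (ha : Dv n a) : Dv n (φ a) := by
  obtain ⟨a, rfl⟩ := ha
  exact ⟨φ a, map_smul φ _ _⟩

lemma TF.pow (h : TF C) (n : ℕ) (c : C) (hc : hb ^ n • c = 0) : c = 0 := by
  induction n generalizing c with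
  | zero => simpa using hc
  | succ n ih => exact ih c (h _ (by rwa [pow_succ', mul_smul] at hc))

lemma TF.dv_of_smul (h : TF C) {n m : ℕ} {c : C} (hc : Dv (m + n) (hb ^ m • c)) : Dv n c := by
  obtain ⟨d, hd⟩ := hc
  refine ⟨d, sub_eq_zero.1 (h.pow m _ ?_)⟩
  rw [smul_sub, hd, pow_add, mul_smul, sub_self]

variable (C) in
/-- the ideal generated by a power of the parameter -/
def tIdeal (N : ℕ) : Ideal C where
  carrier := {c | Dv N c}
  add_mem' := Dv.add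
  zero_mem' := Dv.zero N
  smul_mem' c _ h := h.mul_left c

instance (N : ℕ) : (tIdeal C N).IsTwoSided := ⟨fun c h => Dv.mul_right h c⟩

variable (C) in
/-- truncation -/
abbrev Tr (N : ℕ) : Type := C ⧸ tIdeal C N

variable (C) in
/-- the quotient map to the truncation -/
noncomputable def trMk (N : ℕ) : C →ₐ[ℂ⟦X⟧] Tr C N := Ideal.Quotient.mkₐ ℂ⟦X⟧ (tIdeal C N)

lemma trMk_surj (N : ℕ) : Function.Surjective (trMk C N) := Ideal.Quotient.mkₐ_surjective _ _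

lemma trMk_eq_zero {N : ℕ} {c : C} : trMk C N c = 0 ↔ Dv N c := Ideal.Quotient.eq_zero_iff_mem

lemma trMk_eq {N : ℕ} {a b : C} : trMk C N a = trMk C N b ↔ Dv N (a - b) := by
  rw [← trMk_eq_zero, map_sub, sub_eq_zero]

lemma dv_trMk {N n : ℕ} (h : n ≤ N) {c : C} : Dv n (trMk C N c) ↔ Dv n c := by
  refine ⟨?_, fun h => h.map _⟩
  rintro ⟨d, hd⟩
  obtain ⟨d, rfl⟩ := trMk_surj N d
  rw [← map_smul, trMk_eq] at hd
  have := (hd.mono h).add (Dv.pow_smul n d)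
  rwa [sub_add_cancel] at this

end basic

/-- an algebra over `ℂ⟦h⟧` with a reduction map to a commutative algebra whose kernel is
generated by `h` -/
structure PQ (O C : Type) [CommRing O] [Algebra ℂ O] [Ring C] [Algebra ℂ⟦X⟧ C] where
  /-- the reduction -/
  π : C →+* O
  π_alg : ∀ c : ℂ⟦X⟧, π (algebraMap ℂ⟦X⟧ C c) = algebraMap ℂ O (PowerSeries.constantCoeff c)
  ker : ∀ c, π c = 0 → ∃ d, c = hb • d

namespace PQ

variable {O C : Type} [CommRing O] [Algebra ℂ O] [Ring C] [Algebra ℂ⟦X⟧ C] (Q : PQ O C)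

/-- flat over `ℂ[h]/h^N` -/
def Trunc (N : ℕ) : Prop :=
  (∀ c : C, hb ^ N • c = 0) ∧ ∀ n < N, ∀ c : C, hb ^ n • c = 0 → Q.π c = 0

/-- the commutator induces the bracket `β` -/
def Induces (β : O → O → O) : Prop :=
  ∀ a b c : C, a * b - b * a = hb • c → Q.π c = β (Q.π a) (Q.π b)

/-- the commutator induces the bracket `β` on the image of `ι` -/
def InducesVia {O' : Type} (ι : O' → O) (β : O' → O' → O') : Prop :=
  ∀ (a b c : C) (f g : O'), Q.π a = ι f → Q.π b = ι g → a * b - b * a = hb • c →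
    Q.π c = ι (β f g)

/-- a subalgebra deforming a subalgebra -/
structure Sub (O' : Subalgebra ℂ O) (C' : Subalgebra ℂ⟦X⟧ C) : Prop where
  map_mem : ∀ c ∈ C', Q.π c ∈ O'
  surj : ∀ f ∈ O', ∃ c ∈ C', Q.π c = f
  ker : ∀ c ∈ C', Q.π c = 0 → ∃ d ∈ C', c = hb • d

lemma π_smul (c : ℂ⟦X⟧) (a : C) : Q.π (c • a) = PowerSeries.constantCoeff c • Q.π a := by
  rw [Algebra.smul_def, map_mul, Q.π_alg, Algebra.smul_def]

lemma π_hb_smul (a : C) : Q.π (hb • a) = 0 := by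
  rw [π_smul, PowerSeries.constantCoeff_X, zero_smul]

lemma π_dv {n : ℕ} {a : C} (h : Dv (n + 1) a) : Q.π a = 0 := by
  obtain ⟨a, rfl⟩ := h
  rw [pow_succ', mul_smul, π_hb_smul]

lemma dv_one {a : C} (h : Q.π a = 0) : Dv 1 a := by
  obtain ⟨d, hd⟩ := Q.ker a h
  exact ⟨d, by rw [pow_one]; exact hd⟩

include Q in
lemma comm_dv (a b : C) : ∃ c, a * b - b * a = hb • c :=
  Q.ker _ (by rw [map_sub, map_mul, map_mul, mul_comm, sub_self])

lemma sub_top (h : Function.Surjective Q.π) : Q.Sub ⊤ ⊤ :=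
  ⟨fun _ _ => trivial, fun f _ => by
    obtain ⟨c, hc⟩ := h f
    exact ⟨c, trivial, hc⟩, fun c _ hc => by
    obtain ⟨d, hd⟩ := Q.ker c hc
    exact ⟨d, trivial, hd⟩⟩

variable {Q}

/-- division inside a subalgebra, torsion free case -/
lemma Sub.dv_tf {O' : Subalgebra ℂ O} {C' : Subalgebra ℂ⟦X⟧ C} (h : Q.Sub O' C') (tf : TF C)
    {n : ℕ} {c : C} (hc : c ∈ C') (hd : Dv n c) : ∃ d ∈ C', c = hb ^ n • d := by
  induction n with
  | zero => exact ⟨c, hc, by simp⟩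
  | succ n ih =>
    obtain ⟨d, hd', rfl⟩ := ih (hd.mono n.le_succ)
    obtain ⟨e, he, rfl⟩ := h.ker d hd' (Q.π_dv (n := 0) (tf.dv_of_smul hd))
    exact ⟨e, he, by rw [pow_succ, mul_smul]⟩

/-- division inside a subalgebra, truncated case -/
lemma Sub.dv_trunc {O' : Subalgebra ℂ O} {C' : Subalgebra ℂ⟦X⟧ C} (h : Q.Sub O' C') {N : ℕ}
    (hN : Q.Trunc N) {n : ℕ} (hn : n ≤ N) {c : C} (hc : c ∈ C') (hd : Dv n c) :
    ∃ d ∈ C', c = hb ^ n • d := by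
  induction n with
  | zero => exact ⟨c, hc, by simp⟩
  | succ n ih =>
    obtain ⟨d, hd', rfl⟩ := ih (n.le_succ.trans hn) (hd.mono n.le_succ)
    obtain ⟨e, he⟩ := hd
    have h0 : Q.π (d - hb • e) = 0 :=
      hN.2 n hn _ (by rw [smul_sub, he, pow_succ, mul_smul, sub_self])
    rw [map_sub, π_hb_smul, sub_zero] at h0
    obtain ⟨e', he', rfl⟩ := h.ker d hd' h0
    exact ⟨e', he', by rw [pow_succ, mul_smul]⟩

variable (Q)

/-- truncation of a deformation -/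
noncomputable def trunc (N : ℕ) : PQ O (Tr C (N + 1)) where
  π := Ideal.Quotient.lift (tIdeal C (N + 1)) Q.π fun _ h => Q.π_dv h
  π_alg c := Q.π_alg c
  ker c hc := by
    obtain ⟨c, rfl⟩ := trMk_surj _ c
    obtain ⟨d, rfl⟩ := Q.ker c hc
    exact ⟨trMk C _ d, map_smul _ _ _⟩

lemma trunc_π (N : ℕ) (c : C) : (Q.trunc N).π (trMk C (N + 1) c) = Q.π c := rfl

lemma trunc_Trunc (tf : TF C) (N : ℕ) : (Q.trunc N).Trunc (N + 1) := by
  refine ⟨fun c => ?_, fun n hn c hc => ?_⟩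
  · obtain ⟨c, rfl⟩ := trMk_surj _ c
    rw [← map_smul, trMk_eq_zero]
    exact Dv.pow_smul _ _
  · obtain ⟨c, rfl⟩ := trMk_surj _ c
    rw [← map_smul, trMk_eq_zero] at hc
    obtain ⟨k, hk⟩ := Nat.exists_eq_add_of_lt hn
    rw [hk, add_assoc] at hc
    exact Q.π_dv (tf.dv_of_smul hc)

variable {Q}

lemma Induces.trunc {β : O → O → O} (h : Q.Induces β) (N : ℕ) : (Q.trunc (N + 1)).Induces β := by
  intro a b c hc
  obtain ⟨a, rfl⟩ := trMk_surj _ a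
  obtain ⟨b, rfl⟩ := trMk_surj _ b
  obtain ⟨c, rfl⟩ := trMk_surj _ c
  rw [← map_mul, ← map_mul, ← map_sub, ← map_smul, trMk_eq] at hc
  obtain ⟨d, hd⟩ := hc
  have := h a b (c + hb ^ (N + 1) • d) (by
    rw [smul_add, smul_smul, ← pow_succ', ← hd, add_sub_cancel])
  rw [map_add, Q.π_dv (Dv.pow_smul _ d), add_zero] at this
  exact this

lemma Sub.trunc {O' : Subalgebra ℂ O} {C' : Subalgebra ℂ⟦X⟧ C} (h : Q.Sub O' C') (N : ℕ) :
    (Q.trunc N).Sub O' (C'.map (trMk C (N + 1))) := by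
  refine ⟨?_, fun f hf => ?_, ?_⟩
  · rintro _ ⟨c, hc, rfl⟩
    exact h.map_mem c hc
  · obtain ⟨c, hc, rfl⟩ := h.surj f hf
    exact ⟨_, ⟨c, hc, rfl⟩, rfl⟩
  · rintro _ ⟨c, hc, rfl⟩ h0
    obtain ⟨d, hd, rfl⟩ := h.ker c hc h0
    exact ⟨_, ⟨d, hd, rfl⟩, map_smul (trMk C (N + 1)) _ _⟩

end PQ

end Pool.Agent.MP_86c931_ag.H56
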