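import Pool.Agent.MP_86c931_ag.H56.RowsA

/-! General facts on Poisson brackets and derivations. -/

namespace Pool.Agent.MP_86c931_ag.H56

section ext

/-- extension of a derivation to the field of fractions -/
lemma exists_der_frac {A L : Type} [CommRing A] [IsDomain A] [Field L] [Algebra A L]
    [IsFractionRing A L] [Algebra ℂ A] [Algebra ℂ L] [IsScalarTower ℂ A L]
    (d : Derivation ℂ A A) :
    ∃ δ : Derivation ℂ L L, ∀ a, δ (algebraMap A L a) = algebraMap A L (d a) := by
  let φ0 : A → TrivSqZeroExt L L := fun a => (algebraMap A L a, algebraMap A L (d a))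
  have h2' : ∀ b, (φ0 b).fst = algebraMap A L b := fun b => rfl
  have h3' : ∀ b, (φ0 b).snd = algebraMap A L (d b) := fun b => rfl
  let φ : A →+* TrivSqZeroExt L L :=
    { toFun := φ0
      map_one' := by
        ext
        · rw [h2', map_one, TrivSqZeroExt.fst_one]
        · rw [h3', d.map_one_eq_zero, map_zero, TrivSqZeroExt.snd_one]
      map_mul' := fun a b => by
        ext
        · rw [h2', map_mul, TrivSqZeroExt.fst_mul, h2', h2']
        · rw [h3', TrivSqZeroExt.snd_mul, h2', h2', h3', h3', d.leibniz, smul_eq_mul,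
            smul_eq_mul, smul_eq_mul,
            MulOpposite.smul_eq_mul_unop, MulOpposite.unop_op, map_add, map_mul, map_mul,
            mul_comm (algebraMap A L b)]
      map_zero' := by
        ext
        · rw [h2', map_zero, TrivSqZeroExt.fst_zero]
        · rw [h3', map_zero, map_zero, TrivSqZeroExt.snd_zero]
      map_add' := fun a b => by
        ext
        · rw [h2', map_add, TrivSqZeroExt.fst_add, h2', h2']
        · rw [h3', map_add, map_add, TrivSqZeroExt.snd_add, h3', h3'] }
  have h2 : ∀ b, (φ b).fst = algebraMap A L b := h2'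
  have h3 : ∀ b, (φ b).snd = algebraMap A L (d b) := h3'
  have hφ : ∀ y : nonZeroDivisors A, IsUnit (φ y) := fun y => by
    rw [TrivSqZeroExt.isUnit_iff_isUnit_fst, h2]
    exact IsLocalization.map_units L y
  let ψ : L →+* TrivSqZeroExt L L := IsLocalization.lift hφ
  have hψ : ∀ a, ψ (algebraMap A L a) = φ a := fun a => IsLocalization.lift_eq hφ a
  have hfst : ∀ k, (ψ k).fst = k := fun k => by
    obtain ⟨⟨a, b⟩, hab⟩ := IsLocalization.surj (nonZeroDivisors A) k
    have h1 := congrArg (fun z => (ψ z).fst) hab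
    simp only [map_mul, hψ, TrivSqZeroExt.fst_mul, h2] at h1
    rw [← hab] at h1
    exact mul_right_cancel₀ (IsLocalization.map_units L b).ne_zero h1
  have hmul : ∀ a b, (ψ (a * b)).snd = a * (ψ b).snd + b * (ψ a).snd := fun a b => by
    rw [map_mul, TrivSqZeroExt.snd_mul, hfst, hfst, smul_eq_mul, MulOpposite.smul_eq_mul_unop,
      MulOpposite.unop_op, mul_comm b]
  have hA : ∀ a, (ψ (algebraMap A L a)).snd = algebraMap A L (d a) := fun a => by rw [hψ, h3]
  refine ⟨Derivation.mk'
    { toFun := fun k => (ψ k).snd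
      map_add' := fun a b => by simp only [map_add, TrivSqZeroExt.snd_add]
      map_smul' := fun c a => ?_ } (fun a b => hmul a b), hA⟩
  rw [Algebra.smul_def, hmul, IsScalarTower.algebraMap_apply ℂ A L, hA, d.map_algebraMap,
    map_zero, mul_zero, add_zero, RingHom.id_apply, Algebra.smul_def,
    IsScalarTower.algebraMap_apply ℂ A L]

/-- a derivation of the field of fractions is determined on the ring -/
lemma der_frac_ext {A L : Type} [CommRing A] [IsDomain A] [Field L] [Algebra A L]
    [IsFractionRing A L] [Algebra ℂ L] {δ δ' : Derivation ℂ L L}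
    (h : ∀ a, δ (algebraMap A L a) = δ' (algebraMap A L a)) : δ = δ' := by
  ext k
  obtain ⟨a, b, -, rfl⟩ := IsFractionRing.div_surjective A k
  rw [Derivation.leibniz_div, Derivation.leibniz_div, h, h]

end ext

section brk

variable {T : Type} [CommRing T] [Algebra ℂ T] {σ : Type} [Fintype σ]
  (d : σ → Derivation ℂ T T) (dual : σ → σ) (ε : σ → ℂ)

/-- the Hamiltonian derivation -/
noncomputable def ham (f : T) : Derivation ℂ T T := ∑ s, (ε s • d s f) • d (dual s)

lemma der_sum_apply {ι : Type*} (s : Finset ι) (D : ι → Derivation ℂ T T) (g : T) :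
    (∑ i ∈ s, D i) g = ∑ i ∈ s, D i g := by
  classical
  induction s using Finset.induction_on with
  | empty => simp
  | insert a s ha ih => rw [Finset.sum_insert ha, Finset.sum_insert ha, Derivation.add_apply, ih]

lemma ham_apply (f g : T) : ham d dual ε f g = brk d dual ε f g := by
  rw [ham, der_sum_apply, brk]
  refine Finset.sum_congr rfl fun s _ => ?_
  rw [Derivation.smul_apply, smul_eq_mul, smul_mul_assoc]

variable {dual ε}

lemma sum_dual (h1 : ∀ s, dual (dual s) = s) {M : Type*} [AddCommMonoid M] (u : σ → M) :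
    ∑ s, u s = ∑ s, u (dual s) :=
  (Equiv.sum_comp (Function.Involutive.toPerm dual h1) u).symm

lemma brk_antisymm (h1 : ∀ s, dual (dual s) = s) (h2 : ∀ s, ε (dual s) = -ε s) (f g : T) :
    brk d dual ε f g = -brk d dual ε g f := by
  rw [brk, brk, sum_dual h1, ← Finset.sum_neg_distrib]
  refine Finset.sum_congr rfl fun s _ => ?_
  rw [h1, h2, neg_smul, mul_comm]

lemma brk_isPoisson (hd : ∀ s t f, d s (d t f) = d t (d s f)) (h1 : ∀ s, dual (dual s) = s)
    (h2 : ∀ s, ε (dual s) = -ε s) : IsPoisson (brk d dual ε) := by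
  refine ⟨fun f => ⟨ham d dual ε f, fun g => (ham_apply d dual ε f g).symm⟩,
    brk_antisymm d h1 h2, fun f g h => ?_⟩
  let S : T → T → T → T := fun f g h =>
    ∑ s, ∑ t, (ε s * ε t) • (d s f * d t g * d (dual s) (d (dual t) h))
  have hS : ∀ f g h, S f g h = S g f h := fun f g h => by
    simp only [S]
    rw [Finset.sum_comm]
    refine Finset.sum_congr rfl fun s _ => Finset.sum_congr rfl fun t _ => ?_
    rw [mul_comm (ε t), mul_comm (d t f), hd]
  have key : ∀ f g h, brk d dual ε f (brk d dual ε g h) = S f g h - S f h g := fun f g h => by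
    simp only [S]
    rw [brk, ← Finset.sum_sub_distrib]
    refine Finset.sum_congr rfl fun s _ => ?_
    rw [brk, map_sum, Finset.mul_sum, Finset.smul_sum,
      sum_dual h1 (fun t => (ε s * ε t) • (d s f * d t h * d (dual s) (d (dual t) g))),
      ← Finset.sum_sub_distrib]
    refine Finset.sum_congr rfl fun t _ => ?_
    rw [h1, h2, Derivation.map_smul, Derivation.leibniz]
    simp only [smul_eq_mul, Algebra.smul_def, map_mul, map_neg]
    ring
  rw [key, key, key, hS f g h, hS g h f, hS f h g]
  ring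

end brk

section pois

variable {T : Type} [CommRing T] [Algebra ℂ T] {β : T → T → T}

/-- the derivation attached to an element -/
noncomputable def IsPoisson.ad (h : IsPoisson β) (f : T) : Derivation ℂ T T := (h.1 f).choose

lemma IsPoisson.ad_apply (h : IsPoisson β) (f g : T) : h.ad f g = β f g :=
  ((h.1 f).choose_spec g).symm

lemma IsPoisson.anti (h : IsPoisson β) (f g : T) : β f g = -β g f := h.2.1 f g

lemma IsPoisson.leib (h : IsPoisson β) (u f g : T) :
    β u (β f g) = β (β u f) g + β f (β u g) := by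
  have h1 := h.2.2 u f g
  have h2 : β f (β g u) = -β f (β u g) := by
    rw [h.anti g u, ← h.ad_apply, map_neg, h.ad_apply]
  rw [h2, h.anti g (β u f)] at h1
  linear_combination h1

/-- restriction of a derivation to a stable subalgebra -/
noncomputable def derRes (D : Derivation ℂ T T) (A : Subalgebra ℂ T) (hA : ∀ f ∈ A, D f ∈ A) :
    Derivation ℂ A A :=
  Derivation.mk'
    { toFun := fun f => ⟨D f, hA f f.2⟩
      map_add' := fun a b => Subtype.ext (map_add D a.1 b.1)
      map_smul' := fun c a => Subtype.ext (D.map_smul c a.1) }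
    (fun a b => Subtype.ext (D.leibniz a.1 b.1))

lemma derRes_coe (D : Derivation ℂ T T) (A : Subalgebra ℂ T) (hA : ∀ f ∈ A, D f ∈ A) (f : A) :
    (derRes D A hA f : T) = D f := rfl

/-- a derivation preserving an ideal descends to the quotient -/
lemma exists_der_quot (D : Derivation ℂ T T) (I : Ideal T) (hI : ∀ f ∈ I, D f ∈ I) :
    ∃ D' : Derivation ℂ (T ⧸ I) (T ⧸ I),
      ∀ f, D' (Ideal.Quotient.mk I f) = Ideal.Quotient.mk I (D f) := by
  have hd : ∀ x, Ideal.Quotient.mkₐ ℂ I x = 0 → Ideal.Quotient.mkₐ ℂ I (D x) = 0 := fun x hx =>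
    Ideal.Quotient.eq_zero_iff_mem.2 (hI x (Ideal.Quotient.eq_zero_iff_mem.1 hx))
  exact ⟨Derivation.liftOfSurjective (Ideal.Quotient.mkₐ_surjective ℂ I) hd,
    fun f => Derivation.liftOfSurjective_apply (Ideal.Quotient.mkₐ_surjective ℂ I) hd f⟩

/-- restriction of a bracket to a stable subalgebra -/
def brRes (β : T → T → T) (A : Subalgebra ℂ T) (hA : ∀ f ∈ A, ∀ g ∈ A, β f g ∈ A) (f g : A) : A :=
  ⟨β f g, hA f f.2 g g.2⟩

lemma IsPoisson.res (h : IsPoisson β) (A : Subalgebra ℂ T) (hA : ∀ f ∈ A, ∀ g ∈ A, β f g ∈ A) :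
    IsPoisson (brRes β A hA) :=
  ⟨fun f => ⟨derRes (h.ad f) A fun g hg => by rw [h.ad_apply]; exact hA f f.2 g hg,
    fun g => Subtype.ext (h.ad_apply f g).symm⟩, fun f g => Subtype.ext (h.anti f g),
    fun f g k => Subtype.ext (h.2.2 f g k)⟩

/-- a bracket descends to the quotient by a Poisson ideal -/
lemma IsPoisson.exists_quot (h : IsPoisson β) (I : Ideal T) (hI : ∀ f, ∀ g ∈ I, β f g ∈ I) :
    ∃ β' : T ⧸ I → T ⧸ I → T ⧸ I, IsPoisson β' ∧
      ∀ f g, β' (Ideal.Quotient.mk I f) (Ideal.Quotient.mk I g) = Ideal.Quotient.mk I (β f g) := by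
  choose D hD using fun f => exists_der_quot (h.ad f) I fun g hg => by
    rw [h.ad_apply]; exact hI f g hg
  choose sec hsec using Ideal.Quotient.mk_surjective (I := I)
  have key : ∀ f g, D (sec (Ideal.Quotient.mk I f)) (Ideal.Quotient.mk I g) =
      Ideal.Quotient.mk I (β f g) := fun f g => by
    rw [hD, h.ad_apply, Ideal.Quotient.eq, h.anti _ g, h.anti f g, neg_sub_neg, ← h.ad_apply,
      ← h.ad_apply, ← map_sub, h.ad_apply]
    exact hI _ _ (Ideal.Quotient.eq.1 (hsec _).symm)
  refine ⟨fun f g => D (sec f) g, ⟨fun f => ⟨D (sec f), fun _ => rfl⟩, fun f g => ?_,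
    fun f g k => ?_⟩, key⟩
  · obtain ⟨f, rfl⟩ := Ideal.Quotient.mk_surjective f
    obtain ⟨g, rfl⟩ := Ideal.Quotient.mk_surjective g
    simp only [key]
    rw [h.anti, map_neg]
  · obtain ⟨f, rfl⟩ := Ideal.Quotient.mk_surjective f
    obtain ⟨g, rfl⟩ := Ideal.Quotient.mk_surjective g
    obtain ⟨k, rfl⟩ := Ideal.Quotient.mk_surjective k
    simp only [key]
    rw [← map_add, ← map_add, h.2.2, map_zero]

end pois

section slice

variable {T : Type} [CommRing T] [Algebra ℂ T]

open Polynomial in
/-- invariants modulo a stable submodule, in the presence of a slice -/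
lemma slice_lemma (D E : Derivation ℂ T T) (t t' s : T) (htt : t * t' = 1) (hDt : D t = 0)
    (hEt : E t = t) (hDs : D s = 1) (Z : Subalgebra ℂ T) (hZ : ∀ z ∈ Z, D z = 0 ∧ E z = 0)
    (J : Submodule ℂ T) (hJD : ∀ j ∈ J, D j ∈ J) (hJE : ∀ j ∈ J, E j ∈ J)
    (hJs : ∀ j ∈ J, s * j ∈ J) (p : T) (hp : p ∈ Algebra.adjoin ℂ ((Z : Set T) ∪ {t, t'} ∪ {s}))
    (hD : D p ∈ J) (hE : E p ∈ J) : ∃ z ∈ Z, p - z ∈ J := by
  set Y := Algebra.adjoin ℂ ((Z : Set T) ∪ {t, t'}) with hY
  have hDt' : D t' = 0 := by
    rw [D.leibniz_of_mul_eq_one (a := t') (b := t) (by rw [mul_comm, htt]), hDt, smul_zero]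
  have hEt' : E t' = -t' := by
    rw [E.leibniz_of_mul_eq_one (a := t') (b := t) (by rw [mul_comm, htt]), hEt, smul_eq_mul]
    linear_combination (-t') * htt
  have hYD : ∀ y ∈ Y, D y = 0 := fun y hy => by
    have := Derivation.eqOn_adjoin (D1 := D) (D2 := 0) (s := (Z : Set T) ∪ {t, t'}) (by
      rintro u (hu | rfl | rfl)
      · exact (hZ u hu).1
      · exact hDt
      · exact hDt') hy
    simpa using this
  -- first step: polynomials in `s`
  have hpow : ∀ n : ℕ, ∀ j ∈ J, s ^ n * j ∈ J := fun n j hj => by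
    induction n with
    | zero => simpa using hj
    | succ n ih => rw [pow_succ', mul_assoc]; exact hJs _ ih
  have hder : ∀ q : Y[X], D (aeval s q) = aeval s (derivative q) := fun q => by
    induction q using Polynomial.induction_on' with
    | add p q hp hq => simp only [map_add, hp, hq]
    | monomial n c =>
      rw [aeval_monomial, derivative_monomial, aeval_monomial, Derivation.leibniz,
        Derivation.leibniz_pow, hDs]
      have : D (algebraMap Y T c) = 0 := hYD c c.2
      rw [this]
      simp only [smul_eq_mul, mul_one, mul_zero, add_zero, map_mul, map_natCast, nsmul_eq_mul]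
      ring
  have hco : ∀ (q : Y[X]), (∀ j, ((q.coeff (j + 1) : Y) : T) ∈ J) →
      aeval s q - (q.coeff 0 : Y) ∈ J := fun q hq => by
    rw [aeval_eq_sum_range, Finset.sum_range_succ', pow_zero]
    have : (q.coeff 0) • (1 : T) = ((q.coeff 0 : Y) : T) := by
      rw [Algebra.smul_def, mul_one]; rfl
    rw [this, add_sub_cancel_right]
    refine J.sum_mem fun j _ => ?_
    rw [Algebra.smul_def, mul_comm]
    exact hpow _ _ (hq j)
  have hdc : ∀ (q : Y[X]), (∀ j, (((derivative q).coeff j : Y) : T) ∈ J) →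
      ∀ j, ((q.coeff (j + 1) : Y) : T) ∈ J := fun q hq j => by
    have h1 := J.smul_mem (((j : ℂ) + 1)⁻¹) (hq j)
    have h2 : ((j : ℂ) + 1) ≠ 0 := by exact_mod_cast Nat.succ_ne_zero j
    rw [coeff_derivative] at h1
    have h3 : ((q.coeff (j + 1) * ((j : Y) + 1) : Y) : T) =
        ((j : ℂ) + 1) • ((q.coeff (j + 1) : Y) : T) := by
      rw [Algebra.smul_def]
      push_cast
      ring
    rwa [h3, smul_smul, inv_mul_cancel₀ h2, one_smul] at h1
  have hall : ∀ (n : ℕ) (q : Y[X]), q.natDegree < n → aeval s q ∈ J →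
      ∀ j, ((q.coeff j : Y) : T) ∈ J := fun n => by
    induction n with
    | zero => intro q hq; exact absurd hq (Nat.not_lt_zero _)
    | succ n ih =>
      intro q hq hJ
      have h1 : ∀ j, ((q.coeff (j + 1) : Y) : T) ∈ J := by
        by_cases h0 : q.natDegree = 0
        · intro j
          rw [coeff_eq_zero_of_natDegree_lt (by omega)]
          exact J.zero_mem
        · exact hdc q (ih _ (lt_of_lt_of_le (natDegree_derivative_lt h0) (by omega))
            (by rw [← hder]; exact hJD _ hJ))
      intro j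
      cases j with
      | zero => simpa using J.sub_mem hJ (hco q h1)
      | succ j => exact h1 j
  rw [Algebra.adjoin_union_eq_adjoin_adjoin, Subalgebra.mem_restrictScalars,
    Algebra.adjoin_singleton_eq_range_aeval] at hp
  obtain ⟨q, rfl⟩ := hp
  have hq : aeval s q - (q.coeff 0 : Y) ∈ J :=
    hco q (hdc q (hall _ _ (Nat.lt_succ_self _) (by rw [← hder]; exact hD)))
  set y : T := ((q.coeff 0 : Y) : T) with hy
  have hyY : y ∈ Y := (q.coeff 0).2
  have hEy : E y ∈ J := by
    have := J.sub_mem hE (hJE _ hq)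
    change E (aeval s q) - E (aeval s q - y) ∈ J at this
    rwa [map_sub, sub_sub_cancel] at this
  -- second step: weights
  have hw : ∀ u ∈ Y, u ∈ Submodule.span ℂ
      {v : T | ∃ z ∈ Z, ∃ i j : ℕ, v = z * t ^ i * t' ^ j} := fun u hu => by
    induction hu using Algebra.adjoin_induction with
    | mem u hu =>
      refine Submodule.subset_span ?_
      rcases hu with hu | rfl | rfl
      · exact ⟨u, hu, 0, 0, by simp⟩
      · exact ⟨1, Z.one_mem, 1, 0, by simp⟩
      · exact ⟨1, Z.one_mem, 0, 1, by simp⟩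
    | algebraMap c => exact Submodule.subset_span ⟨_, Z.algebraMap_mem c, 0, 0, by simp⟩
    | add u v _ _ hu hv => exact Submodule.add_mem _ hu hv
    | mul u v _ _ hu hv =>
      have := Submodule.mul_mem_mul hu hv
      rw [Submodule.span_mul_span] at this
      refine Submodule.span_mono ?_ this
      rintro _ ⟨_, ⟨z, hz, i, j, rfl⟩, _, ⟨z', hz', i', j', rfl⟩, rfl⟩
      exact ⟨z * z', Z.mul_mem hz hz', i + i', j + j', by ring⟩
  have heig : ∀ (r : ℂ[X]) (v : T) (c : ℂ), E v = c • v →
      aeval (E : T →ₗ[ℂ] T) r v = r.eval c • v := fun r v c hv =>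
    Module.End.aeval_apply_of_mem_apply_eq_smul (f := (E : T →ₗ[ℂ] T)) hv
  have hgood : ∀ u ∈ Submodule.span ℂ {v : T | ∃ z ∈ Z, ∃ i j : ℕ, v = z * t ^ i * t' ^ j},
      ∃ r : ℂ[X], r.eval 0 ≠ 0 ∧ aeval (E : T →ₗ[ℂ] T) r u ∈ Z := fun u hu => by
    induction hu using Submodule.span_induction with
    | mem u hu =>
      obtain ⟨z, hz, i, j, rfl⟩ := hu
      by_cases hij : i = j
      · subst hij
        refine ⟨1, by simp, ?_⟩
        rw [mul_assoc, ← mul_pow, htt, one_pow, mul_one]
        simpa using hz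
      · have hv : E (z * t ^ i * t' ^ j) = ((i : ℂ) - j) • (z * t ^ i * t' ^ j) := by
          have e1 : ∀ n : ℕ, E (t ^ n) = (n : ℂ) • t ^ n := fun n => by
            induction n with
            | zero => simp
            | succ n ih =>
              rw [pow_succ, Derivation.leibniz, ih, hEt]
              simp only [smul_eq_mul, Algebra.smul_def]
              push_cast
              ring
          have e2 : ∀ n : ℕ, E (t' ^ n) = -((n : ℂ) • t' ^ n) := fun n => by
            induction n with
            | zero => simp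
            | succ n ih =>
              rw [pow_succ, Derivation.leibniz, ih, hEt']
              simp only [smul_eq_mul, Algebra.smul_def]
              push_cast
              ring
          rw [Derivation.leibniz, Derivation.leibniz, e1, e2, (hZ z hz).2]
          simp only [smul_eq_mul, Algebra.smul_def, map_sub]
          ring
        refine ⟨X - C ((i : ℂ) - j), ?_, ?_⟩
        · simp only [eval_sub, eval_X, eval_C, zero_sub, ne_eq, neg_eq_zero, sub_eq_zero]
          exact_mod_cast hij
        · rw [heig _ _ _ hv]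
          simp
    | zero => exact ⟨1, by simp, by simp⟩
    | add u v _ _ hu hv =>
      obtain ⟨r, hr, hu⟩ := hu
      obtain ⟨r', hr', hv⟩ := hv
      refine ⟨r * r', by simp [hr, hr'], ?_⟩
      have hz : ∀ (r : ℂ[X]), ∀ z ∈ Z, aeval (E : T →ₗ[ℂ] T) r z ∈ Z := fun r z hz => by
        rw [heig r z 0 (by rw [(hZ z hz).2, zero_smul])]
        exact Z.smul_mem hz _
      rw [map_add]
      refine Z.add_mem ?_ ?_
      · rw [mul_comm, map_mul]; exact hz r' _ hu
      · rw [map_mul]; exact hz r _ hv
    | smul c u _ hu =>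
      obtain ⟨r, hr, hu⟩ := hu
      exact ⟨r, hr, by rw [map_smul]; exact Z.smul_mem hu c⟩
  obtain ⟨r, hr, hz⟩ := hgood y (hw y hyY)
  have hJr : ∀ (r : ℂ[X]), ∀ j ∈ J, aeval (E : T →ₗ[ℂ] T) r j ∈ J := fun r => by
    induction r using Polynomial.induction_on with
    | C c => intro j hj; simpa using J.smul_mem c hj
    | add p q hp hq => intro j hj; rw [map_add]; exact J.add_mem (hp j hj) (hq j hj)
    | monomial n c ih =>
      intro j hj
      rw [pow_succ, ← mul_assoc, map_mul, aeval_X]
      exact ih _ (hJE j hj)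
  have h1 : aeval (E : T →ₗ[ℂ] T) r y - r.eval 0 • y ∈ J := by
    have e : r = r.divX * X + C (r.eval 0) := by
      rw [← coeff_zero_eq_eval_zero, divX_mul_X_add]
    have : aeval (E : T →ₗ[ℂ] T) r y = aeval (E : T →ₗ[ℂ] T) r.divX (E y) + r.eval 0 • y := by
      conv_lhs => rw [e]
      simp
    rw [this, add_sub_cancel_right]
    exact hJr _ _ hEy
  refine ⟨(r.eval 0)⁻¹ • aeval (E : T →ₗ[ℂ] T) r y, Z.smul_mem hz _, ?_⟩
  have h2 := J.sub_mem hq (J.smul_mem (r.eval 0)⁻¹ h1)
  rw [smul_sub, smul_smul, inv_mul_cancel₀ hr, one_smul] at h2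
  convert h2 using 1
  change aeval s q - _ = _
  ring

end slice

end Pool.Agent.MP_86c931_ag.H56
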