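import Pool.Agent.MP_86c931_ag.H56.Cl

/-! Statements on the reduction. -/

namespace Pool.Agent.MP_86c931_ag.H56

open scoped PowerSeries

/-- the quantum reduction by the raising Hamiltonian -/
def RowMOD : Prop :=
  ∃ (M : Type) (_ : Ring M) (_ : Algebra ℂ⟦X⟧ M) (Q : PQ Ot M)
    (MI : Finset K6 → Subalgebra ℂ⟦X⟧ M) (Hq : M),
    TF M ∧ Q.Induces brt ∧ Function.Surjective Q.π ∧ Monotone MI ∧
    (∀ I, Q.Sub (OtI I) (MI I)) ∧ (∀ k, Hq ∈ MI {k}) ∧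
    (∃ p : Pab, (p : F) - Hh ∈ JeF ∧ Q.π Hq = mkt p) ∧ (∀ m, Hq * m = m * Hq) ∧
    hb ^ 3 • (1 : M) ∈ comms (MI ∅ : Set M)

/-- invariants modulo the ideal lift to invariants on a chart -/
def RowLIFT : Prop :=
  ∀ k : K6, ∀ p ∈ PI {k}, De p ∈ JF → Dh p ∈ JF → ∃ z ∈ PIb {k}, p - z ∈ JF

/-- Čech cohomology of the cover by the six charts -/
def RowCECH : Prop :=
  (∀ w : K6 → O, (∀ k l, w k - w l ∈ OI {k, l}) → ∃ c, ∀ k, w k - c ∈ OI {k}) ∧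
  (∀ f : O, (∀ k, f ∈ OI {k}) → f ∈ OI ∅) ∧
  (∀ p : P, iF p ∈ JF → p ∈ JP)

/-- structure of the invariants on intersections of charts -/
def RowSTR : Prop :=
  ∀ (I : Finset K6), ∀ k ∈ I, ∀ p ∈ PIb I,
    (∃ j : ℕ, p * (∏ l ∈ I, zF 0 l / zF 0 k) ^ j ∈ PIb {k}) ∧
    (p ∈ JF → ∃ a ∈ PIb I, ∃ b ∈ PIb I,
      p = a * (He / zF 0 k) + b * (Hh + zF 1 k / zF 0 k * He))

/-- the quantum reduction at the generic point with its local subalgebras -/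
def RowEXM : Prop :=
  ∀ (K : Type) [Field K] [Algebra ℂ K] (ι : O →ₐ[ℂ] K), Function.Injective ι →
    ∃ (M : Type) (_ : Ring M) (_ : Algebra ℂ⟦X⟧ M) (Q : PQ K M)
      (Sb : Subalgebra ℂ K → Subalgebra ℂ⟦X⟧ M),
      TF M ∧ SeqComplete M ∧ Q.InducesVia ι brO ∧ Monotone Sb ∧
      ∀ S, Good (fun k : K6 => (OI {k}).map ι) S → Q.Sub S (Sb S) ∧ SeqClosed (Sb S)

end Pool.Agent.MP_86c931_ag.H56
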