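import Pool.Agent.MP_86c931_ag.H56.Chart

/-! Statements on the singular variety. -/

namespace Pool.Agent.MP_86c931_ag.H56

/-- the coordinates as invariants -/
noncomputable def ztb (k : K6) (s : S18) : Pab := ⟨zt k s, zt_mem (Finset.mem_univ k) s⟩

lemma ztb_coe (k : K6) (s : S18) : (ztb k s : F) = zt k s := rfl

lemma brO_mem_OI (I : Finset K6) : ∀ f ∈ OI I, ∀ g ∈ OI I, brO f g ∈ OI I := by
  rintro _ ⟨p, hp, rfl⟩ _ ⟨p', hp', rfl⟩
  exact ⟨brb p p', brF_mem_PIb hp hp', (brO_mkO p p').symm⟩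

/-- the coordinate ring of the singular variety -/
abbrev R0 : Type := OI ∅

/-- its Poisson bracket -/
noncomputable def brR : R0 → R0 → R0 := brRes brO (OI ∅) (brO_mem_OI ∅)

lemma brR_coe (f g : R0) : (brR f g : O) = brO f g := rfl

lemma brR_poisson : IsPoisson brR := brO_poisson.res _ _

/-- consequences of the existence of Darboux charts -/
def RowISO : Prop :=
  ∀ (κ : Type) [Fintype κ] [DecidableEq κ] [Nonempty κ] (σ : κ → Type) [∀ k, Fintype (σ k)]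
    [∀ k, DecidableEq (σ k)] (Ot O : Type) [CommRing Ot] [Algebra ℂ Ot] [CommRing O]
    [Algebra ℂ O] (D : CData κ σ Ot O) (n : ℕ), (∀ k, Fintype.card (σ k) = 2 * n) →
    IsDomain O ∧ IsIntegrallyClosed (⨅ k, D.Ok k : Subalgebra ℂ O) ∧
    (∀ k, ∃ e : D.Ok k ≃ₐ[ℂ] MvPolynomial (Fin n ⊕ Fin n) ℂ,
      ∀ f g h : D.Ok k, (h : O) = D.β f g → e h = stdBr (e f) (e g)) ∧
    (∀ k (f : O), (∀ s, D.β f (D.q (D.z k s)) = 0) → ∃ r : ℂ, f = algebraMap ℂ O r) ∧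
    (∀ k (p : MvPolynomial (σ k) ℂ),
      MvPolynomial.aeval (fun s => D.q (D.z k s)) p = 0 → p = 0)

/-- Poisson homology in degree zero and finite generation -/
def RowHP : Prop :=
  (∀ p : P, iF p ∈ JF → p ∈ JP) → IsDomain O →
  (∀ (k : K6) (f : O), (∀ s : Sk k, brO f (mkO (ztb k s.1)) = 0) →
    ∃ r : ℂ, f = algebraMap ℂ O r) →
  Module.finrank ℂ (R0 ⧸ brackets brR) = 1 ∧
  (∃ u : K6 × K6 → R0, ∀ f, ∃ (c : ℂ) (g : K6 × K6 → R0),
    f = algebraMap ℂ R0 c + ∑ i, brR (u i) (g i)) ∧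
  Algebra.FiniteType ℂ R0

/-- the charts are the charts of a blow-up -/
def RowBL : Prop :=
  ∀ (K : Type) [Field K] [Algebra ℂ K] (ι : O →ₐ[ℂ] K), Function.Injective ι →
    ∃ r : K6 ⊕ K6 × K6 → R0, (∀ k, r (Sum.inl k) ≠ 0) ∧
      (∀ i, ∃ w : K6 → R0, (∀ k, w k ∈ Ideal.span (Set.range r)) ∧
        r i ^ 2 = ∑ k, r (Sum.inl k) * w k) ∧
      (∀ k, (OI {k}).map ι = Algebra.adjoin ℂ (Set.range (ι.comp (OI ∅).val) ∪
        Set.range fun i => ι (r i) / ι (r (Sum.inl k)))) ∧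
      (∀ k l, ι (r (Sum.inl l)) / ι (r (Sum.inl k)) = ι (mkO (ztb k (0, l)))) ∧
      ∀ f : O, ∃ a b : R0, (b : O) ≠ 0 ∧ f * b = a

end Pool.Agent.MP_86c931_ag.H56
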