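import Mathlib

/-! The notions used in the statement. -/

namespace Pool.Agent.MP_86c931_ag.H56

open AlgebraicGeometry CategoryTheory TopologicalSpace Opposite
open scoped PowerSeries TensorProduct

/-- The Poisson bracket of the standard symplectic form of the affine space of dimension `2n`. -/
noncomputable def stdBr {n : ℕ} (f g : MvPolynomial (Fin n ⊕ Fin n) ℂ) :
    MvPolynomial (Fin n ⊕ Fin n) ℂ :=
  ∑ i : Fin n, (MvPolynomial.pderiv (Sum.inl i) f * MvPolynomial.pderiv (Sum.inr i) g -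
    MvPolynomial.pderiv (Sum.inr i) f * MvPolynomial.pderiv (Sum.inl i) g)

/-- `β` is a Poisson bracket on the commutative `ℂ`-algebra `R`. -/
def IsPoisson {R : Type} [CommRing R] [Algebra ℂ R] (β : R → R → R) : Prop :=
  (∀ f, ∃ D : Derivation ℂ R R, ∀ g, β f g = D g) ∧ (∀ f g, β f g = -β g f) ∧
    ∀ f g h, β f (β g h) + β g (β h f) + β h (β f g) = 0

/-- The span `{R, R}` of all brackets. -/
def brackets {R : Type} [CommRing R] [Algebra ℂ R] (β : R → R → R) : Submodule ℂ R :=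
  Submodule.span ℂ {h : R | ∃ f g : R, h = β f g}

section

variable {R : Type} [CommRing R] [Algebra ℂ R] {Y : Scheme.{0}} (ρ : Y ⟶ Spec (CommRingCat.of R))

/-- The pullback along `ρ` of an element of `R`, as a section of the structure sheaf over `U`. -/
noncomputable def fn (f : R) (U : Y.Opens) : Γ(Y, U) :=
  Y.presheaf.map (homOfLE le_top).op (ρ.appTop ((Scheme.ΓSpecIso (CommRingCat.of R)).inv f))

/-- `Y` is covered by affine opens isomorphic over `ℂ` to the affine space of dimension `2n`, in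
such a way that `ρ` takes the bracket `β` to the standard symplectic bracket. -/
def DarbouxCharts (β : R → R → R) (n : ℕ) : Prop :=
  ∀ y : Y, ∃ U : Y.Opens, y ∈ U ∧ IsAffineOpen U ∧
    ∃ e : Γ(Y, U) ≃+* MvPolynomial (Fin n ⊕ Fin n) ℂ,
      (∀ c : ℂ, e (fn ρ (algebraMap ℂ R c) U) = MvPolynomial.C c) ∧
      ∀ f g : R, e (fn ρ (β f g) U) = stdBr (e (fn ρ f U)) (e (fn ρ g U))

variable (B : TopCat.Presheaf (AlgCat.{0} ℂ⟦X⟧) Y)

/-- Restriction of regular functions. -/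
noncomputable def resO {U V : Y.Opens} (i : V ≤ U) (f : Γ(Y, U)) : Γ(Y, V) :=
  Y.presheaf.map (homOfLE i).op f

/-- Restriction of sections of `B`. -/
noncomputable def resB {U V : Y.Opens} (i : V ≤ U) (b : B.obj (op U)) : B.obj (op V) :=
  B.map (homOfLE i).op b

/-- The section `b` is divisible by `h^n`. -/
def Divisible (n : ℕ) {U : Y.Opens} (b : B.obj (op U)) : Prop :=
  ∃ c : B.obj (op U), b = (PowerSeries.X : ℂ⟦X⟧) ^ n • c

/-- `B(U) → lim_n (B / h^n B)(U)` is bijective for all `U`; a section of the quotient sheaf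
`B / h^n B` over `U` is represented by sections `s n y` of `B` on neighbourhoods `V n y` of the
points `y` of `U`. -/
def Complete : Prop :=
  ∀ (U : Y.Opens) (V : ℕ → U → Y.Opens) (i : ∀ n y, V n y ≤ U)
    (s : ∀ n y, B.obj (op (V n y))), (∀ n y, y.1 ∈ V n y) →
    (∀ n m y z, n ≤ m → Divisible B n
      (resB B (inf_le_left : V n y ⊓ V m z ≤ V n y) (s n y) -
        resB B (inf_le_right : V n y ⊓ V m z ≤ V m z) (s m z))) →
    ∃! t : B.obj (op U), ∀ n y, Divisible B n (resB B (i n y) t - s n y)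

variable (π : ∀ U : Y.Opens, B.obj (op U) →+* Γ(Y, U))

/-- `π` is a morphism of sheaves of rings over `ℂ⟦h⟧ → ℂ` inducing `B / h B ≅ O`. -/
def IsReduction : Prop :=
  (∀ (U V : Y.Opens) (i : V ≤ U) (b : B.obj (op U)), π V (resB B i b) = resO i (π U b)) ∧
  (∀ (U : Y.Opens) (c : ℂ⟦X⟧), π U (algebraMap ℂ⟦X⟧ (B.obj (op U)) c) =
    fn ρ (algebraMap ℂ R (PowerSeries.constantCoeff c)) U) ∧
  (∀ (U : Y.Opens) (b : B.obj (op U)), π U b = 0 ↔ Divisible B 1 b) ∧
  (∀ (U : Y.Opens) (f : Γ(Y, U)) (y : Y), y ∈ U →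
    ∃ (V : Y.Opens) (i : V ≤ U), y ∈ V ∧ ∃ b, π V b = resO i f)

/-- `h⁻¹ [a,b]` induces the bracket `β`. -/
def InducesBracket (β : R → R → R) : Prop :=
  ∀ (U : Y.Opens) (a b c : B.obj (op U)) (f g : R), π U a = fn ρ f U → π U b = fn ρ g U →
    a * b - b * a = (PowerSeries.X : ℂ⟦X⟧) • c → π U c = fn ρ (β f g) U

/-- A quantization of `Y`: a sheaf `B` of flat associative `ℂ⟦h⟧`-algebras, complete in the
`h`-adic topology, with an isomorphism `B / h B ≅ O` (given by `π`) under which `h⁻¹ [a,b]`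
induces the bracket. -/
def IsQuantization (β : R → R → R) : Prop :=
  B.IsSheaf ∧ (∀ U : Y.Opens, Module.Flat ℂ⟦X⟧ (B.obj (op U))) ∧ Complete B ∧
    IsReduction ρ B π ∧ InducesBracket ρ B π β

end

/-- The zeroth Hochschild homology of `A[h⁻¹] = ℂ((h)) ⊗ A` over `ℂ((h)) = ℂ⟦h⟧[h⁻¹]`. -/
def HH0 (A : Type) [Ring A] [Algebra ℂ⟦X⟧ A] : Type :=
  (Localization.Away (PowerSeries.X : ℂ⟦X⟧) ⊗[ℂ⟦X⟧] A) ⧸
    Submodule.span (Localization.Away (PowerSeries.X : ℂ⟦X⟧))
      {z : Localization.Away (PowerSeries.X : ℂ⟦X⟧) ⊗[ℂ⟦X⟧] A | ∃ a b, z = a * b - b * a}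

/-- The statement aimed at. -/
def Goal : Prop :=
  ∃ (R : Type) (_ : CommRing R) (_ : Algebra ℂ R) (β : R → R → R) (Y : Scheme.{0})
    (ρ : Y ⟶ Spec (CommRingCat.of R)),
    IsDomain R ∧ IsIntegrallyClosed R ∧ Algebra.FiniteType ℂ R ∧ IsPoisson β ∧
    IsIntegral Y ∧ DarbouxCharts ρ β 7 ∧ IsProper ρ ∧
    (∃ U : (Spec (CommRingCat.of R)).Opens,
      Dense (U : Set (Spec (CommRingCat.of R))) ∧ IsIso (ρ ∣_ U)) ∧
    Module.finrank ℂ (R ⧸ brackets β) = 1 ∧
    (∃ B π, IsQuantization ρ B π β) ∧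
    ∀ B π, IsQuantization ρ B π β → Subsingleton (HH0 (B.obj (op ⊤)))

end Pool.Agent.MP_86c931_ag.H56
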